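import Mathlib

/-!
# The anisotropic Cheeger functional in the plane
-/

open Set MeasureTheory Real
open scoped ENNReal

namespace Pool.Agent.Q170.Cheeg

/-- The scalar product of the plane. -/
def dot (x y : ℝ × ℝ) : ℝ := x.1 * y.1 + x.2 * y.2

/-- The polar norm `Φ_K°(x) = sup {x · y : y ∈ K}`. -/
noncomputable def polarNorm (K : Set (ℝ × ℝ)) (x : ℝ × ℝ) : ℝ := sSup (dot x '' K)

/-- The polar set `K° = {Φ_K° < 1}`. -/
def polarSet (K : Set (ℝ × ℝ)) : Set (ℝ × ℝ) := {x | polarNorm K x < 1}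

/-- The divergence of a vector field. -/
noncomputable def divg (φ : ℝ × ℝ → ℝ × ℝ) (p : ℝ × ℝ) : ℝ :=
  (fderiv ℝ φ p (1, 0)).1 + (fderiv ℝ φ p (0, 1)).2

/-- The anisotropic perimeter `P_K(E) = sup {∫_E div φ}` over the compactly supported `C¹` fields
`φ` with values in the closure of `K`. -/
noncomputable def perim (K E : Set (ℝ × ℝ)) : ℝ≥0∞ :=
  ⨆ (φ : ℝ × ℝ → ℝ × ℝ) (_ : ContDiff ℝ 1 φ ∧ HasCompactSupport φ ∧ ∀ p, φ p ∈ closure K),
    ENNReal.ofReal (∫ p in E, divg φ p)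

/-- The anisotropic Cheeger constant `h_K(Ω)`. -/
noncomputable def cheeger (K Ω : Set (ℝ × ℝ)) : ℝ≥0∞ :=
  ⨅ (E : Set (ℝ × ℝ)) (_ : MeasurableSet E ∧ E ⊆ Ω ∧ volume E ≠ 0), perim K E / volume E

/-- The functional `J_Ω[K] = h_K(Ω) |K°|^{1/2}`. -/
noncomputable def J (Ω K : Set (ℝ × ℝ)) : ℝ≥0∞ :=
  cheeger K Ω * (volume (polarSet K)) ^ (1 / 2 : ℝ)

/-- The open unit disk. -/
def B : Set (ℝ × ℝ) := {p | p.1 ^ 2 + p.2 ^ 2 < 1}

/-- `K` is an open centrally symmetric convex polygon with exactly `n` sides: a bounded convex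
set with this many extreme points. -/
def IsSymNgon (n : ℕ) (K : Set (ℝ × ℝ)) : Prop :=
  0 < n ∧ IsOpen K ∧ K.Nonempty ∧ Bornology.IsBounded K ∧ Convex ℝ K ∧ (∀ x ∈ K, -x ∈ K) ∧
    ((closure K).extremePoints ℝ).ncard = n

/-- The open regular `n`-gon (`n` even) circumscribed about the unit disk. -/
def regular (n : ℕ) : Set (ℝ × ℝ) :=
  {p | ∀ k : ℤ, p.1 * cos (2 * π * k / n) + p.2 * sin (2 * π * k / n) < 1}

/-! ### Lower bound for sets containing the disk -/

theorem disc_volume {r : ℝ} (hr : 0 < r) : volume {p : ℝ × ℝ | p.1 ^ 2 + p.2 ^ 2 < r ^ 2} =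
    ENNReal.ofReal (r ^ 2 * π) := by
  have h := Complex.volume_preserving_equiv_real_prod
  have h1 : MeasurableSet {p : ℝ × ℝ | p.1 ^ 2 + p.2 ^ 2 < r ^ 2} := by
    apply IsOpen.measurableSet
    exact isOpen_lt (by fun_prop) (by fun_prop)
  have h2 : Complex.measurableEquivRealProd ⁻¹' {p : ℝ × ℝ | p.1 ^ 2 + p.2 ^ 2 < r ^ 2} =
      Metric.ball (0 : ℂ) r := by
    ext z
    rw [mem_preimage, Metric.mem_ball, dist_zero_right, Complex.norm_def, Complex.normSq_apply,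
      Real.sqrt_lt' hr]
    change z.re ^ 2 + z.im ^ 2 < r ^ 2 ↔ _
    rw [sq, sq]
  rw [← h.measure_preimage h1.nullMeasurableSet, h2, Complex.volume_ball,
    ENNReal.ofReal_mul (by positivity), ENNReal.ofReal_pow hr.le]
  congr 1
  rw [← ENNReal.ofReal_coe_nnreal]
  rfl

theorem isOpen_B : IsOpen B := isOpen_lt (by fun_prop) (by fun_prop)

theorem B_volume : volume B = ENNReal.ofReal π := by
  have := disc_volume one_pos
  rw [one_pow, one_mul] at this
  exact this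

/-- The test field. -/
theorem field {K E : Set (ℝ × ℝ)} (hK : B ⊆ K) (hE : MeasurableSet E) (hEB : E ⊆ B) {s : ℝ}
    (hs0 : 0 < s) (hs1 : s < 1) :
    ENNReal.ofReal (2 * s * (volume E).toReal) ≤ perim K E := by
  obtain ⟨R, hR⟩ : ∃ R, R = 1 / s := ⟨_, rfl⟩
  have hR1 : 1 < R := by rw [hR, lt_div_iff₀ hs0]; linarith
  have hsR : s * R = 1 := by rw [hR]; field_simp
  have hR2 : 0 < R ^ 2 - 1 := by nlinarith
  set χ : ℝ × ℝ → ℝ := fun p => Real.smoothTransition ((R ^ 2 - (p.1 ^ 2 + p.2 ^ 2)) / (R ^ 2 - 1))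
    with hχ
  have hχs : ContDiff ℝ 1 χ := by
    apply Real.smoothTransition.contDiff.comp
    fun_prop
  have hχ0 : ∀ p : ℝ × ℝ, R ^ 2 ≤ p.1 ^ 2 + p.2 ^ 2 → χ p = 0 := by
    intro p hp
    apply Real.smoothTransition.zero_of_nonpos
    exact div_nonpos_of_nonpos_of_nonneg (by linarith) hR2.le
  have hχ1 : ∀ p : ℝ × ℝ, p.1 ^ 2 + p.2 ^ 2 ≤ 1 → χ p = 1 := by
    intro p hp
    apply Real.smoothTransition.one_of_one_le
    rw [le_div_iff₀ hR2]
    linarith
  set φ : ℝ × ℝ → ℝ × ℝ := fun p => (s * χ p) • p with hφ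
  have hφs : ContDiff ℝ 1 φ := (contDiff_const.mul hχs).smul contDiff_id
  have hφc : HasCompactSupport φ := by
    apply HasCompactSupport.intro (isCompact_closedBall (0 : ℝ × ℝ) R)
    intro p hp
    rw [Metric.mem_closedBall, dist_zero_right, Prod.norm_def, max_le_iff, not_and_or,
      Real.norm_eq_abs, Real.norm_eq_abs, not_le, not_le] at hp
    have : R ^ 2 ≤ p.1 ^ 2 + p.2 ^ 2 := by
      rcases hp with h | h
      · have := sq_lt_sq' (by linarith) h
        rw [sq_abs] at this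
        nlinarith [sq_nonneg p.2]
      · have := sq_lt_sq' (by linarith) h
        rw [sq_abs] at this
        nlinarith [sq_nonneg p.1]
    simp only [hφ]
    rw [hχ0 p this, mul_zero, zero_smul]
  have hφK : ∀ p, φ p ∈ closure K := by
    intro p
    apply subset_closure
    apply hK
    change (φ p).1 ^ 2 + (φ p).2 ^ 2 < 1
    have e : (φ p).1 ^ 2 + (φ p).2 ^ 2 = (s * χ p) ^ 2 * (p.1 ^ 2 + p.2 ^ 2) := by
      simp only [hφ, Prod.smul_fst, Prod.smul_snd, smul_eq_mul]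
      ring
    rw [e]
    rcases le_or_gt (R ^ 2) (p.1 ^ 2 + p.2 ^ 2) with h | h
    · rw [hχ0 p h]; norm_num
    · have c0 : 0 ≤ χ p := Real.smoothTransition.nonneg _
      have c1 : χ p ≤ 1 := Real.smoothTransition.le_one _
      have c2 : (s * χ p) ^ 2 ≤ s ^ 2 := by
        apply pow_le_pow_left₀ (by positivity)
        nlinarith
      have c3 : 0 ≤ p.1 ^ 2 + p.2 ^ 2 := by positivity
      calc (s * χ p) ^ 2 * (p.1 ^ 2 + p.2 ^ 2) ≤ s ^ 2 * (p.1 ^ 2 + p.2 ^ 2) :=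
            mul_le_mul_of_nonneg_right c2 c3
        _ < s ^ 2 * R ^ 2 := mul_lt_mul_of_pos_left h (by positivity)
        _ = 1 := by rw [← mul_pow, hsR, one_pow]
  have hdiv : ∀ p ∈ E, divg φ p = 2 * s := by
    intro p hp
    have hpB : B ∈ nhds p := isOpen_B.mem_nhds (hEB hp)
    have hev : φ =ᶠ[nhds p] fun q => s • q := by
      filter_upwards [hpB] with q hq
      simp only [hφ]
      rw [hχ1 q (le_of_lt hq), mul_one]
    have hfd : fderiv ℝ φ p = s • ContinuousLinearMap.id ℝ (ℝ × ℝ) := by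
      rw [hev.fderiv_eq]
      have := (hasFDerivAt_id (𝕜 := ℝ) p).const_smul s
      exact this.fderiv
    unfold divg
    rw [hfd]
    simp
    ring
  have hint : ∫ p in E, divg φ p = 2 * s * (volume E).toReal := by
    rw [setIntegral_congr_fun hE hdiv, setIntegral_const, smul_eq_mul, mul_comm]
    rfl
  rw [← hint]
  exact le_iSup₂_of_le φ ⟨hφs, hφc, hφK⟩ (le_refl _)

theorem two_le_cheeger {K : Set (ℝ × ℝ)} (hK : B ⊆ K) : 2 ≤ cheeger K B := by
  refine le_iInf₂ fun E hE => ?_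
  obtain ⟨hE, hEB, hE0⟩ := hE
  have hfin : volume E ≠ ⊤ := by
    refine ne_top_of_le_ne_top ?_ (measure_mono hEB)
    rw [B_volume]
    exact ENNReal.ofReal_ne_top
  rw [ENNReal.le_div_iff_mul_le (Or.inl hE0) (Or.inl hfin)]
  have h2 : (2 : ℝ≥0∞) * volume E = ENNReal.ofReal (2 * 1 * (volume E).toReal) := by
    rw [ENNReal.ofReal_mul (by norm_num), ENNReal.ofReal_toReal hfin]
    norm_num
  rw [h2]
  have ht : Filter.Tendsto (fun s : ℝ => ENNReal.ofReal (2 * s * (volume E).toReal))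
      (nhdsWithin 1 (Iio 1)) (nhds (ENNReal.ofReal (2 * 1 * (volume E).toReal))) := by
    apply ENNReal.tendsto_ofReal
    apply Filter.Tendsto.mono_left _ nhdsWithin_le_nhds
    exact ((continuous_const.mul continuous_id).mul continuous_const).tendsto 1
  refine le_of_tendsto ht ?_
  have h3 : Ioo (0:ℝ) 1 ∈ nhdsWithin (1:ℝ) (Iio 1) := Ioo_mem_nhdsLT one_pos
  filter_upwards [h3] with s hs
  exact field hK hE hEB hs.1 hs.2

/-- Cauchy-Schwarz. -/
theorem dot_le (x y : ℝ × ℝ) : dot x y ≤ √(x.1 ^ 2 + x.2 ^ 2) * √(y.1 ^ 2 + y.2 ^ 2) := by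
  rw [← Real.sqrt_mul (by positivity)]
  apply Real.le_sqrt_of_sq_le
  unfold dot
  nlinarith [sq_nonneg (x.1 * y.2 - x.2 * y.1)]

theorem B_subset_regular (n : ℕ) : B ⊆ regular n := by
  intro p hp k
  have h := dot_le p (cos (2 * π * k / n), sin (2 * π * k / n))
  simp only [Real.cos_sq_add_sin_sq, Real.sqrt_one, mul_one] at h
  refine lt_of_le_of_lt h ?_
  rw [Real.sqrt_lt' one_pos, one_pow]
  exact hp

/-- The regular polygon lies in the disc of radius `1 / cos (π/n)`. -/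
theorem regular_bound {n : ℕ} (hn : 3 ≤ n) {y : ℝ × ℝ} (hy : y ∈ regular n) :
    √(y.1 ^ 2 + y.2 ^ 2) * cos (π / n) ≤ 1 := by
  have hn0 : (0:ℝ) < n := by positivity
  set z : ℂ := ⟨y.1, y.2⟩ with hz
  set r := √(y.1 ^ 2 + y.2 ^ 2) with hr
  have hnorm : ‖z‖ = r := by
    rw [Complex.norm_def, Complex.normSq_apply, hr, sq, sq]
  have h1 : y.1 = r * cos z.arg := by rw [← hnorm, Complex.norm_mul_cos_arg]
  have h2 : y.2 = r * sin z.arg := by rw [← hnorm, Complex.norm_mul_sin_arg]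
  set k : ℤ := round (z.arg * n / (2 * π)) with hk
  have h3 := abs_sub_round (z.arg * n / (2 * π))
  rw [← hk] at h3
  have h4 : |z.arg - 2 * π * k / n| ≤ π / n := by
    have h5 : z.arg - 2 * π * k / n = (z.arg * n / (2 * π) - k) * (2 * π / n) := by
      field_simp
    rw [h5, abs_mul, abs_of_pos (by positivity : 0 < 2 * π / n)]
    calc |z.arg * n / (2 * π) - k| * (2 * π / n) ≤ 1 / 2 * (2 * π / n) :=
          mul_le_mul_of_nonneg_right h3 (by positivity)
      _ = π / n := by ring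
  have h6 := hy k
  rw [h1, h2] at h6
  have h7 : r * cos z.arg * cos (2 * π * k / n) + r * sin z.arg * sin (2 * π * k / n) =
      r * cos (z.arg - 2 * π * k / n) := by rw [Real.cos_sub]; ring
  rw [h7] at h6
  have h8 : cos (π / n) ≤ cos (z.arg - 2 * π * k / n) := by
    rw [← Real.cos_abs (z.arg - 2 * π * k / n)]
    apply Real.cos_le_cos_of_nonneg_of_le_pi (abs_nonneg _) _ h4
    rw [div_le_iff₀ hn0]
    have : (3:ℝ) ≤ n := by exact_mod_cast hn
    nlinarith [pi_pos]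
  have h9 : r * cos (π / n) ≤ r * cos (z.arg - 2 * π * k / n) :=
    mul_le_mul_of_nonneg_left h8 (Real.sqrt_nonneg _)
  linarith

theorem cos_pos_of {n : ℕ} (hn : 3 ≤ n) : 0 < cos (π / n) := by
  have hn0 : (0:ℝ) < n := by positivity
  apply Real.cos_pos_of_mem_Ioo
  constructor
  · have : 0 < π / n := by positivity
    linarith [pi_pos]
  · rw [div_lt_div_iff₀ hn0 two_pos]
    have : (3:ℝ) ≤ n := by exact_mod_cast hn
    nlinarith [pi_pos]

theorem polar_regular {n : ℕ} (hn : 3 ≤ n) :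
    ENNReal.ofReal (cos (π / n) ^ 2 * π) ≤ volume (polarSet (regular n)) := by
  rw [← disc_volume (cos_pos_of hn)]
  apply measure_mono
  intro x hx
  have hx : x.1 ^ 2 + x.2 ^ 2 < cos (π / n) ^ 2 := hx
  have hc := cos_pos_of hn
  change sSup (dot x '' regular n) < 1
  have h1 : √(x.1 ^ 2 + x.2 ^ 2) < cos (π / n) := by
    rw [Real.sqrt_lt' hc]; exact hx
  have h2 : sSup (dot x '' regular n) ≤ √(x.1 ^ 2 + x.2 ^ 2) / cos (π / n) := by
    apply csSup_le
    · refine ⟨_, 0, B_subset_regular n ?_, rfl⟩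
      change (0:ℝ × ℝ).1 ^ 2 + (0:ℝ × ℝ).2 ^ 2 < 1
      simp
    · rintro _ ⟨y, hy, rfl⟩
      have h3 := dot_le x y
      have h4 := regular_bound hn hy
      rw [le_div_iff₀ hc]
      have h5 : dot x y * cos (π / n) ≤ √(x.1 ^ 2 + x.2 ^ 2) * √(y.1 ^ 2 + y.2 ^ 2) *
          cos (π / n) := mul_le_mul_of_nonneg_right h3 hc.le
      have h6 : √(x.1 ^ 2 + x.2 ^ 2) * (√(y.1 ^ 2 + y.2 ^ 2) * cos (π / n)) ≤
          √(x.1 ^ 2 + x.2 ^ 2) * 1 := mul_le_mul_of_nonneg_left h4 (Real.sqrt_nonneg _)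
      linarith
  refine lt_of_le_of_lt h2 ?_
  rw [div_lt_one hc]
  exact h1

/-- Lower bound for the regular polygon. -/
theorem lower {n : ℕ} (hn : 3 ≤ n) :
    ENNReal.ofReal (2 * (cos (π / n) * √π)) ≤ J B (regular n) := by
  have hc := cos_pos_of hn
  unfold J
  rw [ENNReal.ofReal_mul (by norm_num), ENNReal.ofReal_ofNat]
  apply mul_le_mul' (two_le_cheeger (B_subset_regular n))
  have h1 : ENNReal.ofReal (cos (π / n) * √π) =
      (ENNReal.ofReal (cos (π / n) ^ 2 * π)) ^ (1 / 2 : ℝ) := by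
    rw [ENNReal.ofReal_rpow_of_nonneg (by positivity) (by norm_num), ← Real.sqrt_eq_rpow,
      Real.sqrt_mul (by positivity), Real.sqrt_sq hc.le]
  rw [h1]
  exact ENNReal.rpow_le_rpow (polar_regular hn) (by norm_num)

end Pool.Agent.Q170.Cheeg
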