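import Pool.Agent.Q170.Cheeg

/-!
# Upper bounds for the anisotropic Cheeger functional of sets close to the square
-/

open Set MeasureTheory Real
open scoped ENNReal

namespace Pool.Agent.Q170.Cheeg

/-- The competitor: the unit disk cut by the square of half side `12/13`. -/
def E0 : Set (ℝ × ℝ) := {p | |p.1| < 12 / 13 ∧ |p.2| < 12 / 13 ∧ p.1 ^ 2 + p.2 ^ 2 < 1}

/-- Half the length of the slices of `E0`. -/
noncomputable def m (x : ℝ) : ℝ := min (12 / 13) (√(1 - x ^ 2))

theorem isOpen_E0 : IsOpen E0 := by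
  have h1 : IsOpen {p : ℝ × ℝ | |p.1| < 12 / 13} := isOpen_lt (by fun_prop) (by fun_prop)
  have h2 : IsOpen {p : ℝ × ℝ | |p.2| < 12 / 13} := isOpen_lt (by fun_prop) (by fun_prop)
  exact h1.inter (h2.inter isOpen_B)

theorem E0_sub : E0 ⊆ B := fun _ hp => hp.2.2

theorem m_cont : Continuous m := by
  unfold m
  fun_prop

theorem m_nonneg (x : ℝ) : 0 ≤ m x := le_min (by norm_num) (Real.sqrt_nonneg _)

theorem mem_E0 (x y : ℝ) : (x, y) ∈ E0 ↔ |x| < 12 / 13 ∧ y ∈ Ioo (-m x) (m x) := by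
  change (|x| < 12 / 13 ∧ |y| < 12 / 13 ∧ x ^ 2 + y ^ 2 < 1) ↔ _
  rw [mem_Ioo, ← abs_lt]
  unfold m
  rw [lt_min_iff, Real.lt_sqrt (abs_nonneg _), sq_abs]
  constructor
  · rintro ⟨h1, h2, h3⟩
    exact ⟨h1, h2, by linarith⟩
  · rintro ⟨h1, h2, h3⟩
    exact ⟨h1, h2, by linarith⟩

theorem mem_E0' (x y : ℝ) : (x, y) ∈ E0 ↔ |y| < 12 / 13 ∧ x ∈ Ioo (-m y) (m y) := by
  rw [← mem_E0 y x]
  change (|x| < 12 / 13 ∧ |y| < 12 / 13 ∧ x ^ 2 + y ^ 2 < 1) ↔
    (|y| < 12 / 13 ∧ |x| < 12 / 13 ∧ y ^ 2 + x ^ 2 < 1)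
  constructor
  · rintro ⟨h1, h2, h3⟩
    exact ⟨h2, h1, by linarith⟩
  · rintro ⟨h1, h2, h3⟩
    exact ⟨h2, h1, by linarith⟩

/-! ### The area -/

theorem E0_region : E0 = regionBetween (fun x => -m x) m (Ioo (-(12 / 13)) (12 / 13)) := by
  ext ⟨x, y⟩
  rw [mem_E0]
  unfold regionBetween
  change _ ↔ (x ∈ Ioo (-(12 / 13)) (12 / 13) ∧ y ∈ Ioo (-m x) (m x))
  rw [abs_lt]
  rfl

theorem E0_volume : volume E0 = ENNReal.ofReal (∫ x in (-(12 / 13))..(12 / 13), 2 * m x) := by
  rw [E0_region]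
  have hi : ∀ f : ℝ → ℝ, Continuous f → IntegrableOn f (Ioo (-(12 / 13)) (12 / 13)) volume := by
    intro f hf
    exact (hf.integrableOn_Icc).mono_set Ioo_subset_Icc_self
  rw [Measure.volume_eq_prod, volume_regionBetween_eq_integral (f := fun x => -m x)
    (hi _ m_cont.neg) (hi _ m_cont) measurableSet_Ioo (fun x _ => by have := m_nonneg x; linarith)]
  congr 1
  rw [intervalIntegral.integral_of_le (by norm_num), integral_Ioc_eq_integral_Ioo]
  apply integral_congr_ae
  apply Filter.Eventually.of_forall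
  intro x
  simp only [Pi.sub_apply]
  ring

/-- The antiderivative of `√(1-x²)`. -/
theorem anti (a b : ℝ) (ha : -1 < a) (hab : a ≤ b) (hb : b < 1) :
    ∫ x in a..b, √(1 - x ^ 2) = (b * √(1 - b ^ 2) + arcsin b) / 2 -
      (a * √(1 - a ^ 2) + arcsin a) / 2 := by
  have key : ∀ x ∈ Ioo (-1:ℝ) 1, HasDerivAt (fun y => (y * √(1 - y ^ 2) + arcsin y) / 2)
      (√(1 - x ^ 2)) x := by
    intro x hx
    have hpos : 0 < 1 - x ^ 2 := by nlinarith [hx.1, hx.2]
    have h1 : HasDerivAt (fun y : ℝ => 1 - y ^ 2) (-(2 * x)) x := by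
      have := ((hasDerivAt_id x).pow 2).const_sub 1
      exact this.congr_deriv (by simp)
    have h2 := h1.sqrt hpos.ne'
    have h3 := Real.hasDerivAt_arcsin hx.1.ne' hx.2.ne
    have h4 := (((hasDerivAt_id x).mul h2).add h3).div_const 2
    refine h4.congr_deriv ?_
    simp only [id]
    have hs : √(1 - x ^ 2) ≠ 0 := (Real.sqrt_pos.2 hpos).ne'
    have hs2 : √(1 - x ^ 2) ^ 2 = 1 - x ^ 2 := Real.sq_sqrt hpos.le
    field_simp
    rw [hs2]
    ring
  have huIcc : uIcc a b = Icc a b := uIcc_of_le hab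
  apply intervalIntegral.integral_eq_sub_of_hasDerivAt
  · intro x hx
    rw [huIcc] at hx
    exact key x ⟨by linarith [hx.1], by linarith [hx.2]⟩
  · apply Continuous.intervalIntegrable
    fun_prop

theorem sqrt1 : √(1 - (12 / 13 : ℝ) ^ 2) = 5 / 13 := by
  rw [show (1:ℝ) - (12 / 13) ^ 2 = (5 / 13) ^ 2 by norm_num, Real.sqrt_sq (by norm_num)]

theorem sqrt2 : √(1 - (5 / 13 : ℝ) ^ 2) = 12 / 13 := by
  rw [show (1:ℝ) - (5 / 13) ^ 2 = (12 / 13) ^ 2 by norm_num, Real.sqrt_sq (by norm_num)]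

theorem delta_ge : π / 4 - 1 / 200 ≤ arcsin (12 / 13) - arcsin (5 / 13) := by
  by_contra hcon
  push Not at hcon
  have h1 : sin (arcsin (12 / 13) - arcsin (5 / 13)) = 119 / 169 := by
    rw [Real.sin_sub, Real.cos_arcsin, Real.cos_arcsin, Real.sin_arcsin (by norm_num) (by norm_num),
      Real.sin_arcsin (by norm_num) (by norm_num), sqrt1, sqrt2]
    norm_num
  have h0 : arcsin (5 / 13) ≤ arcsin (12 / 13) := Real.arcsin_le_arcsin (by norm_num)
  have h2 : sin (arcsin (12 / 13) - arcsin (5 / 13)) < sin (π / 4 - 1 / 200) := by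
    apply Real.sin_lt_sin_of_lt_of_le_pi_div_two _ _ hcon
    · linarith [pi_pos]
    · linarith [pi_pos]
  rw [h1, Real.sin_sub, Real.cos_pi_div_four, Real.sin_pi_div_four] at h2
  have h3 : cos (1 / 200 : ℝ) ≤ 1 := Real.cos_le_one _
  have h4 : (1 / 200 : ℝ) - (1 / 200) ^ 3 / 6 < sin (1 / 200) :=
    Real.sin_gt_sub_cube (by norm_num)
  have h5 : √2 / 2 < 0.70711 := by
    rw [div_lt_iff₀ two_pos, Real.sqrt_lt' (by norm_num)]
    norm_num
  have h6 : 0 < √2 / 2 := by positivity
  have h7 : √2 / 2 * cos (1 / 200 : ℝ) - √2 / 2 * sin (1 / 200 : ℝ) ≤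
      √2 / 2 * (1 - (1 / 200 - (1 / 200) ^ 3 / 6)) := by nlinarith
  have h8 : √2 / 2 * (1 - (1 / 200 - (1 / 200) ^ 3 / 6)) < 0.70711 * (1 - (1 / 200 - (1 / 200) ^ 3 / 6)) :=
    mul_lt_mul_of_pos_right h5 (by norm_num)
  norm_num at h8 h7
  linarith

theorem area_ge : (2.98 : ℝ) ≤ ∫ x in (-(12 / 13))..(12 / 13), 2 * m x := by
  have hc : Continuous (fun x => 2 * m x) := continuous_const.mul m_cont
  have hii : ∀ a b : ℝ, IntervalIntegrable (fun x => 2 * m x) volume a b :=
    fun a b => hc.intervalIntegrable a b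
  rw [← intervalIntegral.integral_add_adjacent_intervals (hii (-(12 / 13)) (-(5 / 13)))
    (hii (-(5 / 13)) (12 / 13)),
    ← intervalIntegral.integral_add_adjacent_intervals (hii (-(5 / 13)) (5 / 13))
    (hii (5 / 13) (12 / 13))]
  have e1 : ∫ x in (5 / 13 : ℝ)..(12 / 13), 2 * m x = arcsin (12 / 13) - arcsin (5 / 13) := by
    have : ∫ x in (5 / 13 : ℝ)..(12 / 13), 2 * m x = ∫ x in (5 / 13 : ℝ)..(12 / 13),
        2 * √(1 - x ^ 2) := by
      apply intervalIntegral.integral_congr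
      intro x hx
      rw [uIcc_of_le (by norm_num)] at hx
      simp only [m]
      rw [min_eq_right]
      rw [Real.sqrt_le_left (by norm_num)]
      nlinarith [hx.1]
    rw [this, intervalIntegral.integral_const_mul, anti _ _ (by norm_num) (by norm_num)
      (by norm_num), sqrt1, sqrt2]
    ring
  have e2 : ∫ x in (-(12 / 13) : ℝ)..(-(5 / 13)), 2 * m x = arcsin (12 / 13) - arcsin (5 / 13) := by
    rw [← e1]
    have := intervalIntegral.integral_comp_neg (a := (5 / 13 : ℝ)) (b := 12 / 13)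
      (fun x => 2 * m x)
    rw [← this]
    apply intervalIntegral.integral_congr
    intro x _
    simp only [m, neg_sq]
  have e3 : ∫ x in (-(5 / 13) : ℝ)..(5 / 13), 2 * m x = 240 / 169 := by
    have : ∫ x in (-(5 / 13) : ℝ)..(5 / 13), 2 * m x = ∫ x in (-(5 / 13) : ℝ)..(5 / 13),
        (24 / 13 : ℝ) := by
      apply intervalIntegral.integral_congr
      intro x hx
      rw [uIcc_of_le (by norm_num)] at hx
      simp only [m]
      rw [min_eq_left]
      · norm_num
      · apply Real.le_sqrt_of_sq_le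
        nlinarith [hx.1, hx.2]
    rw [this, intervalIntegral.integral_const, smul_eq_mul]
    norm_num
  rw [e1, e2, e3]
  have := delta_ge
  have := Real.pi_gt_d4
  linarith

theorem E0_vol_ge : ENNReal.ofReal 2.98 ≤ volume E0 := by
  rw [E0_volume]
  exact ENNReal.ofReal_le_ofReal area_ge

/-! ### The perimeter -/

/-- The integral of an `x`-derivative over `E0`. -/
theorem slice {u : ℝ × ℝ → ℝ} (hu : ContDiff ℝ 1 u) (hc : HasCompactSupport u)
    (h1 : ∀ p, |u p| ≤ 1) :
    ∫ p in E0, fderiv ℝ u p (1, 0) ≤ 48 / 13 := by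
  have hcont : Continuous (fun p => fderiv ℝ u p (1, 0)) :=
    (hu.continuous_fderiv one_ne_zero).clm_apply continuous_const
  have hcs : HasCompactSupport (fun p => fderiv ℝ u p (1, 0)) := by
    have := hc.fderiv (𝕜 := ℝ)
    apply this.mono
    intro p hp
    rw [Function.mem_support] at hp ⊢
    intro h
    apply hp
    rw [h]
    rfl
  have hint : Integrable (fun p => fderiv ℝ u p (1, 0)) volume :=
    hcont.integrable_of_hasCompactSupport hcs
  have hE : MeasurableSet E0 := isOpen_E0.measurableSet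
  rw [← integral_indicator hE]
  have hint2 : Integrable (E0.indicator fun p => fderiv ℝ u p (1, 0)) volume := hint.indicator hE
  rw [Measure.volume_eq_prod] at hint2 ⊢
  rw [integral_prod_symm _ hint2]
  have hinner : ∀ y : ℝ, ∫ x : ℝ, E0.indicator (fun p => fderiv ℝ u p (1, 0)) (x, y) ≤
      (Ioo (-(12 / 13) : ℝ) (12 / 13)).indicator (fun _ => 2) y := by
    intro y
    by_cases hy : |y| < 12 / 13
    · have hyI : y ∈ Ioo (-(12 / 13) : ℝ) (12 / 13) := abs_lt.1 hy
      rw [indicator_of_mem hyI]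
      have e1 : (fun x : ℝ => E0.indicator (fun p => fderiv ℝ u p (1, 0)) (x, y)) =
          (Ioo (-m y) (m y)).indicator (fun x => fderiv ℝ u (x, y) (1, 0)) := by
        funext x
        by_cases hx : x ∈ Ioo (-m y) (m y)
        · rw [indicator_of_mem hx, indicator_of_mem ((mem_E0' x y).2 ⟨hy, hx⟩)]
        · rw [indicator_of_notMem hx, indicator_of_notMem (fun h => hx ((mem_E0' x y).1 h).2)]
      rw [e1, integral_indicator measurableSet_Ioo, ← integral_Ioc_eq_integral_Ioo,
        ← intervalIntegral.integral_of_le (by have := m_nonneg y; linarith)]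
      have e2 : ∫ x in (-m y)..(m y), fderiv ℝ u (x, y) (1, 0) = u (m y, y) - u (-m y, y) := by
        refine intervalIntegral.integral_eq_sub_of_hasDerivAt (f := fun x => u (x, y)) ?_ ?_
        · intro x _
          have h2 := ((hu.differentiable (by norm_num)) (x, y)).hasFDerivAt
          have h3 : HasDerivAt (fun t : ℝ => (t, y)) ((1:ℝ), (0:ℝ)) x :=
            (hasDerivAt_id x).prodMk (hasDerivAt_const x y)
          exact h2.comp_hasDerivAt x h3
        · apply Continuous.intervalIntegrable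
          exact hcont.comp (continuous_id.prodMk continuous_const)
      rw [e2]
      have a1 := abs_le.1 (h1 (m y, y))
      have a2 := abs_le.1 (h1 (-m y, y))
      linarith [a1.2, a2.1]
    · have hyI : y ∉ Ioo (-(12 / 13) : ℝ) (12 / 13) := fun h => hy (abs_lt.2 h)
      rw [indicator_of_notMem hyI]
      have e1 : (fun x : ℝ => E0.indicator (fun p => fderiv ℝ u p (1, 0)) (x, y)) =
          fun _ => (0:ℝ) := by
        funext x
        rw [indicator_of_notMem (fun h => hy ((mem_E0' x y).1 h).1)]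
      rw [e1, integral_zero]
  have hi1 : Integrable (fun y : ℝ => ∫ x : ℝ, E0.indicator (fun p => fderiv ℝ u p (1, 0)) (x, y))
      volume := hint2.integral_prod_right
  have hi2 : Integrable ((Ioo (-(12 / 13) : ℝ) (12 / 13)).indicator (fun _ => (2:ℝ))) volume := by
    rw [integrable_indicator_iff measurableSet_Ioo]
    exact integrableOn_const (by simp) (by simp)
  refine (integral_mono hi1 hi2 hinner).trans ?_
  rw [integral_indicator measurableSet_Ioo, setIntegral_const]
  simp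
  norm_num

theorem slice' {u : ℝ × ℝ → ℝ} (hu : ContDiff ℝ 1 u) (hc : HasCompactSupport u)
    (h1 : ∀ p, |u p| ≤ 1) :
    ∫ p in E0, fderiv ℝ u p (0, 1) ≤ 48 / 13 := by
  -- reflect in the diagonal
  have h := slice (u := fun p => u p.swap) (hu.comp (contDiff_snd.prodMk contDiff_fst))
    (hc.comp_homeomorph (Homeomorph.prodComm ℝ ℝ)) (fun p => h1 p.swap)
  have e : ∫ p in E0, fderiv ℝ (fun p => u p.swap) p (1, 0) = ∫ p in E0, fderiv ℝ u p (0, 1) := by
    have hmp : MeasurePreserving (Prod.swap : ℝ × ℝ → ℝ × ℝ) volume volume :=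
      Measure.measurePreserving_swap
    have hpre : (Prod.swap : ℝ × ℝ → ℝ × ℝ) ⁻¹' E0 = E0 := by
      ext ⟨x, y⟩
      change (y, x) ∈ E0 ↔ (x, y) ∈ E0
      rw [mem_E0, mem_E0']
    have := hmp.setIntegral_preimage_emb (MeasurableEquiv.prodComm.measurableEmbedding)
      (fun p => fderiv ℝ u p (0, 1)) E0
    rw [hpre] at this
    rw [← this]
    apply integral_congr_ae
    apply Filter.Eventually.of_forall
    rintro ⟨x, y⟩
    simp only
    have h2 := ((hu.differentiable (by norm_num)) (y, x)).hasFDerivAt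
    have h3 : HasFDerivAt (Prod.swap : ℝ × ℝ → ℝ × ℝ)
        ((ContinuousLinearMap.snd ℝ ℝ ℝ).prod (ContinuousLinearMap.fst ℝ ℝ ℝ)) (x, y) :=
      ((ContinuousLinearMap.snd ℝ ℝ ℝ).prod (ContinuousLinearMap.fst ℝ ℝ ℝ)).hasFDerivAt
    have h4 : HasFDerivAt (fun p : ℝ × ℝ => u p.swap) _ (x, y) := h2.comp (x, y) h3
    rw [h4.fderiv]
    rfl
  rw [← e]
  exact h

theorem perim_le {K : Set (ℝ × ℝ)} (hK : ∀ p ∈ closure K, |p.1| ≤ 1 ∧ |p.2| ≤ 1) :
    perim K E0 ≤ ENNReal.ofReal (96 / 13) := by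
  refine iSup₂_le fun φ hφ => ?_
  obtain ⟨hs, hc, hv⟩ := hφ
  apply ENNReal.ofReal_le_ofReal
  have hs1 : ContDiff ℝ 1 (fun p => (φ p).1) := contDiff_fst.comp hs
  have hs2 : ContDiff ℝ 1 (fun p => (φ p).2) := contDiff_snd.comp hs
  have hc1 : HasCompactSupport (fun p => (φ p).1) := hc.comp_left (g := Prod.fst) rfl
  have hc2 : HasCompactSupport (fun p => (φ p).2) := hc.comp_left (g := Prod.snd) rfl
  have e1 : ∀ p, divg φ p = fderiv ℝ (fun p => (φ p).1) p (1, 0) +
      fderiv ℝ (fun p => (φ p).2) p (0, 1) := by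
    intro p
    have hd := ((hs.differentiable (by norm_num)) p).hasFDerivAt
    rw [hd.fst.fderiv, hd.snd.fderiv]
    rfl
  have hi : ∀ (u : ℝ × ℝ → ℝ) (v : ℝ × ℝ), ContDiff ℝ 1 u → HasCompactSupport u →
      IntegrableOn (fun p => fderiv ℝ u p v) E0 volume := by
    intro u v hu hc
    have hcont : Continuous (fun p => fderiv ℝ u p v) :=
      (hu.continuous_fderiv one_ne_zero).clm_apply continuous_const
    have hcs : HasCompactSupport (fun p => fderiv ℝ u p v) := by
      have := hc.fderiv (𝕜 := ℝ)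
      apply this.mono
      intro p hp
      rw [Function.mem_support] at hp ⊢
      intro h
      apply hp
      rw [h]
      rfl
    exact (hcont.integrable_of_hasCompactSupport hcs).integrableOn
  simp only [e1]
  rw [integral_add (hi _ _ hs1 hc1) (hi _ _ hs2 hc2)]
  have a1 := slice hs1 hc1 (fun p => (hK _ (hv p)).1)
  have a2 := slice' hs2 hc2 (fun p => (hK _ (hv p)).2)
  linarith

/-! ### The polar set -/

theorem diamond {r : ℝ} (hr : 0 < r) : volume {p : ℝ × ℝ | |p.1| + |p.2| < r} =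
    ENNReal.ofReal (2 * r ^ 2) := by
  have hreg : {p : ℝ × ℝ | |p.1| + |p.2| < r} =
      regionBetween (fun x => -(r - |x|)) (fun x => r - |x|) (Ioo (-r) r) := by
    ext ⟨x, y⟩
    change |x| + |y| < r ↔ (x ∈ Ioo (-r) r ∧ y ∈ Ioo (-(r - |x|)) (r - |x|))
    rw [mem_Ioo, mem_Ioo, ← abs_lt, ← abs_lt]
    constructor
    · intro h
      exact ⟨by have := abs_nonneg y; linarith, by linarith⟩
    · rintro ⟨h1, h2⟩
      linarith
  have hi : ∀ f : ℝ → ℝ, Continuous f → IntegrableOn f (Ioo (-r) r) volume := by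
    intro f hf
    exact (hf.integrableOn_Icc).mono_set Ioo_subset_Icc_self
  rw [hreg, Measure.volume_eq_prod, volume_regionBetween_eq_integral (hi _ (by fun_prop))
    (hi _ (by fun_prop)) measurableSet_Ioo (fun x hx => by
      have := abs_lt.2 hx
      linarith)]
  congr 1
  have e1 : ∫ x in Ioo (-r) r, ((fun x => r - |x|) - fun x => -(r - |x|)) x =
      ∫ x in (-r)..r, 2 * (r - |x|) := by
    rw [intervalIntegral.integral_of_le (by linarith), integral_Ioc_eq_integral_Ioo]
    apply integral_congr_ae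
    apply Filter.Eventually.of_forall
    intro x
    simp only [Pi.sub_apply]
    ring
  rw [e1]
  have hc : Continuous (fun x : ℝ => 2 * (r - |x|)) := by fun_prop
  rw [← intervalIntegral.integral_add_adjacent_intervals (hc.intervalIntegrable (-r) 0)
    (hc.intervalIntegrable 0 r)]
  have e2 : ∫ x in (0:ℝ)..r, 2 * (r - |x|) = r ^ 2 := by
    have : ∫ x in (0:ℝ)..r, 2 * (r - |x|) = ∫ x in (0:ℝ)..r, (2 * r - 2 * x) := by
      apply intervalIntegral.integral_congr
      intro x hx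
      rw [uIcc_of_le hr.le] at hx
      simp only
      rw [abs_of_nonneg hx.1]
      ring
    rw [this, intervalIntegral.integral_sub (by simp) (Continuous.intervalIntegrable
      (by fun_prop) _ _), intervalIntegral.integral_const,
      intervalIntegral.integral_const_mul, integral_id]
    simp only [smul_eq_mul]
    ring
  have e3 : ∫ x in (-r)..0, 2 * (r - |x|) = r ^ 2 := by
    rw [← e2]
    have := intervalIntegral.integral_comp_neg (a := (0:ℝ)) (b := r)
      (fun x => 2 * (r - |x|))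
    rw [neg_zero] at this
    rw [← this]
    simp only [abs_neg]
  rw [e2, e3]
  ring

theorem polar_le {K : Set (ℝ × ℝ)} (hK : ∀ p ∈ K, |p.1| ≤ 1 ∧ |p.2| ≤ 1) {c : ℝ} (hc : 0 < c)
    (h : ∀ s t : ℝ, |s| < c → |t| < c → (s, t) ∈ K) :
    volume (polarSet K) ≤ ENNReal.ofReal (2 * (1 / c) ^ 2) := by
  rw [← diamond (by positivity : 0 < 1 / c)]
  apply measure_mono
  intro x hx
  have hx : sSup (dot x '' K) < 1 := hx
  change |x.1| + |x.2| < 1 / c
  have hbdd : BddAbove (dot x '' K) := by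
    refine ⟨|x.1| + |x.2|, ?_⟩
    rintro _ ⟨y, hy, rfl⟩
    obtain ⟨h1, h2⟩ := hK y hy
    unfold dot
    have a1 : x.1 * y.1 ≤ |x.1| * 1 := by
      refine (le_abs_self _).trans ?_
      rw [abs_mul]
      exact mul_le_mul_of_nonneg_left h1 (abs_nonneg _)
    have a2 : x.2 * y.2 ≤ |x.2| * 1 := by
      refine (le_abs_self _).trans ?_
      rw [abs_mul]
      exact mul_le_mul_of_nonneg_left h2 (abs_nonneg _)
    linarith
  -- test with points close to the corner of the small square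
  have key : ∀ t : ℝ, 0 < t → t < c → t * (|x.1| + |x.2|) ≤ sSup (dot x '' K) := by
    intro t ht0 htc
    obtain ⟨s1, hs1, hs1'⟩ : ∃ s : ℝ, |s| = t ∧ x.1 * s = t * |x.1| := by
      rcases le_or_gt 0 x.1 with h0 | h0
      · exact ⟨t, abs_of_pos ht0, by rw [abs_of_nonneg h0]; ring⟩
      · exact ⟨-t, by rw [abs_neg, abs_of_pos ht0], by rw [abs_of_neg h0]; ring⟩
    obtain ⟨s2, hs2, hs2'⟩ : ∃ s : ℝ, |s| = t ∧ x.2 * s = t * |x.2| := by
      rcases le_or_gt 0 x.2 with h0 | h0
      · exact ⟨t, abs_of_pos ht0, by rw [abs_of_nonneg h0]; ring⟩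
      · exact ⟨-t, by rw [abs_neg, abs_of_pos ht0], by rw [abs_of_neg h0]; ring⟩
    have := le_csSup hbdd ⟨(s1, s2), h s1 s2 (by rw [hs1]; exact htc) (by rw [hs2]; exact htc), rfl⟩
    have e : dot x (s1, s2) = t * (|x.1| + |x.2|) := by
      unfold dot
      simp only
      rw [hs1', hs2']
      ring
    rwa [e] at this
  rw [lt_div_iff₀ hc]
  have hlim : c * (|x.1| + |x.2|) ≤ sSup (dot x '' K) := by
    have ht : Filter.Tendsto (fun t : ℝ => t * (|x.1| + |x.2|)) (nhdsWithin c (Iio c))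
        (nhds (c * (|x.1| + |x.2|))) := by
      apply Filter.Tendsto.mono_left _ nhdsWithin_le_nhds
      exact (continuous_id.mul continuous_const).tendsto c
    refine le_of_tendsto ht ?_
    filter_upwards [Ioo_mem_nhdsLT hc] with t ht
    exact key t ht.1 ht.2
  linarith

/-- Upper bound for sets between two squares. -/
theorem upper {K : Set (ℝ × ℝ)} (hK : ∀ p ∈ closure K, |p.1| ≤ 1 ∧ |p.2| ≤ 1) {c : ℝ}
    (hc : 0 < c) (h : ∀ s t : ℝ, |s| < c → |t| < c → (s, t) ∈ K) :
    J B K ≤ ENNReal.ofReal (96 / 13 / 2.98 * (√2 / c)) := by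
  have hv0 : volume E0 ≠ 0 := by
    intro h0
    have := E0_vol_ge
    rw [h0, nonpos_iff_eq_zero, ENNReal.ofReal_eq_zero] at this
    norm_num at this
  have h1 : cheeger K B ≤ ENNReal.ofReal (96 / 13 / 2.98) := by
    refine (iInf₂_le E0 ⟨isOpen_E0.measurableSet, E0_sub, hv0⟩).trans ?_
    rw [ENNReal.ofReal_div_of_pos (by norm_num)]
    exact ENNReal.div_le_div (perim_le hK) E0_vol_ge
  have h2 : (volume (polarSet K)) ^ (1 / 2 : ℝ) ≤ ENNReal.ofReal (√2 / c) := by
    have h3 := polar_le (fun p hp => hK p (subset_closure hp)) hc h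
    refine (ENNReal.rpow_le_rpow h3 (by norm_num)).trans ?_
    rw [ENNReal.ofReal_rpow_of_nonneg (by positivity) (by norm_num), ← Real.sqrt_eq_rpow,
      Real.sqrt_mul (by norm_num), Real.sqrt_sq (by positivity)]
    apply ENNReal.ofReal_le_ofReal
    rw [mul_one_div]
  unfold J
  rw [ENNReal.ofReal_mul (by norm_num)]
  exact mul_le_mul' h1 h2

end Pool.Agent.Q170.Cheeg
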