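import Mathlib

/-!
# Thin regions between two graphs: Lipschitz property and Neumann eigenvalues
-/

open Set MeasureTheory Filter Topology
open scoped NNReal

namespace Pool.Agent.Q170.Horn

/-- `Ω` is a bounded Lipschitz domain of the plane: open, nonempty, connected, bounded, and near
every boundary point it is, in suitable orthonormal coordinates, the set above the graph of a
Lipschitz function. -/
def IsLipDomain (Ω : Set (ℝ × ℝ)) : Prop :=
  IsOpen Ω ∧ Ω.Nonempty ∧ IsPreconnected Ω ∧ Bornology.IsBounded Ω ∧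
    ∀ z ∈ frontier Ω, ∃ v : ℝ × ℝ, v.1 ^ 2 + v.2 ^ 2 = 1 ∧ ∃ (K : ℝ≥0) (φ : ℝ × ℝ → ℝ),
      LipschitzWith K φ ∧ ∀ᶠ p in 𝓝 z,
        (p ∈ Ω ↔ φ (p - (p.1 * v.1 + p.2 * v.2) • v) < p.1 * v.1 + p.2 * v.2)

/-- The squared length of the gradient. -/
noncomputable def gradSq (u : ℝ × ℝ → ℝ) (p : ℝ × ℝ) : ℝ :=
  (fderiv ℝ u p (1, 0)) ^ 2 + (fderiv ℝ u p (0, 1)) ^ 2

/-- The Neumann eigenvalue `μ_k(Ω)` (`μ_0 = 0`) of a bounded Lipschitz domain, by the min-max
principle over `(k+1)`-dimensional spaces of `C¹` functions. -/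
noncomputable def mu (k : ℕ) (Ω : Set (ℝ × ℝ)) : ℝ :=
  sInf {Λ : ℝ | ∃ f : Fin (k + 1) → ℝ × ℝ → ℝ, (∀ i, ContDiff ℝ 1 (f i)) ∧
    (∀ t : Fin (k + 1) → ℝ, t ≠ 0 → 0 < ∫ p in Ω, (∑ i, t i * f i p) ^ 2) ∧
    ∀ t : Fin (k + 1) → ℝ, ∫ p in Ω, gradSq (fun q => ∑ i, t i * f i q) p ≤
      Λ * ∫ p in Ω, (∑ i, t i * f i p) ^ 2}

/-- The region `{0 < x < 1, |y| < w(x)}`. -/
def Reg (w : ℝ → ℝ) : Set (ℝ × ℝ) := {p | 0 < p.1 ∧ p.1 < 1 ∧ |p.2| < w p.1}

/-! ### The Lipschitz property -/

/-- An open set which is stable under a cone of directions is the set above a Lipschitz graph. -/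
theorem epi {A : Set (ℝ × ℝ)} {v : ℝ × ℝ} {M : ℝ≥0} (hne : A.Nonempty) (hne' : Aᶜ.Nonempty)
    (hop : IsOpen A) (hA : ∀ x ∈ A, ∀ d : ℝ × ℝ, ∀ τ : ℝ, M * ‖d‖ < τ → x + d + τ • v ∈ A) :
    ∃ φ : ℝ × ℝ → ℝ, LipschitzWith M φ ∧ (∀ p, ∀ σ : ℝ, φ (p + σ • v) = φ p - σ) ∧
      ∀ p, p ∈ A ↔ φ p < 0 := by
  obtain ⟨x0, hx0⟩ := hne
  obtain ⟨x1, hx1⟩ := hne'
  set S : ℝ × ℝ → Set ℝ := fun p => {τ | p + τ • v ∈ A} with hS
  have hSne : ∀ p, (S p).Nonempty := by
    intro p
    refine ⟨M * ‖p - x0‖ + 1, ?_⟩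
    have := hA x0 hx0 (p - x0) (M * ‖p - x0‖ + 1) (by linarith)
    rwa [add_sub_cancel] at this
  have hSbd : ∀ p, BddBelow (S p) := by
    intro p
    refine ⟨-(M * ‖x1 - p‖), ?_⟩
    intro τ hτ
    by_contra hcon
    push Not at hcon
    apply hx1
    have := hA _ hτ (x1 - p) (-τ) (by linarith)
    have e : p + τ • v + (x1 - p) + (-τ) • v = x1 := by module
    rwa [e] at this
  refine ⟨fun p => sInf (S p), ?_, ?_, ?_⟩
  · have key : ∀ p q, sInf (S q) ≤ sInf (S p) + M * ‖q - p‖ := by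
      intro p q
      apply le_of_forall_pos_le_add
      intro ε hε
      obtain ⟨τ, hτ, hτ'⟩ := exists_lt_of_csInf_lt (hSne p)
        (by linarith : sInf (S p) < sInf (S p) + ε / 2)
      have hmem : τ + M * ‖q - p‖ + ε / 2 ∈ S q := by
        have := hA _ hτ (q - p) (M * ‖q - p‖ + ε / 2) (by linarith)
        have e : p + τ • v + (q - p) + (M * ‖q - p‖ + ε / 2) • v =
            q + (τ + M * ‖q - p‖ + ε / 2) • v := by module
        rw [e] at this
        exact this
      have := csInf_le (hSbd q) hmem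
      linarith
    apply LipschitzWith.of_dist_le_mul
    intro p q
    rw [Real.dist_eq, abs_le, dist_eq_norm]
    constructor
    · have := key p q
      rw [norm_sub_rev] at this
      linarith
    · have := key q p
      linarith
  · intro p σ
    have e : S (p + σ • v) = (fun τ => τ + -σ) '' S p := by
      ext τ
      constructor
      · intro h
        refine ⟨τ + σ, ?_, by ring⟩
        have h : p + σ • v + τ • v ∈ A := h
        change p + (τ + σ) • v ∈ A
        have e : p + σ • v + τ • v = p + (τ + σ) • v := by module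
        rwa [e] at h
      · rintro ⟨τ', h, rfl⟩
        have h : p + τ' • v ∈ A := h
        change p + σ • v + (τ' + -σ) • v ∈ A
        have e : p + σ • v + (τ' + -σ) • v = p + τ' • v := by module
        rwa [e]
    change sInf (S (p + σ • v)) = sInf (S p) - σ
    rw [e]
    have := (OrderIso.addRight (-σ)).map_csInf' (hSne p) (hSbd p)
    simp only [OrderIso.addRight_apply] at this
    rw [← this]
    ring
  · intro p
    constructor
    · intro hp
      have hcont : Continuous (fun τ : ℝ => p + τ • v) := by fun_prop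
      have h0 : p + (0:ℝ) • v ∈ A := by rwa [zero_smul, add_zero]
      have hn : (fun τ : ℝ => p + τ • v) ⁻¹' A ∈ 𝓝 (0:ℝ) := (hop.preimage hcont).mem_nhds h0
      obtain ⟨ε, hε, hball⟩ := Metric.mem_nhds_iff.1 hn
      have hmem : -(ε / 2) ∈ S p := by
        apply hball
        rw [Metric.mem_ball, Real.dist_eq, sub_zero, abs_neg, abs_of_pos (by linarith)]
        linarith
      have := csInf_le (hSbd p) hmem
      change sInf (S p) < 0
      linarith
    · intro h
      obtain ⟨τ, hτ, hτ'⟩ := exists_lt_of_csInf_lt (hSne p) h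
      have := hA _ hτ 0 (-τ) (by rw [norm_zero, mul_zero]; linarith)
      have e : p + τ • v + 0 + (-τ) • v = p := by module
      rwa [e] at this

/-- The local pieces. -/
theorem piece {w : ℝ → ℝ} (hw : LipschitzWith (1 / 2) w) {σ τ c : ℝ} (hσ : σ ^ 2 = 1)
    (hτ : τ ^ 2 = 1) : ∃ v : ℝ × ℝ, v.1 ^ 2 + v.2 ^ 2 = 1 ∧ ∃ φ : ℝ × ℝ → ℝ, LipschitzWith 5 φ ∧
      ∀ p : ℝ × ℝ, ((0 < σ * (p.1 - c) ∧ τ * p.2 < w p.1) ↔
        φ (p - (p.1 * v.1 + p.2 * v.2) • v) < p.1 * v.1 + p.2 * v.2) := by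
  obtain ⟨r, hr0, hr2⟩ : ∃ r : ℝ, 0 < r ∧ r ^ 2 = 1 / 2 :=
    ⟨√(1 / 2), Real.sqrt_pos.2 (by norm_num), Real.sq_sqrt (by norm_num)⟩
  have hr7 : 7 / 10 < r := by nlinarith
  have habsσ : |σ| = 1 := by
    rw [← Real.sqrt_sq_eq_abs, hσ, Real.sqrt_one]
  have habsτ : |τ| = 1 := by
    rw [← Real.sqrt_sq_eq_abs, hτ, Real.sqrt_one]
  set A : Set (ℝ × ℝ) := {p | 0 < σ * (p.1 - c) ∧ τ * p.2 < w p.1} with hA
  set v : ℝ × ℝ := (σ * r, -(τ * r)) with hv
  have hv1 : v.1 ^ 2 + v.2 ^ 2 = 1 := by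
    simp only [hv]
    have : (σ * r) ^ 2 + (-(τ * r)) ^ 2 = σ ^ 2 * r ^ 2 + τ ^ 2 * r ^ 2 := by ring
    rw [this, hσ, hτ, hr2]; norm_num
  have hop : IsOpen A := by
    have h1 : IsOpen {p : ℝ × ℝ | 0 < σ * (p.1 - c)} := isOpen_lt (by fun_prop) (by fun_prop)
    have h2 : IsOpen {p : ℝ × ℝ | τ * p.2 < w p.1} :=
      isOpen_lt (by fun_prop) (hw.continuous.comp continuous_fst)
    exact h1.inter h2
  obtain ⟨φ, hφ1, hφ2, hφ3⟩ := epi (A := A) (v := v) (M := 5)
    ⟨(c + σ, τ * (w (c + σ) - 1)), by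
      constructor
      · simp only [add_sub_cancel_left]; nlinarith
      · simp only
        have : τ * (τ * (w (c + σ) - 1)) = τ ^ 2 * (w (c + σ) - 1) := by ring
        rw [this, hτ]; linarith⟩
    ⟨(c, 0), fun h => by have := h.1; simp at this⟩ hop (by
      intro x hx d t ht
      have ht : 5 * ‖d‖ < t := by exact_mod_cast ht
      have hd1 : |d.1| ≤ ‖d‖ := by
        rw [Prod.norm_def]; exact le_max_left _ _
      have hd2 : |d.2| ≤ ‖d‖ := by
        rw [Prod.norm_def]; exact le_max_right _ _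
      have ht0 : 0 < t := lt_of_le_of_lt (by positivity) ht
      constructor
      · change 0 < σ * (x.1 + d.1 + t * (σ * r) - c)
        have e : σ * (x.1 + d.1 + t * (σ * r) - c) = σ * (x.1 - c) + σ * d.1 + σ ^ 2 * (t * r) := by
          ring
        rw [e, hσ]
        have h1 : |σ * d.1| ≤ ‖d‖ := by rw [abs_mul, habsσ, one_mul]; exact hd1
        have h2 := abs_le.1 h1
        have := hx.1
        nlinarith
      · change τ * (x.2 + d.2 + t * -(τ * r)) < w (x.1 + d.1 + t * (σ * r))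
        have e : τ * (x.2 + d.2 + t * -(τ * r)) = τ * x.2 + τ * d.2 - τ ^ 2 * (t * r) := by ring
        rw [e, hτ]
        have h1 : |τ * d.2| ≤ ‖d‖ := by rw [abs_mul, habsτ, one_mul]; exact hd2
        have h2 := abs_le.1 h1
        have h3 := hw.dist_le_mul (x.1 + d.1 + t * (σ * r)) x.1
        rw [Real.dist_eq, Real.dist_eq] at h3
        have h4 : |x.1 + d.1 + t * (σ * r) - x.1| ≤ ‖d‖ + t * r := by
          have : x.1 + d.1 + t * (σ * r) - x.1 = d.1 + σ * (t * r) := by ring
          rw [this]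
          refine (abs_add_le _ _).trans (add_le_add hd1 ?_)
          rw [abs_mul, habsσ, one_mul, abs_of_pos (by positivity)]
        have h5 := abs_le.1 h3
        have h6 : ((1 / 2 : ℝ≥0) : ℝ) * |x.1 + d.1 + t * (σ * r) - x.1| ≤
            1 / 2 * (‖d‖ + t * r) := by
          have : ((1 / 2 : ℝ≥0) : ℝ) = 1 / 2 := by simp
          rw [this]
          linarith
        have := hx.2
        nlinarith [h5.1])
  refine ⟨v, hv1, φ, hφ1, ?_⟩
  intro p
  have h1 : φ (p - (p.1 * v.1 + p.2 * v.2) • v) = φ p + (p.1 * v.1 + p.2 * v.2) := by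
    have := hφ2 p (-(p.1 * v.1 + p.2 * v.2))
    rw [neg_smul, ← sub_eq_add_neg] at this
    rw [this]; ring
  rw [h1]
  constructor
  · intro h
    have := (hφ3 p).1 h
    linarith
  · intro h
    exact (hφ3 p).2 (by linarith)

theorem isOpen_Reg {w : ℝ → ℝ} (hw : Continuous w) : IsOpen (Reg w) := by
  have h1 : IsOpen {p : ℝ × ℝ | 0 < p.1} := isOpen_lt (by fun_prop) (by fun_prop)
  have h2 : IsOpen {p : ℝ × ℝ | p.1 < 1} := isOpen_lt (by fun_prop) (by fun_prop)
  have h3 : IsOpen {p : ℝ × ℝ | |p.2| < w p.1} :=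
    isOpen_lt (by fun_prop) (hw.comp continuous_fst)
  exact h1.inter (h2.inter h3)

theorem bounded_Reg {w : ℝ → ℝ} (hw : Continuous w) : Bornology.IsBounded (Reg w) := by
  obtain ⟨C, hC⟩ := isCompact_Icc.exists_bound_of_continuousOn
    (hw.continuousOn (s := Icc (0:ℝ) 1))
  apply (Metric.isBounded_closedBall (x := (0 : ℝ × ℝ)) (r := max 1 C)).subset
  intro p hp
  rw [mem_closedBall_zero_iff, Prod.norm_def]
  apply max_le
  · rw [Real.norm_eq_abs, abs_of_pos hp.1]
    exact hp.2.1.le.trans (le_max_left _ _)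
  · rw [Real.norm_eq_abs]
    have h1 := hC p.1 ⟨hp.1.le, hp.2.1.le⟩
    rw [Real.norm_eq_abs] at h1
    exact (hp.2.2.le.trans ((le_abs_self _).trans h1)).trans (le_max_right _ _)

theorem conn_Reg {w : ℝ → ℝ} (hw : Continuous w) (hpos : ∀ x, 0 < w x) :
    IsPreconnected (Reg w) := by
  have e : Reg w = (fun p : ℝ × ℝ => (p.1, w p.1 * p.2)) '' (Ioo (0:ℝ) 1 ×ˢ Ioo (-1:ℝ) 1) := by
    ext ⟨x, y⟩
    constructor
    · rintro ⟨h1, h2, h3⟩
      simp only at h1 h2 h3
      have hp := hpos x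
      refine ⟨(x, y / w x), ⟨⟨h1, h2⟩, ?_⟩, ?_⟩
      · simp only
        rw [mem_Ioo, ← abs_lt, abs_div, abs_of_pos hp, div_lt_one hp]
        exact h3
      · simp only [Prod.mk.injEq, true_and]
        field_simp
    · rintro ⟨⟨a, b⟩, ⟨h1, h2⟩, h3⟩
      simp only [Prod.mk.injEq] at h3
      obtain ⟨rfl, rfl⟩ := h3
      refine ⟨h1.1, h1.2, ?_⟩
      simp only at h2 ⊢
      rw [abs_mul, abs_of_pos (hpos a)]
      have := abs_lt.2 h2
      have := hpos a
      nlinarith
  rw [e]
  apply IsPreconnected.image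
  · exact ((convex_Ioo _ _).prod (convex_Ioo _ _)).isPreconnected
  · apply Continuous.continuousOn
    exact continuous_fst.prodMk ((hw.comp continuous_fst).mul continuous_snd)

theorem lip_Reg {w : ℝ → ℝ} (hw : LipschitzWith (1 / 2) w) (hpos : ∀ x, 0 < w x) :
    IsLipDomain (Reg w) := by
  refine ⟨isOpen_Reg hw.continuous, ⟨(1 / 2, 0), by norm_num, by norm_num, by
    simpa using hpos (1 / 2)⟩, conn_Reg hw.continuous hpos, bounded_Reg hw.continuous, ?_⟩
  intro z _
  obtain ⟨σ, c, hσ, h1⟩ : ∃ σ c : ℝ, σ ^ 2 = 1 ∧ ∀ᶠ p : ℝ × ℝ in 𝓝 z,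
      ((0 < p.1 ∧ p.1 < 1) ↔ 0 < σ * (p.1 - c)) := by
    rcases lt_or_ge z.1 1 with h | h
    · refine ⟨1, 0, by norm_num, ?_⟩
      have : ∀ᶠ p : ℝ × ℝ in 𝓝 z, p.1 < 1 := continuous_fst.continuousAt.eventually_lt_const h
      filter_upwards [this] with p hp
      constructor
      · intro h; linarith [h.1]
      · intro h; exact ⟨by linarith, hp⟩
    · refine ⟨-1, 1, by norm_num, ?_⟩
      have : ∀ᶠ p : ℝ × ℝ in 𝓝 z, 0 < p.1 :=
        continuous_fst.continuousAt.eventually_const_lt (by linarith)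
      filter_upwards [this] with p hp
      constructor
      · intro h; linarith [h.2]
      · intro h; exact ⟨hp, by linarith⟩
  obtain ⟨τ, hτ, h2⟩ : ∃ τ : ℝ, τ ^ 2 = 1 ∧ ∀ᶠ p : ℝ × ℝ in 𝓝 z,
      (|p.2| < w p.1 ↔ τ * p.2 < w p.1) := by
    have hcw : Continuous (fun p : ℝ × ℝ => w p.1) := hw.continuous.comp continuous_fst
    rcases lt_or_ge (-z.2) (w z.1) with h | h
    · refine ⟨1, by norm_num, ?_⟩
      have : ∀ᶠ p : ℝ × ℝ in 𝓝 z, -p.2 < w p.1 :=
        ((continuous_snd.neg).continuousAt.eventually_lt hcw.continuousAt h)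
      filter_upwards [this] with p hp
      rw [one_mul, abs_lt]
      constructor
      · intro h; exact h.2
      · intro h; exact ⟨by linarith, h⟩
    · refine ⟨-1, by norm_num, ?_⟩
      have hz := hpos z.1
      have : ∀ᶠ p : ℝ × ℝ in 𝓝 z, p.2 < w p.1 :=
        (continuous_snd.continuousAt.eventually_lt hcw.continuousAt (by linarith))
      filter_upwards [this] with p hp
      rw [neg_one_mul, abs_lt]
      constructor
      · intro h; linarith [h.1]
      · intro h; exact ⟨by linarith, hp⟩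
  obtain ⟨v, hv, φ, hφ, hφ'⟩ := piece hw hσ hτ (c := c)
  refine ⟨v, hv, 5, φ, hφ, ?_⟩
  filter_upwards [h1, h2] with p hp1 hp2
  rw [← hφ' p, ← hp1, ← hp2]
  constructor
  · rintro ⟨a, b, d⟩; exact ⟨⟨a, b⟩, d⟩
  · rintro ⟨⟨a, b⟩, d⟩; exact ⟨a, b, d⟩

/-! ### Integration over the region -/

theorem integrableOn_Reg {w : ℝ → ℝ} (hw : Continuous w) {F : ℝ × ℝ → ℝ} (hF : Continuous F) :
    IntegrableOn F (Reg w) volume := by
  have hcl : IsCompact (closure (Reg w)) :=
    Metric.isCompact_of_isClosed_isBounded isClosed_closure (bounded_Reg hw).closure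
  exact (hF.continuousOn.integrableOn_compact hcl).mono_set subset_closure

theorem integral_Reg {w : ℝ → ℝ} (hw : Continuous w) (hpos : ∀ x, 0 < w x) {F : ℝ × ℝ → ℝ}
    (hF : Continuous F) : ∫ p in Reg w, F p =
      ∫ x in (0:ℝ)..1, w x * ∫ η in (-1:ℝ)..1, F (x, w x * η) := by
  have hm : MeasurableSet (Reg w) := (isOpen_Reg hw).measurableSet
  have hi := integrableOn_Reg hw hF
  rw [← integral_indicator hm]
  have hint2 : Integrable ((Reg w).indicator F) volume := (integrable_indicator_iff hm).2 hi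
  rw [Measure.volume_eq_prod] at hint2 ⊢
  rw [integral_prod _ hint2, intervalIntegral.integral_of_le zero_le_one,
    integral_Ioc_eq_integral_Ioo, ← integral_indicator measurableSet_Ioo]
  apply integral_congr_ae
  apply Eventually.of_forall
  intro x
  simp only
  by_cases hx : x ∈ Ioo (0:ℝ) 1
  · rw [indicator_of_mem hx]
    have e1 : (fun y : ℝ => (Reg w).indicator F (x, y)) =
        (Ioo (-w x) (w x)).indicator (fun y => F (x, y)) := by
      funext y
      by_cases hy : y ∈ Ioo (-w x) (w x)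
      · rw [indicator_of_mem hy, indicator_of_mem]
        exact ⟨hx.1, hx.2, abs_lt.2 hy⟩
      · rw [indicator_of_notMem hy, indicator_of_notMem]
        exact fun h => hy (abs_lt.1 h.2.2)
    have hp := hpos x
    rw [e1, integral_indicator measurableSet_Ioo, ← integral_Ioc_eq_integral_Ioo,
      ← intervalIntegral.integral_of_le (by linarith)]
    have := intervalIntegral.integral_comp_mul_left (a := (-1:ℝ)) (b := 1)
      (fun y => F (x, y)) hp.ne'
    rw [this, smul_eq_mul, mul_neg_one, mul_one]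
    field_simp
  · rw [indicator_of_notMem hx]
    have e1 : (fun y : ℝ => (Reg w).indicator F (x, y)) = fun _ => (0:ℝ) := by
      funext y
      rw [indicator_of_notMem]
      exact fun h => hx ⟨h.1, h.2.1⟩
    rw [e1, integral_zero]

/-! ### One-dimensional inequalities -/

theorem cs {a b : ℝ} (hab : a ≤ b) {f : ℝ → ℝ} (hf : Continuous f) :
    (∫ x in a..b, f x) ^ 2 ≤ (b - a) * ∫ x in a..b, f x ^ 2 := by
  rcases hab.eq_or_lt with rfl | hlt
  · simp
  have hba : 0 < b - a := by linarith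
  set m := (∫ x in a..b, f x) / (b - a) with hm
  have h1 : 0 ≤ ∫ x in a..b, (f x - m) ^ 2 :=
    intervalIntegral.integral_nonneg hab (fun x _ => sq_nonneg _)
  have h2 : ∫ x in a..b, (f x - m) ^ 2 = (∫ x in a..b, f x ^ 2) - 2 * m * (∫ x in a..b, f x) +
      m ^ 2 * (b - a) := by
    have e : ∀ x, (f x - m) ^ 2 = f x ^ 2 - 2 * m * f x + m ^ 2 := fun x => by ring
    simp only [e]
    rw [intervalIntegral.integral_add (Continuous.intervalIntegrable (by fun_prop) _ _)
      (Continuous.intervalIntegrable (by fun_prop) _ _),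
      intervalIntegral.integral_sub (Continuous.intervalIntegrable (by fun_prop) _ _)
      (Continuous.intervalIntegrable (by fun_prop) _ _), intervalIntegral.integral_const_mul,
      intervalIntegral.integral_const]
    simp only [smul_eq_mul]
    ring
  rw [h2] at h1
  have h3 : ∫ x in a..b, f x = m * (b - a) := by rw [hm]; field_simp
  rw [h3] at h1 ⊢
  nlinarith

/-- Weighted Hardy inequality. -/
theorem hardy {κ : ℝ} (hκ : 0 < κ) {h h' : ℝ → ℝ} (hd : ∀ x, HasDerivAt h (h' x) x)
    (hc : Continuous h') (h0 : h 0 = 0) :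
    ∫ x in (0:ℝ)..1, h x ^ 2 * Real.exp (-κ * x) ≤
      4 / κ ^ 2 * ∫ x in (0:ℝ)..1, h' x ^ 2 * Real.exp (-κ * x) := by
  have hch : Continuous h := continuous_iff_continuousAt.2 fun x => (hd x).continuousAt
  have hexp : ∀ x : ℝ, HasDerivAt (fun x => Real.exp (-κ * x)) (-κ * Real.exp (-κ * x)) x := by
    intro x
    have := ((hasDerivAt_id x).const_mul (-κ)).exp
    refine this.congr_deriv ?_
    simp
    ring
  have hder : ∀ x, HasDerivAt (fun x => h x ^ 2 * Real.exp (-κ * x))
      (2 * h x * h' x * Real.exp (-κ * x) - κ * (h x ^ 2 * Real.exp (-κ * x))) x := by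
    intro x
    have := ((hd x).pow 2).mul (hexp x)
    refine this.congr_deriv ?_
    simp
    ring
  have hint : ∫ x in (0:ℝ)..1, (2 * h x * h' x * Real.exp (-κ * x) -
      κ * (h x ^ 2 * Real.exp (-κ * x))) = h 1 ^ 2 * Real.exp (-κ * 1) := by
    rw [intervalIntegral.integral_eq_sub_of_hasDerivAt (fun x _ => hder x)
      (Continuous.intervalIntegrable (by fun_prop) _ _), h0]
    simp
  have hge : 0 ≤ ∫ x in (0:ℝ)..1, (2 * h x * h' x * Real.exp (-κ * x) -
      κ * (h x ^ 2 * Real.exp (-κ * x))) := by rw [hint]; positivity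
  have hle : ∫ x in (0:ℝ)..1, (2 * h x * h' x * Real.exp (-κ * x) -
      κ * (h x ^ 2 * Real.exp (-κ * x))) ≤ ∫ x in (0:ℝ)..1,
      (2 / κ * (h' x ^ 2 * Real.exp (-κ * x)) - κ / 2 * (h x ^ 2 * Real.exp (-κ * x))) := by
    apply intervalIntegral.integral_mono_on zero_le_one
      (Continuous.intervalIntegrable (by fun_prop) _ _)
      (Continuous.intervalIntegrable (by fun_prop) _ _)
    intro x _
    have he := Real.exp_pos (-κ * x)
    have h1 : 2 * h x * h' x ≤ 2 / κ * h' x ^ 2 + κ / 2 * h x ^ 2 := by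
      have h2 : 0 ≤ (2 * h' x - κ * h x) ^ 2 / (2 * κ) := by positivity
      have h3 : (2 * h' x - κ * h x) ^ 2 / (2 * κ) = 2 / κ * h' x ^ 2 + κ / 2 * h x ^ 2 -
          2 * h x * h' x := by field_simp; ring
      linarith
    have := mul_le_mul_of_nonneg_right h1 he.le
    linarith
  have h4 := hge.trans hle
  rw [intervalIntegral.integral_sub (Continuous.intervalIntegrable (by fun_prop) _ _)
    (Continuous.intervalIntegrable (by fun_prop) _ _), intervalIntegral.integral_const_mul,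
    intervalIntegral.integral_const_mul] at h4
  have h5 : κ / 2 * ∫ x in (0:ℝ)..1, h x ^ 2 * Real.exp (-κ * x) ≤
      2 / κ * ∫ x in (0:ℝ)..1, h' x ^ 2 * Real.exp (-κ * x) := by linarith
  have h6 := mul_le_mul_of_nonneg_left h5 (by positivity : 0 ≤ 2 / κ)
  have e1 : 2 / κ * (κ / 2 * ∫ x in (0:ℝ)..1, h x ^ 2 * Real.exp (-κ * x)) =
      ∫ x in (0:ℝ)..1, h x ^ 2 * Real.exp (-κ * x) := by field_simp
  have e2 : 2 / κ * (2 / κ * ∫ x in (0:ℝ)..1, h' x ^ 2 * Real.exp (-κ * x)) =
      4 / κ ^ 2 * ∫ x in (0:ℝ)..1, h' x ^ 2 * Real.exp (-κ * x) := by field_simp; ring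
  rw [e1, e2] at h6
  exact h6

/-- The difference of two values on `[-1,1]`. -/
theorem diff_le {g g' : ℝ → ℝ} (hd : ∀ x, HasDerivAt g (g' x) x) (hc : Continuous g') {a b : ℝ}
    (ha : a ∈ Icc (-1:ℝ) 1) (hb : b ∈ Icc (-1:ℝ) 1) :
    (g a - g b) ^ 2 ≤ 2 * ∫ x in (-1:ℝ)..1, g' x ^ 2 := by
  have key : ∀ a b : ℝ, a ∈ Icc (-1:ℝ) 1 → b ∈ Icc (-1:ℝ) 1 → a ≤ b →
      (g a - g b) ^ 2 ≤ 2 * ∫ x in (-1:ℝ)..1, g' x ^ 2 := by
    intro a b ha hb hab
    have h1 : ∫ x in a..b, g' x = g b - g a :=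
      intervalIntegral.integral_eq_sub_of_hasDerivAt (fun x _ => hd x)
        (hc.intervalIntegrable _ _)
    have h2 := cs hab hc
    rw [h1] at h2
    have h3 : ∫ x in a..b, g' x ^ 2 ≤ ∫ x in (-1:ℝ)..1, g' x ^ 2 := by
      apply intervalIntegral.integral_mono_interval ha.1 hab hb.2
      · exact Eventually.of_forall fun x => sq_nonneg _
      · exact Continuous.intervalIntegrable (by fun_prop) _ _
    have h4 : 0 ≤ ∫ x in a..b, g' x ^ 2 :=
      intervalIntegral.integral_nonneg hab (fun x _ => sq_nonneg _)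
    have h5 : b - a ≤ 2 := by linarith [ha.1, hb.2]
    calc (g a - g b) ^ 2 = (g b - g a) ^ 2 := by ring
      _ ≤ (b - a) * ∫ x in a..b, g' x ^ 2 := h2
      _ ≤ 2 * ∫ x in a..b, g' x ^ 2 := mul_le_mul_of_nonneg_right h5 h4
      _ ≤ 2 * ∫ x in (-1:ℝ)..1, g' x ^ 2 := mul_le_mul_of_nonneg_left h3 (by norm_num)
  rcases le_total a b with h | h
  · exact key a b ha hb h
  · have := key b a hb ha h
    have e : (g a - g b) ^ 2 = (g b - g a) ^ 2 := by ring
    rw [e]; exact this

theorem swap {f : ℝ → ℝ → ℝ} (hf : Continuous (Function.uncurry f)) {a b c d : ℝ} (hab : a ≤ b)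
    (hcd : c ≤ d) : ∫ x in a..b, ∫ y in c..d, f x y = ∫ y in c..d, ∫ x in a..b, f x y := by
  simp only [intervalIntegral.integral_of_le hab, intervalIntegral.integral_of_le hcd]
  apply integral_integral_swap
  rw [Measure.prod_restrict]
  have h1 : IntegrableOn (Function.uncurry f) (Icc a b ×ˢ Icc c d) (volume.prod volume) :=
    hf.continuousOn.integrableOn_compact (isCompact_Icc.prod isCompact_Icc)
  exact h1.mono_set (prod_mono Ioc_subset_Icc_self Ioc_subset_Icc_self)

theorem cont_par {f : ℝ → ℝ → ℝ} (hf : Continuous (Function.uncurry f)) (c d : ℝ) :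
    Continuous (fun x => ∫ y in c..d, f x y) :=
  intervalIntegral.continuous_parametric_intervalIntegral_of_continuous' hf c d

/-! ### The Poincaré inequality on the horn -/

/-- The width of the horn. -/
noncomputable def W (κ x : ℝ) : ℝ := 1 / (2 * κ) * Real.exp (-κ * x)

noncomputable def w (κ x : ℝ) : ℝ := 1 / (2 * κ) * Real.exp (-κ * max 0 x)

theorem w_eq {κ x : ℝ} (hx : 0 ≤ x) : w κ x = W κ x := by
  unfold w W; rw [max_eq_right hx]

theorem w_pos {κ : ℝ} (hκ : 0 < κ) (x : ℝ) : 0 < w κ x := by unfold w; positivity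

theorem w_lip {κ : ℝ} (hκ : 0 < κ) : LipschitzWith (1 / 2) (w κ) := by
  have key : ∀ s t : ℝ, 0 ≤ s → s ≤ t → Real.exp (-κ * s) - Real.exp (-κ * t) ≤ κ * (t - s) := by
    intro s t hs hst
    have h1 : Real.exp (-κ * t) = Real.exp (-κ * s) * Real.exp (-κ * (t - s)) := by
      rw [← Real.exp_add]; ring_nf
    have h2 : 1 - κ * (t - s) ≤ Real.exp (-κ * (t - s)) := by
      have := Real.add_one_le_exp (-κ * (t - s))
      linarith
    have h3 : Real.exp (-κ * s) ≤ 1 := Real.exp_le_one_iff.2 (by nlinarith)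
    have h4 := Real.exp_pos (-κ * s)
    have h5 : 0 ≤ κ * (t - s) := by nlinarith
    rw [h1]
    nlinarith
  apply LipschitzWith.of_dist_le_mul
  intro x y
  rw [Real.dist_eq, Real.dist_eq]
  have hc : (((1 / 2 : ℝ≥0)) : ℝ) = 1 / 2 := by simp
  rw [hc]
  have hmax : |max 0 x - max 0 y| ≤ |x - y| := by
    have := abs_max_sub_max_le_max 0 x 0 y
    simpa using this
  have h1 : |Real.exp (-κ * max 0 x) - Real.exp (-κ * max 0 y)| ≤ κ * |max 0 x - max 0 y| := by
    rcases le_total (max 0 x) (max 0 y) with h | h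
    · rw [abs_of_nonneg (by
        have : Real.exp (-κ * max 0 y) ≤ Real.exp (-κ * max 0 x) :=
          Real.exp_le_exp.2 (by nlinarith)
        linarith), abs_sub_comm, abs_of_nonneg (by linarith)]
      exact key _ _ (le_max_left _ _) h
    · rw [abs_sub_comm, abs_of_nonneg (by
        have : Real.exp (-κ * max 0 x) ≤ Real.exp (-κ * max 0 y) :=
          Real.exp_le_exp.2 (by nlinarith)
        linarith), abs_of_nonneg (by linarith)]
      exact key _ _ (le_max_left _ _) h
  unfold w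
  rw [← mul_sub, abs_mul, abs_of_pos (by positivity)]
  calc 1 / (2 * κ) * |Real.exp (-κ * max 0 x) - Real.exp (-κ * max 0 y)|
      ≤ 1 / (2 * κ) * (κ * |max 0 x - max 0 y|) := mul_le_mul_of_nonneg_left h1 (by positivity)
    _ = 1 / 2 * |max 0 x - max 0 y| := by field_simp
    _ ≤ 1 / 2 * |x - y| := mul_le_mul_of_nonneg_left hmax (by norm_num)

theorem integral_horn {κ : ℝ} (hκ : 0 < κ) {F : ℝ × ℝ → ℝ} (hF : Continuous F) :
    ∫ p in Reg (w κ), F p = ∫ x in (0:ℝ)..1, W κ x * ∫ η in (-1:ℝ)..1, F (x, W κ x * η) := by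
  rw [integral_Reg (w_lip hκ).continuous (w_pos hκ) hF]
  apply intervalIntegral.integral_congr
  intro x hx
  rw [uIcc_of_le zero_le_one] at hx
  simp only
  rw [w_eq hx.1]

theorem gradSq_cont {u : ℝ × ℝ → ℝ} (hu : ContDiff ℝ 1 u) : Continuous (gradSq u) := by
  have h1 : Continuous (fun p => fderiv ℝ u p (1, 0)) :=
    (hu.continuous_fderiv one_ne_zero).clm_apply continuous_const
  have h2 : Continuous (fun p => fderiv ℝ u p (0, 1)) :=
    (hu.continuous_fderiv one_ne_zero).clm_apply continuous_const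
  exact (h1.pow 2).add (h2.pow 2)

theorem poincare {κ : ℝ} (hκ : 0 < κ) {u : ℝ × ℝ → ℝ} (hu : ContDiff ℝ 1 u) :
    ∃ c : ℝ, ∫ p in Reg (w κ), (u p - c) ^ 2 ≤ 18 / κ ^ 2 * ∫ p in Reg (w κ), gradSq u p := by
  have hWc : Continuous (W κ) := by unfold W; fun_prop
  have hWpos : ∀ x, 0 < W κ x := fun x => by unfold W; positivity
  have hWle : ∀ x ∈ Icc (0:ℝ) 1, W κ x ≤ 1 / (2 * κ) := by
    intro x hx
    unfold W
    have : Real.exp (-κ * x) ≤ 1 := Real.exp_le_one_iff.2 (by nlinarith [hx.1])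
    have h0 : 0 < 1 / (2 * κ) := by positivity
    nlinarith
  have hWd : ∀ x, HasDerivAt (W κ) (-κ * W κ x) x := by
    intro x
    have h1 : HasDerivAt (fun x => Real.exp (-κ * x)) (-κ * Real.exp (-κ * x)) x := by
      have := ((hasDerivAt_id x).const_mul (-κ)).exp
      refine this.congr_deriv ?_
      simp
      ring
    refine (h1.const_mul (1 / (2 * κ))).congr_deriv ?_
    unfold W; ring
  have huc := hu.continuous
  have hdu := hu.continuous_fderiv one_ne_zero
  set v : ℝ → ℝ → ℝ := fun x η => u (x, W κ x * η) with hv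
  have hvc : Continuous (Function.uncurry v) := by
    simp only [hv]
    apply huc.comp
    exact continuous_fst.prodMk ((hWc.comp continuous_fst).mul continuous_snd)
  set ux : ℝ → ℝ → ℝ := fun x η => fderiv ℝ u (x, W κ x * η) (1, 0) with hux
  set uy : ℝ → ℝ → ℝ := fun x η => fderiv ℝ u (x, W κ x * η) (0, 1) with huy
  have hpc : Continuous (fun p : ℝ × ℝ => ((p.1, W κ p.1 * p.2) : ℝ × ℝ)) :=
    continuous_fst.prodMk ((hWc.comp continuous_fst).mul continuous_snd)
  have huxc : Continuous (Function.uncurry ux) :=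
    (hdu.comp hpc).clm_apply continuous_const
  have huyc : Continuous (Function.uncurry uy) :=
    (hdu.comp hpc).clm_apply continuous_const
  have hlin : ∀ (x η a b : ℝ), fderiv ℝ u (x, W κ x * η) (a, b) = a * ux x η + b * uy x η := by
    intro x η a b
    have : ((a, b) : ℝ × ℝ) = a • (1, 0) + b • (0, 1) := by ext <;> simp
    rw [this, map_add, map_smul, map_smul]
    rfl
  -- derivatives of v
  have hvx : ∀ η x, HasDerivAt (fun x => v x η) (ux x η - κ * W κ x * η * uy x η) x := by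
    intro η x
    have h1 : HasDerivAt (fun x => ((x, W κ x * η) : ℝ × ℝ)) (1, -κ * W κ x * η) x :=
      (hasDerivAt_id x).prodMk ((hWd x).mul_const η)
    have h2 := ((hu.differentiable one_ne_zero) (x, W κ x * η)).hasFDerivAt
    have := h2.comp_hasDerivAt x h1
    refine this.congr_deriv ?_
    rw [hlin]; ring
  have hvη : ∀ x η, HasDerivAt (fun η => v x η) (W κ x * uy x η) η := by
    intro x η
    have h1 : HasDerivAt (fun η => ((x, W κ x * η) : ℝ × ℝ)) (0, W κ x) η := by
      have := (hasDerivAt_const η x).prodMk ((hasDerivAt_id η).const_mul (W κ x))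
      simpa using this
    have h2 := ((hu.differentiable one_ne_zero) (x, W κ x * η)).hasFDerivAt
    have := h2.comp_hasDerivAt η h1
    refine this.congr_deriv ?_
    rw [hlin]; ring
  set G : ℝ → ℝ → ℝ := fun x η => ux x η ^ 2 + uy x η ^ 2 with hG
  have hGc : Continuous (Function.uncurry G) := (huxc.pow 2).add (huyc.pow 2)
  -- slices
  have slice : ∀ {f : ℝ → ℝ → ℝ}, Continuous (Function.uncurry f) → ∀ x, Continuous (f x) :=
    fun hf x => hf.comp (continuous_const.prodMk continuous_id)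
  have slice' : ∀ {f : ℝ → ℝ → ℝ}, Continuous (Function.uncurry f) → ∀ η,
      Continuous (fun x => f x η) :=
    fun hf η => hf.comp (continuous_id.prodMk continuous_const)
  set g : ℝ → ℝ := fun x => ∫ η in (-1:ℝ)..1, G x η with hg
  have hgc : Continuous g := cont_par hGc _ _
  set Df : ℝ → ℝ → ℝ := fun x η => (v x η - v 0 η) ^ 2 with hDf
  have hDfc : Continuous (Function.uncurry Df) := by
    have h0 : Continuous (Function.uncurry (fun (_ : ℝ) (η : ℝ) => v 0 η)) :=
      hvc.comp (continuous_const.prodMk continuous_snd)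
    exact (hvc.sub h0).pow 2
  set D : ℝ → ℝ := fun x => ∫ η in (-1:ℝ)..1, Df x η with hD
  have hDc : Continuous D := cont_par hDfc _ _
  set c := (1 / 2) * ∫ η in (-1:ℝ)..1, v 0 η with hc
  refine ⟨c, ?_⟩
  -- pointwise estimate
  have hpt : ∀ x ∈ Icc (0:ℝ) 1, ∀ η ∈ Icc (-1:ℝ) 1, (v x η - c) ^ 2 ≤ 1 / κ ^ 2 * g x + D x := by
    intro x hx η hη
    have hv0 := slice hvc 0
    have hvx' := slice hvc x
    have h1 : v x η - c = (1 / 2) * ∫ η' in (-1:ℝ)..1, (v x η - v 0 η') := by
      rw [intervalIntegral.integral_sub (by simp) (hv0.intervalIntegrable _ _),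
        intervalIntegral.integral_const, hc, smul_eq_mul]
      ring
    have h2 := cs (by norm_num : (-1:ℝ) ≤ 1) (f := fun η' => v x η - v 0 η') (by fun_prop)
    have h3 : ∫ η' in (-1:ℝ)..1, (v x η - v 0 η') ^ 2 ≤
        ∫ η' in (-1:ℝ)..1, (2 * (2 * ∫ s in (-1:ℝ)..1, (W κ x * uy x s) ^ 2) + 2 * Df x η') := by
      apply intervalIntegral.integral_mono_on (by norm_num)
        (Continuous.intervalIntegrable (by fun_prop) _ _)
        (Continuous.intervalIntegrable (by have := slice hDfc x; fun_prop) _ _)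
      intro η' hη'
      have h4 := diff_le (hvη x) (continuous_const.mul (slice huyc x)) hη hη'
      have h5 : (v x η - v 0 η') ^ 2 ≤ 2 * (v x η - v x η') ^ 2 + 2 * (v x η' - v 0 η') ^ 2 := by
        nlinarith [sq_nonneg ((v x η - v x η') - (v x η' - v 0 η'))]
      have h6 : Df x η' = (v x η' - v 0 η') ^ 2 := rfl
      rw [h6]
      linarith
    have hDsl := slice hDfc x
    rw [intervalIntegral.integral_add (by simp) (Continuous.intervalIntegrable (by fun_prop) _ _),
      intervalIntegral.integral_const, intervalIntegral.integral_const_mul, smul_eq_mul] at h3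
    have h7 : ∫ s in (-1:ℝ)..1, (W κ x * uy x s) ^ 2 ≤ 1 / (4 * κ ^ 2) * g x := by
      have e1 : ∀ s, (W κ x * uy x s) ^ 2 = W κ x ^ 2 * uy x s ^ 2 := fun s => by ring
      simp only [e1]
      rw [hg, ← intervalIntegral.integral_const_mul]
      have hs1 := slice huyc x
      have hs2 := slice hGc x
      apply intervalIntegral.integral_mono_on (by norm_num)
        (Continuous.intervalIntegrable (by fun_prop) _ _)
        (Continuous.intervalIntegrable (by fun_prop) _ _)
      intro s _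
      have h8 : W κ x ^ 2 ≤ 1 / (4 * κ ^ 2) := by
        have := pow_le_pow_left₀ (hWpos x).le (hWle x hx) 2
        refine this.trans (le_of_eq ?_)
        field_simp; norm_num
      have h9 : uy x s ^ 2 ≤ G x s := by
        have := sq_nonneg (ux x s)
        simp only [hG]; linarith
      exact mul_le_mul h8 h9 (sq_nonneg _) (by positivity)
    have hDx : ∫ η' in (-1:ℝ)..1, Df x η' = D x := rfl
    rw [hDx] at h3
    rw [h1]
    have h10 : 1 / (4 * κ ^ 2) * g x = (1 / κ ^ 2 * g x) / 4 := by field_simp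
    rw [h10] at h7
    nlinarith
  -- integrate
  have hF : Continuous (fun p => (u p - c) ^ 2) := by fun_prop
  rw [integral_horn hκ hF, integral_horn hκ (gradSq_cont hu)]
  have hI : ∫ x in (0:ℝ)..1, W κ x * ∫ η in (-1:ℝ)..1, gradSq u (x, W κ x * η) =
      ∫ x in (0:ℝ)..1, W κ x * g x := rfl
  rw [hI]
  have step1 : ∫ x in (0:ℝ)..1, W κ x * ∫ η in (-1:ℝ)..1, (u (x, W κ x * η) - c) ^ 2 ≤
      ∫ x in (0:ℝ)..1, W κ x * (2 * (1 / κ ^ 2 * g x + D x)) := by
    have hvcc : Continuous (Function.uncurry (fun x η => (v x η - c) ^ 2)) := by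
      have : Continuous (fun p : ℝ × ℝ => (Function.uncurry v p - c) ^ 2) := by fun_prop
      exact this
    have hpar : Continuous (fun x => ∫ η in (-1:ℝ)..1, (v x η - c) ^ 2) := cont_par hvcc _ _
    apply intervalIntegral.integral_mono_on zero_le_one
      (Continuous.intervalIntegrable (hWc.mul hpar) _ _)
      (Continuous.intervalIntegrable (by fun_prop) _ _)
    intro x hx
    apply mul_le_mul_of_nonneg_left _ (hWpos x).le
    have h1 : ∫ η in (-1:ℝ)..1, (v x η - c) ^ 2 ≤ ∫ _η in (-1:ℝ)..1, (1 / κ ^ 2 * g x + D x) := by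
      apply intervalIntegral.integral_mono_on (by norm_num)
        (Continuous.intervalIntegrable (slice hvcc x) _ _) (by simp)
      intro η hη
      exact hpt x hx η hη
    rw [intervalIntegral.integral_const, smul_eq_mul] at h1
    change ∫ η in (-1:ℝ)..1, (v x η - c) ^ 2 ≤ 2 * (1 / κ ^ 2 * g x + D x)
    linarith
  refine step1.trans ?_
  -- the Hardy part
  have hardyp : ∫ x in (0:ℝ)..1, W κ x * D x ≤ 8 / κ ^ 2 * ∫ x in (0:ℝ)..1, W κ x * g x := by
    have e1 : ∫ x in (0:ℝ)..1, W κ x * D x = ∫ η in (-1:ℝ)..1, ∫ x in (0:ℝ)..1,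
        W κ x * Df x η := by
      rw [← swap (f := fun x η => W κ x * Df x η) ((hWc.comp continuous_fst).mul hDfc)
        zero_le_one (by norm_num)]
      apply intervalIntegral.integral_congr
      intro x _
      simp only
      rw [intervalIntegral.integral_const_mul]
    have e2 : ∫ x in (0:ℝ)..1, W κ x * g x = ∫ η in (-1:ℝ)..1, ∫ x in (0:ℝ)..1,
        W κ x * G x η := by
      rw [← swap (f := fun x η => W κ x * G x η) ((hWc.comp continuous_fst).mul hGc)
        zero_le_one (by norm_num)]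
      apply intervalIntegral.integral_congr
      intro x _
      simp only
      rw [intervalIntegral.integral_const_mul]
    rw [e1, e2, ← intervalIntegral.integral_const_mul]
    have hc1 : Continuous (Function.uncurry (fun η x => W κ x * Df x η)) :=
      (hWc.comp continuous_snd).mul (hDfc.comp continuous_swap)
    have hc2 : Continuous (Function.uncurry (fun η x => W κ x * G x η)) :=
      (hWc.comp continuous_snd).mul (hGc.comp continuous_swap)
    apply intervalIntegral.integral_mono_on (by norm_num)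
      (Continuous.intervalIntegrable (cont_par hc1 _ _) _ _)
      (Continuous.intervalIntegrable (continuous_const.mul (cont_par hc2 _ _)) _ _)
    intro η hη
    have hdc : Continuous (fun x => ux x η - κ * W κ x * η * uy x η) := by
      have h1 := slice' huxc η
      have h2 := slice' huyc η
      fun_prop
    have h1 := hardy hκ (h := fun x => v x η - v 0 η)
      (h' := fun x => ux x η - κ * W κ x * η * uy x η)
      (fun x => (hvx η x).sub_const _) hdc (sub_self _)
    have h2 : ∫ x in (0:ℝ)..1, W κ x * Df x η = 1 / (2 * κ) * ∫ x in (0:ℝ)..1,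
        (v x η - v 0 η) ^ 2 * Real.exp (-κ * x) := by
      rw [← intervalIntegral.integral_const_mul]
      apply intervalIntegral.integral_congr
      intro x _
      simp only [hDf, W]
      ring
    rw [h2]
    change _ ≤ 8 / κ ^ 2 * ∫ x in (0:ℝ)..1, W κ x * G x η
    refine (mul_le_mul_of_nonneg_left h1 (by positivity)).trans ?_
    rw [← intervalIntegral.integral_const_mul, ← intervalIntegral.integral_const_mul,
      ← intervalIntegral.integral_const_mul]
    have s1 := slice' huxc η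
    have s2 := slice' huyc η
    have s3 := slice' hGc η
    apply intervalIntegral.integral_mono_on zero_le_one
      (Continuous.intervalIntegrable (by fun_prop) _ _)
      (Continuous.intervalIntegrable (by fun_prop) _ _)
    intro x hx
    have hW1 := hWle x hx
    have hW0 := hWpos x
    have hk : |κ * W κ x * η| ≤ 1 := by
      rw [abs_mul, abs_mul, abs_of_pos hκ, abs_of_pos hW0]
      have h4 : κ * W κ x ≤ 1 / 2 := by
        have := mul_le_mul_of_nonneg_left hW1 hκ.le
        have e : κ * (1 / (2 * κ)) = 1 / 2 := by field_simp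
        rwa [e] at this
      have h5 : |η| ≤ 1 := abs_le.2 hη
      have h6 : 0 ≤ |η| := abs_nonneg _
      have h7 : 0 ≤ κ * W κ x := by positivity
      nlinarith
    have h3 : (ux x η - κ * W κ x * η * uy x η) ^ 2 ≤ 2 * G x η := by
      have hk2 : (κ * W κ x * η) ^ 2 ≤ 1 := by
        rw [← sq_abs]; nlinarith [abs_nonneg (κ * W κ x * η)]
      simp only [hG]
      set k := κ * W κ x * η
      have h8 : k ^ 2 * uy x η ^ 2 ≤ 1 * uy x η ^ 2 :=
        mul_le_mul_of_nonneg_right hk2 (sq_nonneg _)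
      nlinarith [sq_nonneg (ux x η + k * uy x η)]
    have e : 8 / κ ^ 2 * (W κ x * G x η) = 1 / (2 * κ) * (4 / κ ^ 2 * (2 * G x η *
        Real.exp (-κ * x))) := by
      unfold W; field_simp; ring
    rw [e]
    have hexp := Real.exp_pos (-κ * x)
    apply mul_le_mul_of_nonneg_left _ (by positivity)
    apply mul_le_mul_of_nonneg_left _ (by positivity)
    exact mul_le_mul_of_nonneg_right h3 hexp.le
  have e3 : ∫ x in (0:ℝ)..1, W κ x * (2 * (1 / κ ^ 2 * g x + D x)) =
      2 / κ ^ 2 * (∫ x in (0:ℝ)..1, W κ x * g x) + 2 * ∫ x in (0:ℝ)..1, W κ x * D x := by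
    rw [← intervalIntegral.integral_const_mul, ← intervalIntegral.integral_const_mul,
      ← intervalIntegral.integral_add (Continuous.intervalIntegrable (by fun_prop) _ _)
      (Continuous.intervalIntegrable (by fun_prop) _ _)]
    apply intervalIntegral.integral_congr
    intro x _
    simp only
    ring
  rw [e3]
  have e4 : 18 / κ ^ 2 * ∫ x in (0:ℝ)..1, W κ x * g x = 2 / κ ^ 2 * (∫ x in (0:ℝ)..1,
      W κ x * g x) + 2 * (8 / κ ^ 2 * ∫ x in (0:ℝ)..1, W κ x * g x) := by ring
  rw [e4]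
  linarith

end Pool.Agent.Q170.Horn
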