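import Mathlib

set_option autoImplicit false

open MeasureTheory Set Filter Topology Metric
open scoped ENNReal NNReal

namespace Pool.Agent.Q170.PerimDef

variable {X : Type*} [MetricSpace X] [MeasurableSpace X]

/-- The Lipschitz constant of `f` on the set `S` (possibly `∞`). -/
noncomputable def lipOn (f : X → ℝ) (S : Set X) : ℝ≥0∞ :=
  ⨆ (y ∈ S) (z ∈ S), edist (f y) (f z) / edist y z

/-- The asymptotic slope `lip_a(f)(x) = inf_{r>0} Lip(f|_{B_r(x)})` of a function on the open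
set `A`. -/
noncomputable def slope (A : Set X) (f : X → ℝ) (x : X) : ℝ≥0∞ :=
  ⨅ (r : ℝ) (_ : 0 < r), lipOn f (ball x r ∩ A)

/-- `f_n → f` in `L^1_loc(m|_A)`: every point of `A` has a neighbourhood `U` such that
`∫_{U ∩ A} |f_n - f| dm → 0`. -/
def TendstoLoc (m : Measure X) (A : Set X) (F : ℕ → X → ℝ) (f : X → ℝ) : Prop :=
  ∀ x ∈ A, ∃ U ∈ 𝓝 x, Tendsto (fun n => ∫⁻ y in U ∩ A, ‖F n y - f y‖ₑ ∂m) atTop (𝓝 0)

/-- The total variation `|Df|(A)` of `f` on an open set `A`. -/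
noncomputable def tvOpen (m : Measure X) (f : X → ℝ) (A : Set X) : ℝ≥0∞ :=
  ⨅ (F : ℕ → X → ℝ) (_ : ∀ n, LocallyLipschitzOn A (F n)) (_ : TendstoLoc m A F f),
    liminf (fun n => ∫⁻ x in A, slope A (F n) x ∂m) atTop

/-- The total variation `|Df|(B)` of `f` on a Borel set `B`. -/
noncomputable def tv (m : Measure X) (f : X → ℝ) (B : Set X) : ℝ≥0∞ :=
  ⨅ (A : Set X) (_ : IsOpen A) (_ : B ⊆ A), tvOpen m f A

/-- The perimeter `Per(E) = |D χ_E|(X)`. -/
noncomputable def per (m : Measure X) (E : Set X) : ℝ≥0∞ :=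
  tv m (E.indicator (fun _ => (1 : ℝ))) univ

/-- `M_λ(A) = Per(A) + λ m(Ω \ A)`. -/
noncomputable def M (m : Measure X) (Ω : Set X) (lam : ℝ) (A : Set X) : ℝ≥0∞ :=
  per m A + ENNReal.ofReal lam * m (Ω \ A)

/-- `M~_λ(A) = Per(A) + λ m(Ω Δ A)`. -/
noncomputable def Mt (m : Measure X) (Ω : Set X) (lam : ℝ) (A : Set X) : ℝ≥0∞ :=
  per m A + ENNReal.ofReal lam * m (symmDiff Ω A)

/-- `E` is a minimizer of `M_λ` among the Borel subsets of `Ω`. -/
def IsMinimizerM (m : Measure X) (Ω : Set X) (lam : ℝ) (E : Set X) : Prop :=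
  MeasurableSet E ∧ E ⊆ Ω ∧ ∀ A : Set X, MeasurableSet A → A ⊆ Ω → M m Ω lam E ≤ M m Ω lam A

/-- `E` is a minimizer of `M~_λ` among the Borel subsets of `X`. -/
def IsMinimizerMt (m : Measure X) (Ω : Set X) (lam : ℝ) (E : Set X) : Prop :=
  MeasurableSet E ∧ ∀ A : Set X, MeasurableSet A → Mt m Ω lam E ≤ Mt m Ω lam A

/-- `E` has a closed representative. -/
def HasClosedRep (m : Measure X) (E : Set X) : Prop :=
  ∃ C : Set X, IsClosed C ∧ m (symmDiff E C) = 0

/-! ### The example -/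

/-- the atoms `1/(k+2)` -/
noncomputable def pt (k : ℕ) : ℝ := 1 / ((k : ℝ) + 2)

/-- the measure `δ_0 + ∑ 2^{-k} δ_{1/(k+2)}` on the line -/
noncomputable def atomic : Measure ℝ :=
  Measure.dirac 0 + Measure.sum (fun k : ℕ => ((2 : ℝ≥0∞)⁻¹ ^ k) • Measure.dirac (pt k))

lemma pt_pos (k : ℕ) : 0 < pt k := by unfold pt; positivity

lemma pt_lt_one (k : ℕ) : pt k < 1 := by
  unfold pt
  rw [div_lt_one (by positivity)]
  have : (0:ℝ) ≤ k := Nat.cast_nonneg k
  linarith

lemma lint_atomic (g : ℝ → ℝ≥0∞) :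
    ∫⁻ x, g x ∂atomic = g 0 + ∑' k : ℕ, (2 : ℝ≥0∞)⁻¹ ^ k * g (pt k) := by
  unfold atomic
  rw [lintegral_add_measure, lintegral_dirac, lintegral_sum_measure]
  congr 1
  refine tsum_congr fun k => ?_
  rw [lintegral_smul_measure, lintegral_dirac, smul_eq_mul]

lemma gap {n k : ℕ} (hk : k ≤ n) {j : ℕ} (hj : j ≠ k) :
    1 / ((n : ℝ) + 3) ^ 2 ≤ |pt j - pt k| := by
  have hn : (0:ℝ) ≤ n := Nat.cast_nonneg n
  have hk0 : (0:ℝ) ≤ k := Nat.cast_nonneg k
  have hj0 : (0:ℝ) ≤ j := Nat.cast_nonneg j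
  have hkn : (k:ℝ) ≤ n := by exact_mod_cast hk
  have e : pt j - pt k = ((k:ℝ) - j) / (((j:ℝ) + 2) * ((k:ℝ) + 2)) := by
    unfold pt
    field_simp
    ring
  rcases lt_or_gt_of_ne hj with h | h
  · -- j < k
    have h1 : (j:ℝ) + 1 ≤ k := by exact_mod_cast h
    rw [e, abs_of_nonneg (by apply div_nonneg <;> nlinarith)]
    rw [div_le_div_iff₀ (by positivity) (by positivity)]
    nlinarith
  · have h1 : (k:ℝ) + 1 ≤ j := by exact_mod_cast h
    rw [e, abs_of_nonpos (by
      apply div_nonpos_of_nonpos_of_nonneg <;> nlinarith)]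
    rw [← neg_div, div_le_div_iff₀ (by positivity) (by positivity)]
    have h3 : (k:ℝ) + 3 ≤ n + 3 := by linarith
    have h4 : 1 * (((j:ℝ) + 2) * ((k:ℝ) + 2)) ≤ (j - k) * ((k:ℝ) + 3) ^ 2 := by
      have h6 : 0 ≤ (j:ℝ) - k - 1 := by linarith
      have h7 : 0 ≤ ((k:ℝ) + 3) ^ 2 - (k + 2) := by nlinarith
      nlinarith [mul_nonneg h6 h7]
    have h5 : ((k:ℝ) + 3) ^ 2 ≤ ((n:ℝ) + 3) ^ 2 := by gcongr
    nlinarith

/-- plateau function: `1` for `|x-c| ≤ δ`, `0` for `|x-c| ≥ 2δ` -/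
noncomputable def plateau (c δ x : ℝ) : ℝ := max 0 (min 1 (2 - |x - c| / δ))

lemma plateau_one {c δ x : ℝ} (hδ : 0 < δ) (h : |x - c| ≤ δ) : plateau c δ x = 1 := by
  unfold plateau
  have : |x - c| / δ ≤ 1 := by rw [div_le_one hδ]; exact h
  rw [min_eq_left (by linarith), max_eq_right zero_le_one]

lemma plateau_zero {c δ x : ℝ} (hδ : 0 < δ) (h : 2 * δ ≤ |x - c|) : plateau c δ x = 0 := by
  unfold plateau
  have : 2 ≤ |x - c| / δ := by rw [le_div_iff₀ hδ]; exact h
  apply max_eq_left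
  exact (min_le_right _ _).trans (by linarith)

lemma plateau_lip (c δ : ℝ) : ∃ K, LipschitzWith K (plateau c δ) := by
  have h1 : LipschitzWith (Real.toNNReal |δ⁻¹|) (fun x : ℝ => 2 - |x - c| / δ) := by
    apply LipschitzWith.of_dist_le_mul
    intro x y
    rw [Real.dist_eq, Real.dist_eq, Real.coe_toNNReal _ (abs_nonneg _)]
    have e : (2 - |x - c| / δ) - (2 - |y - c| / δ) = δ⁻¹ * (|y - c| - |x - c|) := by ring
    rw [e, abs_mul]
    refine mul_le_mul_of_nonneg_left ?_ (abs_nonneg _)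
    calc |(|y - c| - |x - c|)| ≤ |(y - c) - (x - c)| := abs_abs_sub_abs_le_abs_sub _ _
      _ = |x - y| := by rw [← abs_neg]; congr 1; ring
  exact ⟨_, ((h1.const_min 1)).const_max 0⟩

/-- approximants -/
noncomputable def appr (χ : ℝ → ℝ) (n : ℕ) (x : ℝ) : ℝ :=
  χ 0 + ∑ k ∈ Finset.range (n + 1), (χ (pt k) - χ 0) * plateau (pt k) (1 / (3 * ((n : ℝ) + 3) ^ 2)) x

lemma appr_lip (χ : ℝ → ℝ) (n : ℕ) : LocallyLipschitz (appr χ n) := by
  unfold appr
  have h1 : ∀ k, LocallyLipschitz (fun x => (χ (pt k) - χ 0) *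
      plateau (pt k) (1 / (3 * ((n : ℝ) + 3) ^ 2)) x) := by
    intro k
    obtain ⟨K, hK⟩ := plateau_lip (pt k) (1 / (3 * ((n : ℝ) + 3) ^ 2))
    have : LipschitzWith (Real.toNNReal |χ (pt k) - χ 0| * K) (fun x => (χ (pt k) - χ 0) *
      plateau (pt k) (1 / (3 * ((n : ℝ) + 3) ^ 2)) x) := by
      apply LipschitzWith.of_dist_le_mul
      intro x y
      rw [Real.dist_eq, ← mul_sub, abs_mul, NNReal.coe_mul, Real.coe_toNNReal _ (abs_nonneg _),
        mul_assoc]
      gcongr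
      exact hK.dist_le_mul x y
    exact this.locallyLipschitz
  apply LocallyLipschitz.add (LocallyLipschitz.const _)
  induction (Finset.range (n + 1)) using Finset.induction_on with
  | empty => simpa using LocallyLipschitz.const _
  | insert a s ha ih =>
    simp_rw [Finset.sum_insert ha]
    exact (h1 a).add ih

/-- near each atom the approximant is constant -/
lemma appr_near_pt (χ : ℝ → ℝ) {n j : ℕ} {x : ℝ}
    (hx : |x - pt j| < 1 / (3 * ((n : ℝ) + 3) ^ 2)) :
    appr χ n x = if j ≤ n then χ (pt j) else χ 0 := by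
  have hδ : (0:ℝ) < 1 / (3 * ((n : ℝ) + 3) ^ 2) := by positivity
  have hne : ∀ k, k ≤ n → k ≠ j → plateau (pt k) (1 / (3 * ((n : ℝ) + 3) ^ 2)) x = 0 := by
    intro k hk hkj
    apply plateau_zero hδ
    have g := gap hk (Ne.symm hkj)
    have e : 1 / ((n : ℝ) + 3) ^ 2 = 3 * (1 / (3 * ((n : ℝ) + 3) ^ 2)) := by
      field_simp
    rw [e] at g
    have t : |pt j - pt k| ≤ |x - pt k| + |x - pt j| := by
      have : pt j - pt k = (x - pt k) - (x - pt j) := by ring
      rw [this]; exact abs_sub _ _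
    linarith
  unfold appr
  split_ifs with h
  · rw [Finset.sum_eq_single j]
    · rw [plateau_one hδ hx.le]; ring
    · intro k hk hkj
      rw [hne k (by simpa [Nat.lt_succ_iff] using hk) hkj, mul_zero]
    · intro hj
      exact absurd (Finset.mem_range.2 (Nat.lt_succ_of_le h)) hj
  · rw [Finset.sum_eq_zero, add_zero]
    intro k hk
    have hk' : k ≤ n := by simpa [Nat.lt_succ_iff] using hk
    rw [hne k hk' (by rintro rfl; exact h hk'), mul_zero]

lemma appr_near_zero (χ : ℝ → ℝ) {n : ℕ} {x : ℝ}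
    (hx : |x| < 1 / (3 * ((n : ℝ) + 3) ^ 2)) : appr χ n x = χ 0 := by
  have hδ : (0:ℝ) < 1 / (3 * ((n : ℝ) + 3) ^ 2) := by positivity
  unfold appr
  rw [Finset.sum_eq_zero, add_zero]
  intro k hk
  have hk' : k ≤ n := by simpa [Nat.lt_succ_iff] using hk
  rw [plateau_zero hδ, mul_zero]
  have hkn : (k:ℝ) ≤ n := by exact_mod_cast hk'
  have hn : (0:ℝ) ≤ n := Nat.cast_nonneg n
  have hk0 : (0:ℝ) ≤ k := Nat.cast_nonneg k
  have h1 : 1 / ((n : ℝ) + 3) ^ 2 ≤ pt k := by
    unfold pt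
    apply one_div_le_one_div_of_le (by positivity)
    nlinarith
  have e : 1 / ((n : ℝ) + 3) ^ 2 = 3 * (1 / (3 * ((n : ℝ) + 3) ^ 2)) := by
    field_simp
  rw [e] at h1
  have h2 : pt k ≤ |x - pt k| + |x| := by
    have h3 : pt k = x - (x - pt k) := by ring
    have h4 : pt k ≤ |pt k| := le_abs_self _
    have h5 : |pt k| ≤ |x| + |x - pt k| := by
      conv_lhs => rw [h3]
      exact abs_sub _ _
    linarith
  linarith

lemma slope_zero {f : ℝ → ℝ} {x δ v : ℝ} (hδ : 0 < δ) (h : ∀ y, |y - x| < δ → f y = v) :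
    slope univ f x = 0 := by
  apply le_antisymm _ zero_le
  unfold slope
  refine iInf₂_le_of_le δ hδ ?_
  unfold lipOn
  refine iSup₂_le fun y hy => iSup₂_le fun z hz => ?_
  have hy' : |y - x| < δ := by have := hy.1; rwa [mem_ball, Real.dist_eq] at this
  have hz' : |z - x| < δ := by have := hz.1; rwa [mem_ball, Real.dist_eq] at this
  rw [h y hy', h z hz', edist_self]
  simp

lemma per_zero (E : Set ℝ) : per atomic E = 0 := by
  apply le_antisymm _ zero_le
  unfold per tv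
  refine iInf_le_of_le univ (iInf_le_of_le isOpen_univ (iInf_le_of_le subset_rfl ?_))
  set χ : ℝ → ℝ := E.indicator (fun _ => (1 : ℝ)) with hχ
  unfold tvOpen
  refine iInf_le_of_le (appr χ) (iInf_le_of_le ?_ (iInf_le_of_le ?_ ?_))
  · intro n
    exact (appr_lip χ n).locallyLipschitzOn
  · intro x _
    refine ⟨univ, univ_mem, ?_⟩
    rw [univ_inter, Measure.restrict_univ]
    have hbound : ∀ n : ℕ, ∫⁻ y, ‖appr χ n y - χ y‖ₑ ∂atomic ≤
        ENNReal.ofReal ((3/4) ^ n * 3) := by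
      intro n
      rw [lint_atomic]
      have h0 : appr χ n 0 = χ 0 := appr_near_zero χ (by rw [abs_zero]; positivity)
      rw [h0, sub_self, enorm_zero, zero_add]
      have hterm : ∀ k : ℕ, (2 : ℝ≥0∞)⁻¹ ^ k * ‖appr χ n (pt k) - χ (pt k)‖ₑ ≤
          ENNReal.ofReal ((3/4) ^ n * (2/3) ^ k) := by
        intro k
        rw [appr_near_pt χ (j := k) (by rw [sub_self, abs_zero]; positivity)]
        split_ifs with h
        · rw [sub_self, enorm_zero, mul_zero]; exact zero_le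
        · have h1 : ‖χ 0 - χ (pt k)‖ₑ ≤ 1 := by
            rw [← ofReal_norm, ← ENNReal.ofReal_one]
            apply ENNReal.ofReal_le_ofReal
            rw [Real.norm_eq_abs, hχ]
            by_cases ha : (0:ℝ) ∈ E <;> by_cases hb : pt k ∈ E <;> simp [ha, hb]
          have h2 : (2 : ℝ≥0∞)⁻¹ ^ k = ENNReal.ofReal ((1/2) ^ k) := by
            rw [ENNReal.ofReal_pow (by norm_num)]
            congr 1
            rw [one_div, ENNReal.ofReal_inv_of_pos (by norm_num)]
            simp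
          calc (2 : ℝ≥0∞)⁻¹ ^ k * ‖χ 0 - χ (pt k)‖ₑ ≤ (2 : ℝ≥0∞)⁻¹ ^ k * 1 := by gcongr
            _ = ENNReal.ofReal ((1/2) ^ k) := by rw [mul_one, h2]
            _ ≤ _ := by
              apply ENNReal.ofReal_le_ofReal
              have e : ((1:ℝ)/2) ^ k = (3/4) ^ k * (2/3) ^ k := by
                rw [← mul_pow]; norm_num
              rw [e]
              gcongr ?_ * _
              exact pow_le_pow_of_le_one (by norm_num) (by norm_num) (by omega)
      calc ∑' k : ℕ, (2 : ℝ≥0∞)⁻¹ ^ k * ‖appr χ n (pt k) - χ (pt k)‖ₑ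
          ≤ ∑' k : ℕ, ENNReal.ofReal ((3/4) ^ n * (2/3) ^ k) := ENNReal.tsum_le_tsum hterm
        _ = ENNReal.ofReal (∑' k : ℕ, (3/4) ^ n * (2/3) ^ k) := by
            rw [ENNReal.ofReal_tsum_of_nonneg]
            · intro k; positivity
            · exact (summable_geometric_of_lt_one (by norm_num) (by norm_num)).mul_left _
        _ = _ := by
            rw [tsum_mul_left, tsum_geometric_of_lt_one (by norm_num) (by norm_num)]
            norm_num
    refine tendsto_of_tendsto_of_tendsto_of_le_of_le tendsto_const_nhds ?_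
      (fun n => zero_le) hbound
    have h1 : Tendsto (fun n : ℕ => ((3:ℝ)/4) ^ n * 3) atTop (𝓝 (0 * 3)) :=
      (tendsto_pow_atTop_nhds_zero_of_lt_one (by norm_num) (by norm_num)).mul_const 3
    rw [zero_mul] at h1
    have := ENNReal.tendsto_ofReal h1
    rwa [ENNReal.ofReal_zero] at this
  · have hz : ∀ n, ∫⁻ x in univ, slope univ (appr χ n) x ∂atomic = 0 := by
      intro n
      rw [Measure.restrict_univ, lint_atomic]
      have hδ : (0:ℝ) < 1 / (3 * ((n : ℝ) + 3) ^ 2) := by positivity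
      have h0 : slope univ (appr χ n) 0 = 0 :=
        slope_zero hδ (fun y hy => appr_near_zero χ (by simpa using hy))
      have hk : ∀ k, slope univ (appr χ n) (pt k) = 0 := fun k =>
        slope_zero hδ (fun y hy => appr_near_pt χ hy)
      simp [h0, hk]
    simp_rw [hz]
    simp

lemma atomic_finite (B : Set ℝ) : atomic B < ∞ := by
  refine lt_of_le_of_lt (measure_mono (subset_univ B)) ?_
  have : atomic univ = ∫⁻ _x, 1 ∂atomic := by simp
  rw [this, lint_atomic]
  have e : ∑' k : ℕ, (2 : ℝ≥0∞)⁻¹ ^ k * 1 = 2 := by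
    simp_rw [mul_one]
    rw [ENNReal.tsum_geometric, ENNReal.one_sub_inv_two, inv_inv]
  rw [e]
  norm_num

lemma atomic_zero : 1 ≤ atomic {0} := by
  unfold atomic
  rw [Measure.add_apply]
  simp

lemma atomic_pt (k : ℕ) : (2 : ℝ≥0∞)⁻¹ ^ k ≤ atomic {pt k} := by
  unfold atomic
  rw [Measure.add_apply, Measure.sum_apply _ (measurableSet_singleton _)]
  have h := ENNReal.le_tsum (f := fun i : ℕ =>
    (((2 : ℝ≥0∞)⁻¹ ^ i) • Measure.dirac (pt i)) {pt k}) k
  refine le_trans ?_ (h.trans le_add_self)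
  simp

/-- the unit interval has no closed representative -/
lemma no_closed : ¬ HasClosedRep atomic (Ioo (0:ℝ) 1) := by
  rintro ⟨C, hC, hm⟩
  have hmem : ∀ x : ℝ, atomic {x} ≠ 0 → (x ∈ Ioo (0:ℝ) 1 ↔ x ∈ C) := by
    intro x hx
    by_contra hcon
    have hx' : x ∈ symmDiff (Ioo (0:ℝ) 1) C := by
      rw [mem_symmDiff]
      tauto
    exact hx (measure_mono_null (singleton_subset_iff.2 hx') hm)
  have hpt : ∀ k, pt k ∈ C := by
    intro k
    refine (hmem _ ?_).1 ⟨pt_pos k, pt_lt_one k⟩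
    intro h
    have := atomic_pt k
    rw [h] at this
    have h2 : (0:ℝ≥0∞) < (2 : ℝ≥0∞)⁻¹ ^ k := by
      apply ENNReal.pow_pos
      simp
    exact absurd (lt_of_lt_of_le h2 this) (lt_irrefl _)
  have hlim : Tendsto pt atTop (𝓝 0) := by
    unfold pt
    have h1 : Tendsto (fun k : ℕ => (k:ℝ) + 2) atTop atTop :=
      tendsto_atTop_add_const_right _ _ tendsto_natCast_atTop_atTop
    exact (tendsto_const_nhds).div_atTop h1
  have h0 : (0:ℝ) ∈ C := hC.mem_of_tendsto hlim (Eventually.of_forall hpt)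
  have := (hmem 0 (by
    intro h
    have h1 := atomic_zero
    rw [h] at h1
    exact absurd h1 (by norm_num))).2 h0
  exact lt_irrefl _ this.1

end Pool.Agent.Q170.PerimDef
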