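import Mathlib

/-!
# Compact metric graphs, their path metric and their Laplace eigenfunctions
-/

open Set

namespace Pool.Agent.Q170.QGraph

/-- A compact connected metric graph: finitely many vertices and edges (at least one edge), loops
and multiple edges allowed, every edge carries a positive length. -/
structure MGraph where
  V : Type
  E : Type
  fV : Fintype V
  fE : Fintype E
  dV : DecidableEq V
  nE : Nonempty E
  src : E → V
  tgt : E → V
  len : E → ℝ
  len_pos : ∀ e, 0 < len e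
  conn : ∀ u v : V, Relation.EqvGen (fun a b => ∃ e, src e = a ∧ tgt e = b) u v

attribute [instance] MGraph.fV MGraph.fE MGraph.dV MGraph.nE

/-- The disjoint union of the closed edges. -/
structure Pre (G : MGraph) where
  edge : G.E
  pos : ℝ
  nonneg : 0 ≤ pos
  le : pos ≤ G.len edge

/-- `p` is an end of an edge, sitting at the vertex `v`. -/
def AtVertex (G : MGraph) (p : Pre G) (v : G.V) : Prop :=
  (p.pos = 0 ∧ G.src p.edge = v) ∨ (p.pos = G.len p.edge ∧ G.tgt p.edge = v)

theorem atVertex_unique {G : MGraph} {p : Pre G} {v w : G.V} (h1 : AtVertex G p v)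
    (h2 : AtVertex G p w) : v = w := by
  have hl := G.len_pos p.edge
  rcases h1 with ⟨h1, h1'⟩ | ⟨h1, h1'⟩ <;> rcases h2 with ⟨h2, h2'⟩ | ⟨h2, h2'⟩
  · rw [← h1', ← h2']
  · exfalso; linarith
  · exfalso; linarith
  · rw [← h1', ← h2']

/-- Glue the edge ends which sit at the same vertex. -/
def glue (G : MGraph) : Setoid (Pre G) where
  r p q := p = q ∨ ∃ v, AtVertex G p v ∧ AtVertex G q v
  iseqv := by
    constructor
    · intro p; exact Or.inl rfl
    · rintro p q (h | ⟨v, h1, h2⟩)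
      · exact Or.inl h.symm
      · exact Or.inr ⟨v, h2, h1⟩
    · rintro p q r (rfl | ⟨v, h1, h2⟩) (h | ⟨w, h3, h4⟩)
      · exact Or.inl h
      · exact Or.inr ⟨w, h3, h4⟩
      · subst h; exact Or.inr ⟨v, h1, h2⟩
      · have : v = w := atVertex_unique h2 h3
        subst this
        exact Or.inr ⟨v, h1, h4⟩

/-- The points of the metric graph. -/
abbrev Pt (G : MGraph) : Type := Quotient (glue G)

/-- The point of the edge `e` at distance `x` from its first end (`x` is clamped to the edge). -/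
noncomputable def pt (G : MGraph) (e : G.E) (x : ℝ) : Pt G :=
  Quotient.mk (glue G) ⟨e, max 0 (min x (G.len e)),
    le_max_left _ _, max_le (G.len_pos e).le (min_le_right _ _)⟩

theorem pt_surj {G : MGraph} (p : Pt G) : ∃ e x, 0 ≤ x ∧ x ≤ G.len e ∧ p = pt G e x := by
  induction p using Quotient.inductionOn with
  | h a =>
    obtain ⟨e, x, h0, h1⟩ := a
    refine ⟨e, x, h0, h1, ?_⟩
    unfold pt
    congr 1
    simp [h0, h1]

theorem pt_eq_iff {G : MGraph} {e e' : G.E} {x x' : ℝ} (hx : 0 ≤ x ∧ x ≤ G.len e)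
    (hx' : 0 ≤ x' ∧ x' ≤ G.len e') :
    pt G e x = pt G e' x' ↔ (e = e' ∧ x = x') ∨
      ∃ v, ((x = 0 ∧ G.src e = v) ∨ (x = G.len e ∧ G.tgt e = v)) ∧
        ((x' = 0 ∧ G.src e' = v) ∨ (x' = G.len e' ∧ G.tgt e' = v)) := by
  have h1 : max 0 (min x (G.len e)) = x := by simp [hx.1, hx.2]
  have h2 : max 0 (min x' (G.len e')) = x' := by simp [hx'.1, hx'.2]
  unfold pt
  rw [Quotient.eq]
  change (_ = _ ∨ ∃ v, AtVertex G _ v ∧ AtVertex G _ v) ↔ _
  simp only [Pre.mk.injEq, AtVertex, h1, h2]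

/-- A function on the graph from functions on the edges which agree at the vertices. -/
noncomputable def mkFun (G : MGraph) (F : G.E → ℝ → ℝ) (φ : G.V → ℝ)
    (h0 : ∀ e, F e 0 = φ (G.src e)) (h1 : ∀ e, F e (G.len e) = φ (G.tgt e)) : Pt G → ℝ :=
  Quotient.lift (fun a : Pre G => F a.edge a.pos) (by
    intro a b hab
    change a = b ∨ ∃ v, AtVertex G a v ∧ AtVertex G b v at hab
    rcases hab with h | ⟨v, ha, hb⟩
    · rw [h]
    · have key : ∀ c : Pre G, AtVertex G c v → F c.edge c.pos = φ v := by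
        intro c hc
        rcases hc with ⟨h, h'⟩ | ⟨h, h'⟩
        · rw [h, h0, h']
        · rw [h, h1, h']
      change F a.edge a.pos = F b.edge b.pos
      rw [key a ha, key b hb])

theorem mkFun_pt {G : MGraph} {F : G.E → ℝ → ℝ} {φ : G.V → ℝ}
    {h0 : ∀ e, F e 0 = φ (G.src e)} {h1 : ∀ e, F e (G.len e) = φ (G.tgt e)}
    (e : G.E) {x : ℝ} (hx : 0 ≤ x) (hx' : x ≤ G.len e) :
    mkFun G F φ h0 h1 (pt G e x) = F e x := by
  unfold mkFun pt
  rw [Quotient.lift_mk]
  simp [hx, hx']

/-! ### The path metric -/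

/-- `Joined G p q l`: the points `p` and `q` are joined by a path of length `l`, made of finitely
many segments of edges. -/
inductive Joined (G : MGraph) : Pt G → Pt G → ℝ → Prop
  | seg (e : G.E) (x y : ℝ) (hx : x ∈ Icc 0 (G.len e)) (hy : y ∈ Icc 0 (G.len e)) :
      Joined G (pt G e x) (pt G e y) |x - y|
  | trans {p q r : Pt G} {a b : ℝ} : Joined G p q a → Joined G q r b → Joined G p r (a + b)

/-- The path metric. -/
noncomputable def pdist (G : MGraph) (p q : Pt G) : ℝ := sInf {l | Joined G p q l}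

/-- The two metric graphs are isometric metric spaces. -/
def Isometric (G H : MGraph) : Prop :=
  ∃ Φ : Pt G ≃ Pt H, ∀ p q, pdist H (Φ p) (Φ q) = pdist G p q

theorem Joined.symm {G : MGraph} {p q : Pt G} {l : ℝ} (h : Joined G p q l) : Joined G q p l := by
  induction h with
  | seg e x y hx hy => rw [abs_sub_comm]; exact Joined.seg e y x hy hx
  | trans _ _ h1 h2 => rw [add_comm]; exact Joined.trans h2 h1

theorem Joined.nonneg {G : MGraph} {p q : Pt G} {l : ℝ} (h : Joined G p q l) : 0 ≤ l := by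
  induction h with
  | seg e x y hx hy => exact abs_nonneg _
  | trans _ _ h1 h2 => exact add_nonneg h1 h2

/-- `p` is the vertex `v`. -/
def IsV (G : MGraph) (p : Pt G) (v : G.V) : Prop :=
  (∃ e, G.src e = v ∧ p = pt G e 0) ∨ ∃ e, G.tgt e = v ∧ p = pt G e (G.len e)

theorem isV_src {G : MGraph} (e : G.E) : IsV G (pt G e 0) (G.src e) := Or.inl ⟨e, rfl, rfl⟩

theorem isV_tgt {G : MGraph} (e : G.E) : IsV G (pt G e (G.len e)) (G.tgt e) :=
  Or.inr ⟨e, rfl, rfl⟩

theorem isV_eq {G : MGraph} {p q : Pt G} {v : G.V} (hp : IsV G p v) (hq : IsV G q v) : p = q := by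
  have hl := fun e => (G.len_pos e).le
  rcases hp with ⟨e, he, rfl⟩ | ⟨e, he, rfl⟩ <;> rcases hq with ⟨e', he', rfl⟩ | ⟨e', he', rfl⟩
  · rw [pt_eq_iff ⟨le_refl _, hl e⟩ ⟨le_refl _, hl e'⟩]
    exact Or.inr ⟨v, Or.inl ⟨rfl, he⟩, Or.inl ⟨rfl, he'⟩⟩
  · rw [pt_eq_iff ⟨le_refl _, hl e⟩ ⟨hl e', le_refl _⟩]
    exact Or.inr ⟨v, Or.inl ⟨rfl, he⟩, Or.inr ⟨rfl, he'⟩⟩
  · rw [pt_eq_iff ⟨hl e, le_refl _⟩ ⟨le_refl _, hl e'⟩]
    exact Or.inr ⟨v, Or.inr ⟨rfl, he⟩, Or.inl ⟨rfl, he'⟩⟩
  · rw [pt_eq_iff ⟨hl e, le_refl _⟩ ⟨hl e', le_refl _⟩]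
    exact Or.inr ⟨v, Or.inr ⟨rfl, he⟩, Or.inr ⟨rfl, he'⟩⟩

theorem isV_unique {G : MGraph} {p : Pt G} {v w : G.V} (hp : IsV G p v) (hq : IsV G p w) :
    v = w := by
  have hl := fun e => (G.len_pos e)
  rcases hp with ⟨e, he, hpe⟩ | ⟨e, he, hpe⟩ <;> rcases hq with ⟨e', he', hqe⟩ | ⟨e', he', hqe⟩ <;>
    rw [hpe] at hqe
  · rw [pt_eq_iff ⟨le_refl _, (hl e).le⟩ ⟨le_refl _, (hl e').le⟩] at hqe
    rcases hqe with ⟨h, -⟩ | ⟨u, h1, h2⟩
    · rw [← he, ← he', h]
    · have := hl e; have := hl e'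
      rcases h1 with ⟨a, b⟩ | ⟨a, b⟩ <;> rcases h2 with ⟨c, d⟩ | ⟨c, d⟩ <;>
        first
          | (exfalso; linarith)
          | (rw [← he, ← he', b, d])
  · rw [pt_eq_iff ⟨le_refl _, (hl e).le⟩ ⟨(hl e').le, le_refl _⟩] at hqe
    rcases hqe with ⟨h, h'⟩ | ⟨u, h1, h2⟩
    · have := hl e'; exfalso; linarith
    · have := hl e; have := hl e'
      rcases h1 with ⟨a, b⟩ | ⟨a, b⟩ <;> rcases h2 with ⟨c, d⟩ | ⟨c, d⟩ <;>
        first
          | (exfalso; linarith)
          | (rw [← he, ← he', b, d])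
  · rw [pt_eq_iff ⟨(hl e).le, le_refl _⟩ ⟨le_refl _, (hl e').le⟩] at hqe
    rcases hqe with ⟨h, h'⟩ | ⟨u, h1, h2⟩
    · have := hl e; exfalso; linarith
    · have := hl e; have := hl e'
      rcases h1 with ⟨a, b⟩ | ⟨a, b⟩ <;> rcases h2 with ⟨c, d⟩ | ⟨c, d⟩ <;>
        first
          | (exfalso; linarith)
          | (rw [← he, ← he', b, d])
  · rw [pt_eq_iff ⟨(hl e).le, le_refl _⟩ ⟨(hl e').le, le_refl _⟩] at hqe
    rcases hqe with ⟨h, -⟩ | ⟨u, h1, h2⟩
    · rw [← he, ← he', h]
    · have := hl e; have := hl e'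
      rcases h1 with ⟨a, b⟩ | ⟨a, b⟩ <;> rcases h2 with ⟨c, d⟩ | ⟨c, d⟩ <;>
        first
          | (exfalso; linarith)
          | (rw [← he, ← he', b, d])

theorem joined_all {G : MGraph} (p q : Pt G) : ∃ l, Joined G p q l := by
  have hl := fun e => (G.len_pos e).le
  -- vertices
  have hv : ∀ u v : G.V, Relation.EqvGen (fun a b => ∃ e, G.src e = a ∧ G.tgt e = b) u v →
      ∀ p q, IsV G p u → IsV G q v → ∃ l, Joined G p q l := by
    intro u v huv
    induction huv with
    | rel a b hab =>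
      intro p q hp hq
      obtain ⟨e, he1, he2⟩ := hab
      have h1 : p = pt G e 0 := isV_eq hp (he1 ▸ isV_src e)
      have h2 : q = pt G e (G.len e) := isV_eq hq (he2 ▸ isV_tgt e)
      rw [h1, h2]
      exact ⟨_, Joined.seg e 0 (G.len e) ⟨le_refl _, hl e⟩ ⟨hl e, le_refl _⟩⟩
    | refl a =>
      intro p q hp hq
      rw [isV_eq hp hq]
      obtain ⟨e, x, hx, hx', rfl⟩ := pt_surj q
      exact ⟨_, Joined.seg e x x ⟨hx, hx'⟩ ⟨hx, hx'⟩⟩
    | symm a b _ ih =>
      intro p q hp hq
      obtain ⟨l, h⟩ := ih q p hq hp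
      exact ⟨l, h.symm⟩
    | trans a b c hab hbc ih1 ih2 =>
      intro p q hp hq
      -- the vertex b has an incident edge end
      by_cases hb : ∃ r, IsV G r b
      · obtain ⟨r, hr⟩ := hb
        obtain ⟨l1, h1⟩ := ih1 p r hp hr
        obtain ⟨l2, h2⟩ := ih2 r q hr hq
        exact ⟨_, Joined.trans h1 h2⟩
      · -- otherwise b is isolated, so a = b
        exfalso
        have key : ∀ x y : G.V, Relation.EqvGen (fun a b => ∃ e, G.src e = a ∧ G.tgt e = b) x y →
            ((x = b → y = b) ∧ (y = b → x = b)) := by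
          intro x y hxy
          induction hxy with
          | rel x y hxy =>
            obtain ⟨e, he1, he2⟩ := hxy
            constructor
            · rintro rfl; exact absurd ⟨_, he1 ▸ isV_src e⟩ hb
            · rintro rfl; exact absurd ⟨_, he2 ▸ isV_tgt e⟩ hb
          | refl x => exact ⟨id, id⟩
          | symm x y _ ih => exact ⟨ih.2, ih.1⟩
          | trans x y z _ _ i1 i2 => exact ⟨fun h => i2.1 (i1.1 h), fun h => i1.2 (i2.2 h)⟩
        have := (key a b hab).2 rfl
        exact hb ⟨p, this ▸ hp⟩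
  obtain ⟨e, x, hx, hx', rfl⟩ := pt_surj p
  obtain ⟨e', y, hy, hy', rfl⟩ := pt_surj q
  obtain ⟨l, h⟩ := hv (G.src e) (G.src e') (G.conn _ _) _ _ (isV_src e) (isV_src e')
  exact ⟨_, Joined.trans (Joined.seg e x 0 ⟨hx, hx'⟩ ⟨le_refl _, hl e⟩)
    (Joined.trans h (Joined.seg e' 0 y ⟨le_refl _, hl e'⟩ ⟨hy, hy'⟩))⟩

theorem pdist_le {G : MGraph} {p q : Pt G} {l : ℝ} (h : Joined G p q l) : pdist G p q ≤ l :=
  csInf_le ⟨0, fun _ hb => Joined.nonneg hb⟩ h

theorem le_pdist {G : MGraph} (φ : Pt G → ℝ)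
    (hφ : ∀ e, ∀ x ∈ Icc 0 (G.len e), ∀ y ∈ Icc 0 (G.len e),
      |φ (pt G e x) - φ (pt G e y)| ≤ |x - y|) (p q : Pt G) :
    |φ p - φ q| ≤ pdist G p q := by
  obtain ⟨l0, hl0⟩ := joined_all p q
  apply le_csInf ⟨l0, hl0⟩
  intro l hl
  have hl' : Joined G p q l := hl
  clear hl hl0
  induction hl' with
  | seg e x y hx hy => exact hφ e x hx y hy
  | trans _ _ h1 h2 => exact (abs_sub_le _ _ _).trans (add_le_add h1 h2)

/-- The sphere of small radius about a vertex. -/
theorem sphere_vertex {G : MGraph} {v : G.V} {p : Pt G} (hp : IsV G p v) {r : ℝ} (hr : 0 < r)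
    (hr2 : ∀ e, 2 * r < G.len e) (q : Pt G) :
    pdist G p q = r ↔ (∃ e, G.src e = v ∧ q = pt G e r) ∨
      ∃ e, G.tgt e = v ∧ q = pt G e (G.len e - r) := by
  classical
  -- a radius slightly larger than r
  obtain ⟨R, hrR, hR⟩ : ∃ R, r < R ∧ ∀ e, 2 * R ≤ G.len e := by
    have hfin : ∃ m : ℝ, 2 * r < m ∧ ∀ e, m ≤ G.len e := by
      refine ⟨Finset.univ.inf' Finset.univ_nonempty G.len, ?_, ?_⟩
      · rw [Finset.lt_inf'_iff]; intro e _; exact hr2 e
      · intro e; exact Finset.inf'_le _ (Finset.mem_univ e)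
    obtain ⟨m, h1, h2⟩ := hfin
    exact ⟨m / 2, by linarith, fun e => by have := h2 e; linarith⟩
  have hR0 : 0 < R := hr.trans hrR
  set F : G.E → ℝ → ℝ := fun e x => min R (min (if G.src e = v then x else R)
    (if G.tgt e = v then G.len e - x else R)) with hF
  set ψ : G.V → ℝ := fun w => if w = v then 0 else R with hψ
  have h0 : ∀ e, F e 0 = ψ (G.src e) := by
    intro e
    have := hR e
    by_cases h1 : G.src e = v <;> by_cases h2 : G.tgt e = v <;> simp only [hF, hψ, h1, h2, if_true, if_false]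
    · rw [min_eq_left (by linarith : (0:ℝ) ≤ G.len e - 0), min_eq_right hR0.le]
    · rw [min_eq_left hR0.le, min_eq_right hR0.le]
    · rw [min_eq_left (by linarith : R ≤ G.len e - 0), min_self]
    · rw [min_self, min_self]
  have h1 : ∀ e, F e (G.len e) = ψ (G.tgt e) := by
    intro e
    have := hR e
    by_cases h1 : G.src e = v <;> by_cases h2 : G.tgt e = v <;> simp only [hF, hψ, h1, h2, if_true, if_false]
    · rw [sub_self, min_eq_right (by linarith : (0:ℝ) ≤ G.len e), min_eq_right hR0.le]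
    · rw [min_eq_right (by linarith : R ≤ G.len e), min_self]
    · rw [sub_self, min_eq_right hR0.le, min_eq_right hR0.le]
    · rw [min_self, min_self]
  set φ := mkFun G F ψ h0 h1 with hφdef
  have hlip : ∀ e, ∀ x ∈ Icc 0 (G.len e), ∀ y ∈ Icc 0 (G.len e),
      |φ (pt G e x) - φ (pt G e y)| ≤ |x - y| := by
    intro e x hx y hy
    rw [hφdef, mkFun_pt e hx.1 hx.2, mkFun_pt e hy.1 hy.2]
    have e1 : |(if G.src e = v then x else R) - (if G.src e = v then y else R)| ≤ |x - y| := by
      split_ifs <;> simp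
    have e2 : |(if G.tgt e = v then G.len e - x else R) - (if G.tgt e = v then G.len e - y else R)|
        ≤ |x - y| := by
      split_ifs
      · rw [show G.len e - x - (G.len e - y) = -(x - y) by ring, abs_neg]
      · simp
    refine (abs_min_sub_min_le_max _ _ _ _).trans ?_
    rw [sub_self, abs_zero]
    refine max_le (abs_nonneg _) ?_
    exact (abs_min_sub_min_le_max _ _ _ _).trans (max_le e1 e2)
  have hφp : φ p = 0 := by
    rcases hp with ⟨e, he, rfl⟩ | ⟨e, he, rfl⟩
    · rw [hφdef, mkFun_pt e (le_refl _) (G.len_pos e).le, h0 e, hψ]; simp [he]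
    · rw [hφdef, mkFun_pt e (G.len_pos e).le (le_refl _), h1 e, hψ]; simp [he]
  have hlow : ∀ q, φ q ≤ pdist G p q := by
    intro q
    have := le_pdist φ hlip p q
    rw [hφp, zero_sub, abs_neg] at this
    exact (le_abs_self _).trans this
  have hup1 : ∀ e x, G.src e = v → 0 ≤ x → x ≤ G.len e → pdist G p (pt G e x) ≤ x := by
    intro e x he hx hx'
    have hpe : p = pt G e 0 := isV_eq hp (he ▸ isV_src e)
    have := pdist_le (Joined.seg (G := G) e 0 x ⟨le_refl _, (G.len_pos e).le⟩ ⟨hx, hx'⟩)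
    rwa [← hpe, zero_sub, abs_neg, abs_of_nonneg hx] at this
  have hup2 : ∀ e x, G.tgt e = v → 0 ≤ x → x ≤ G.len e → pdist G p (pt G e x) ≤ G.len e - x := by
    intro e x he hx hx'
    have hpe : p = pt G e (G.len e) := isV_eq hp (he ▸ isV_tgt e)
    have := pdist_le (Joined.seg (G := G) e (G.len e) x ⟨(G.len_pos e).le, le_refl _⟩ ⟨hx, hx'⟩)
    rwa [← hpe, abs_of_nonneg (by linarith)] at this
  constructor
  · intro h
    obtain ⟨e, x, hx, hx', rfl⟩ := pt_surj q
    have hlo := hlow (pt G e x)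
    rw [h, hφdef, mkFun_pt e hx hx'] at hlo
    have hlt : F e x < R := hlo.trans_lt hrR
    rw [hF] at hlt hlo
    simp only [min_lt_iff, lt_irrefl, false_or] at hlt
    by_cases c1 : G.src e = v
    · by_cases c2 : G.tgt e = v
      · simp only [c1, c2, if_true] at hlo hlt
        have u1 := hup1 e x c1 hx hx'
        have u2 := hup2 e x c2 hx hx'
        rw [h] at u1 u2
        have : min x (G.len e - x) ≤ r := by
          rcases min_le_iff.1 hlo with h' | h'
          · linarith
          · exact h'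
        rcases min_le_iff.1 this with h' | h'
        · left; exact ⟨e, c1, by rw [le_antisymm h' u1]⟩
        · right; exact ⟨e, c2, by rw [show x = G.len e - r by linarith]⟩
      · simp only [c1, c2, if_true, if_false] at hlo hlt
        have u1 := hup1 e x c1 hx hx'
        rw [h] at u1
        have : min x R ≤ r := by
          rcases min_le_iff.1 hlo with h' | h'
          · linarith
          · exact h'
        rcases min_le_iff.1 this with h' | h'
        · left; exact ⟨e, c1, by rw [le_antisymm h' u1]⟩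
        · linarith
    · by_cases c2 : G.tgt e = v
      · simp only [c1, c2, if_true, if_false] at hlo hlt
        have u2 := hup2 e x c2 hx hx'
        rw [h] at u2
        have : min R (G.len e - x) ≤ r := by
          rcases min_le_iff.1 hlo with h' | h'
          · linarith
          · exact h'
        rcases min_le_iff.1 this with h' | h'
        · linarith
        · right; exact ⟨e, c2, by rw [show x = G.len e - r by linarith]⟩
      · simp only [c1, c2, if_false, lt_irrefl, or_false] at hlt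
  · rintro (⟨e, he, rfl⟩ | ⟨e, he, rfl⟩)
    · have hle := hR e
      apply le_antisymm (hup1 e r he hr.le (by linarith))
      have := hlow (pt G e r)
      rw [hφdef, mkFun_pt e hr.le (by linarith)] at this
      refine le_trans ?_ this
      simp only [hF, he, if_true]
      refine le_min hrR.le (le_min (le_refl _) ?_)
      split_ifs <;> linarith
    · have hle := hR e
      have := hup2 e (G.len e - r) he (by linarith) (by linarith)
      apply le_antisymm (by linarith)
      have := hlow (pt G e (G.len e - r))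
      rw [hφdef, mkFun_pt e (by linarith) (by linarith)] at this
      refine le_trans ?_ this
      simp only [hF, he, if_true]
      refine le_min hrR.le (le_min ?_ ?_)
      · split_ifs <;> linarith
      · linarith

/-- The sphere of small radius about an interior point of an edge. -/
theorem sphere_interior {G : MGraph} (e : G.E) {s r : ℝ} (hr : 0 < r) (hrs : r < s)
    (hrs' : s + r < G.len e) (q : Pt G) (h : pdist G (pt G e s) q = r) :
    q = pt G e (s - r) ∨ q = pt G e (s + r) := by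
  classical
  obtain ⟨R, hrR, hR1, hR2⟩ : ∃ R, r < R ∧ R ≤ s ∧ R ≤ G.len e - s :=
    ⟨min s (G.len e - s), lt_min hrs (by linarith), min_le_left _ _, min_le_right _ _⟩
  have hR0 : 0 < R := hr.trans hrR
  set F : G.E → ℝ → ℝ := fun e' x => if e' = e then min R |x - s| else R with hF
  set ψ : G.V → ℝ := fun _ => R with hψ
  have h0 : ∀ e', F e' 0 = ψ (G.src e') := by
    intro e'
    simp only [hF, hψ]
    split_ifs
    · rw [zero_sub, abs_neg, abs_of_nonneg (by linarith), min_eq_left hR1]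
    · rfl
  have h1 : ∀ e', F e' (G.len e') = ψ (G.tgt e') := by
    intro e'
    simp only [hF, hψ]
    split_ifs with hc
    · rw [hc, abs_of_nonneg (by linarith), min_eq_left hR2]
    · rfl
  set φ := mkFun G F ψ h0 h1 with hφdef
  have hlip : ∀ e', ∀ x ∈ Icc 0 (G.len e'), ∀ y ∈ Icc 0 (G.len e'),
      |φ (pt G e' x) - φ (pt G e' y)| ≤ |x - y| := by
    intro e' x hx y hy
    rw [hφdef, mkFun_pt e' hx.1 hx.2, mkFun_pt e' hy.1 hy.2]
    simp only [hF]
    split_ifs
    · refine (abs_min_sub_min_le_max _ _ _ _).trans ?_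
      rw [sub_self, abs_zero]
      refine max_le (abs_nonneg _) ?_
      have := abs_abs_sub_abs_le_abs_sub (x - s) (y - s)
      rwa [show x - s - (y - s) = x - y by ring] at this
    · simp
  have hφp : φ (pt G e s) = 0 := by
    rw [hφdef, mkFun_pt e (by linarith) (by linarith)]
    simp [hF, hR0.le]
  have hlow : φ q ≤ r := by
    have := le_pdist φ hlip (pt G e s) q
    rw [hφp, zero_sub, abs_neg, h] at this
    exact (le_abs_self _).trans this
  obtain ⟨e', x, hx, hx', rfl⟩ := pt_surj q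
  rw [hφdef, mkFun_pt e' hx hx'] at hlow
  by_cases hc : e' = e
  · subst hc
    simp only [hF, if_true] at hlow
    have hxs : |x - s| ≤ r := by
      rcases min_le_iff.1 hlow with h' | h'
      · linarith
      · exact h'
    have hup := pdist_le (Joined.seg (G := G) e' s x ⟨by linarith, by linarith⟩ ⟨hx, hx'⟩)
    rw [h, abs_sub_comm] at hup
    have : |x - s| = r := le_antisymm hxs hup
    rcases (abs_eq hr.le).1 this with h' | h'
    · right; rw [show x = s + r by linarith]
    · left; rw [show x = s - r by linarith]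
  · simp only [hF, hc, if_false] at hlow
    linarith

/-! ### Eigenfunctions -/

/-- `f` is a (nonzero, real) eigenfunction, with eigenvalue `lam`, of `-d²/dx²` with
delta-conditions of strength `α v` at the vertices `v` (`α = 0`: standard conditions).  Being a
function on the points of the graph, `f` is single valued at the vertices; `g e` is the derivative
of `f` along the edge `e`, and `φ v` the value of `f` at the vertex `v`. -/
def IsEig (G : MGraph) (α : G.V → ℝ) (lam : ℝ) (f : Pt G → ℝ) : Prop :=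
  (∃ p, f p ≠ 0) ∧ ∃ (g : G.E → ℝ → ℝ) (φ : G.V → ℝ),
    (∀ e, ∀ x ∈ Icc 0 (G.len e),
      HasDerivWithinAt (fun t => f (pt G e t)) (g e x) (Icc 0 (G.len e)) x ∧
      HasDerivWithinAt (g e) (-lam * f (pt G e x)) (Icc 0 (G.len e)) x) ∧
    (∀ e, f (pt G e 0) = φ (G.src e) ∧ f (pt G e (G.len e)) = φ (G.tgt e)) ∧
    ∀ v, (∑ e, if G.src e = v then g e 0 else 0) - (∑ e, if G.tgt e = v then g e (G.len e) else 0)
      = α v * φ v

/-- `lam` is an eigenvalue. -/
def IsEigenvalue (G : MGraph) (α : G.V → ℝ) (lam : ℝ) : Prop := ∃ f, IsEig G α lam f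

/-- Solutions of `f'' = -k² f` on an interval. -/
theorem ode_sol {L k : ℝ} (hk : k ≠ 0) {f g : ℝ → ℝ}
    (hf : ∀ x ∈ Icc 0 L, HasDerivWithinAt f (g x) (Icc 0 L) x)
    (hg : ∀ x ∈ Icc 0 L, HasDerivWithinAt g (-k ^ 2 * f x) (Icc 0 L) x) :
    ∀ x ∈ Icc 0 L, f x = f 0 * Real.cos (k * x) + g 0 / k * Real.sin (k * x) ∧
      g x = -k * f 0 * Real.sin (k * x) + g 0 * Real.cos (k * x) := by
  have hc : ∀ x, HasDerivAt (fun y => Real.cos (k * y)) (-Real.sin (k * x) * k) x := by
    intro x
    have := (Real.hasDerivAt_cos (k * x)).comp x ((hasDerivAt_id x).const_mul k)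
    exact this.congr_deriv (by simp)
  have hs : ∀ x, HasDerivAt (fun y => Real.sin (k * y)) (Real.cos (k * x) * k) x := by
    intro x
    have := (Real.hasDerivAt_sin (k * x)).comp x ((hasDerivAt_id x).const_mul k)
    exact this.congr_deriv (by simp)
  -- two first integrals
  have hconst : ∀ (u u' : ℝ → ℝ), (∀ x ∈ Icc 0 L, HasDerivWithinAt u (u' x) (Icc 0 L) x) →
      (∀ x, u' x = 0) → ∀ x ∈ Icc 0 L, u x = u 0 := by
    intro u u' hu h0 x hx
    have hcv : ContinuousOn u (Icc 0 L) := fun y hy => (hu y hy).continuousWithinAt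
    refine constant_of_has_deriv_right_zero hcv ?_ x hx
    intro y hy
    have := hu y ⟨hy.1, hy.2.le⟩
    rw [h0 y] at this
    exact this.mono_of_mem_nhdsWithin (Icc_mem_nhdsGE_of_mem hy)
  have hA : ∀ x ∈ Icc 0 L, f x * Real.cos (k * x) - g x / k * Real.sin (k * x) = f 0 := by
    intro x hx
    have := hconst (fun y => f y * Real.cos (k * y) - g y / k * Real.sin (k * y))
      (fun y => 0) (by
        intro y hy
        have h1 := ((hf y hy).mul (hc y).hasDerivWithinAt).sub
          (((hg y hy).div_const k).mul (hs y).hasDerivWithinAt)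
        refine h1.congr_deriv ?_
        field_simp
        ring) (fun _ => rfl) x hx
    simpa using this
  have hB : ∀ x ∈ Icc 0 L, f x * Real.sin (k * x) + g x / k * Real.cos (k * x) = g 0 / k := by
    intro x hx
    have := hconst (fun y => f y * Real.sin (k * y) + g y / k * Real.cos (k * y))
      (fun y => 0) (by
        intro y hy
        have h1 := ((hf y hy).mul (hs y).hasDerivWithinAt).add
          (((hg y hy).div_const k).mul (hc y).hasDerivWithinAt)
        refine h1.congr_deriv ?_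
        field_simp
        ring) (fun _ => rfl) x hx
    simpa using this
  intro x hx
  have a := hA x hx
  have b := hB x hx
  have cs := Real.sin_sq_add_cos_sq (k * x)
  have hgk : g x = k * (g x / k) := by field_simp
  have hg0 : g 0 = k * (g 0 / k) := by field_simp
  constructor
  · rw [← a, ← b]
    linear_combination (f x) * (-cs)
  · rw [hg0, hgk, ← a, ← b]
    linear_combination (k * (g x / k)) * (-cs)

/-- The values of an eigenfunction on an edge. -/
theorem edge_sol {G : MGraph} {k : ℝ} (hk : k ≠ 0) {f : Pt G → ℝ} {g : G.E → ℝ → ℝ} {φ : G.V → ℝ}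
    (hd : ∀ e, ∀ x ∈ Icc 0 (G.len e),
      HasDerivWithinAt (fun t => f (pt G e t)) (g e x) (Icc 0 (G.len e)) x ∧
      HasDerivWithinAt (g e) (-k ^ 2 * f (pt G e x)) (Icc 0 (G.len e)) x)
    (hv : ∀ e, f (pt G e 0) = φ (G.src e) ∧ f (pt G e (G.len e)) = φ (G.tgt e)) (e : G.E)
    {x : ℝ} (hx : x ∈ Icc 0 (G.len e)) :
    f (pt G e x) = φ (G.src e) * Real.cos (k * x) + g e 0 / k * Real.sin (k * x) ∧
    g e x = -k * φ (G.src e) * Real.sin (k * x) + g e 0 * Real.cos (k * x) := by
  have := ode_sol hk (L := G.len e) (f := fun t => f (pt G e t)) (g := g e)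
    (fun x hx => (hd e x hx).1) (fun x hx => (hd e x hx).2) x hx
  simp only [(hv e).1] at this
  exact this

/-- The derivatives at the ends of an edge whose length is not a multiple of `π/k`. -/
theorem edge_ends {G : MGraph} {k : ℝ} (hk : k ≠ 0) {f : Pt G → ℝ} {g : G.E → ℝ → ℝ} {φ : G.V → ℝ}
    (hd : ∀ e, ∀ x ∈ Icc 0 (G.len e),
      HasDerivWithinAt (fun t => f (pt G e t)) (g e x) (Icc 0 (G.len e)) x ∧
      HasDerivWithinAt (g e) (-k ^ 2 * f (pt G e x)) (Icc 0 (G.len e)) x)
    (hv : ∀ e, f (pt G e 0) = φ (G.src e) ∧ f (pt G e (G.len e)) = φ (G.tgt e)) (e : G.E)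
    (hs : Real.sin (k * G.len e) ≠ 0) :
    g e 0 = k * (φ (G.tgt e) - φ (G.src e) * Real.cos (k * G.len e)) / Real.sin (k * G.len e) ∧
    g e (G.len e) = k * (φ (G.tgt e) * Real.cos (k * G.len e) - φ (G.src e)) /
      Real.sin (k * G.len e) := by
  have hmem : G.len e ∈ Icc 0 (G.len e) := ⟨(G.len_pos e).le, le_refl _⟩
  obtain ⟨h1, h2⟩ := edge_sol hk hd hv e hmem
  rw [(hv e).2] at h1
  have cs := Real.sin_sq_add_cos_sq (k * G.len e)
  have e1 : g e 0 = k * (φ (G.tgt e) - φ (G.src e) * Real.cos (k * G.len e)) /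
      Real.sin (k * G.len e) := by
    rw [h1]; field_simp; ring
  refine ⟨e1, ?_⟩
  rw [h2, e1]
  field_simp
  linear_combination (-φ (G.src e)) * cs

/-- Constructing eigenfunctions. -/
theorem isEig_mk {G : MGraph} {α : G.V → ℝ} {lam : ℝ} {F Fd : G.E → ℝ → ℝ} {φ : G.V → ℝ}
    {h0 : ∀ e, F e 0 = φ (G.src e)} {h1 : ∀ e, F e (G.len e) = φ (G.tgt e)}
    (hF : ∀ e x, HasDerivAt (F e) (Fd e x) x)
    (hFd : ∀ e x, HasDerivAt (Fd e) (-lam * F e x) x)
    (hK : ∀ v, (∑ e, if G.src e = v then Fd e 0 else 0) -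
      (∑ e, if G.tgt e = v then Fd e (G.len e) else 0) = α v * φ v)
    (hne : ∃ e, ∃ x ∈ Icc 0 (G.len e), F e x ≠ 0) :
    IsEig G α lam (mkFun G F φ h0 h1) := by
  refine ⟨?_, Fd, φ, ?_, ?_, hK⟩
  · obtain ⟨e, x, hx, hne⟩ := hne
    exact ⟨pt G e x, by rwa [mkFun_pt e hx.1 hx.2]⟩
  · intro e x hx
    constructor
    · refine (hF e x).hasDerivWithinAt.congr ?_ ?_
      · intro y hy; exact mkFun_pt e hy.1 hy.2
      · exact mkFun_pt e hx.1 hx.2
    · rw [mkFun_pt e hx.1 hx.2]
      exact (hFd e x).hasDerivWithinAt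
  · intro e
    rw [mkFun_pt e (le_refl _) (G.len_pos e).le, mkFun_pt e (G.len_pos e).le (le_refl _)]
    exact ⟨h0 e, h1 e⟩

/-- The second eigenvalue `μ₂` for standard vertex conditions, that is, the least positive
eigenvalue (`μ₁ = 0` is simple since the graph is connected). -/
def IsMu2 (G : MGraph) (lam : ℝ) : Prop :=
  0 < lam ∧ IsEigenvalue G (fun _ => 0) lam ∧
    ∀ ν, 0 < ν → ν < lam → ¬ IsEigenvalue G (fun _ => 0) ν

/-- The hot spot set `M`: the points at which some second eigenfunction (for standard vertex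
conditions) attains its global maximum or its global minimum. -/
def hotSet (G : MGraph) : Set (Pt G) :=
  {p | ∃ lam f, IsMu2 G lam ∧ IsEig G (fun _ => 0) lam f ∧
    ((∀ q, f q ≤ f p) ∨ ∀ q, f p ≤ f q)}

theorem hotSet_eq {G : MGraph} {lam : ℝ} (h : IsMu2 G lam) (p : Pt G) :
    p ∈ hotSet G ↔ ∃ f, IsEig G (fun _ => 0) lam f ∧ ((∀ q, f q ≤ f p) ∨ ∀ q, f p ≤ f q) := by
  constructor
  · rintro ⟨lam', f, h', hf, hp⟩
    have : lam' = lam := by
      rcases lt_trichotomy lam' lam with hl | hl | hl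
      · exact absurd h'.2.1 (h.2.2 lam' h'.1 hl)
      · exact hl
      · exact absurd h.2.1 (h'.2.2 lam h.1 hl)
    subst this
    exact ⟨f, hf, hp⟩
  · rintro ⟨f, hf, hp⟩
    exact ⟨lam, f, h, hf, hp⟩

end Pool.Agent.Q170.QGraph
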