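import Mathlib

set_option autoImplicit false

open Set Filter Topology Complex
open scoped Real

namespace Pool.Agent.Q170.Snow

/-- `exp(iπ4^n t)` -/
noncomputable def e (n : ℕ) (t : ℝ) : ℂ := Complex.exp (I * ((π * 4 ^ n * t : ℝ) : ℂ))

lemma norm_e (n : ℕ) (t : ℝ) : ‖e n t‖ = 1 := by
  unfold e
  rw [mul_comm]
  exact Complex.norm_exp_ofReal_mul_I _

lemma e_sub (n : ℕ) (s t : ℝ) : ‖e n s - e n t‖ = ‖e n (s - t) - 1‖ := by
  have h : e n s - e n t = e n t * (e n (s - t) - 1) := by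
    have : e n s = e n t * e n (s - t) := by
      unfold e
      rw [← Complex.exp_add]
      congr 1
      push_cast
      ring
    rw [this]; ring
  rw [h, norm_mul, norm_e, one_mul]

lemma e_sub_le_two (n : ℕ) (s t : ℝ) : ‖e n s - e n t‖ ≤ 2 := by
  calc ‖e n s - e n t‖ ≤ ‖e n s‖ + ‖e n t‖ := norm_sub_le _ _
    _ = 2 := by rw [norm_e, norm_e]; norm_num

lemma e_sub_le (n : ℕ) (s t : ℝ) : ‖e n s - e n t‖ ≤ π * 4 ^ n * |s - t| := by
  rw [e_sub]
  unfold e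
  refine (Real.norm_exp_I_mul_ofReal_sub_one_le).trans ?_
  rw [Real.norm_eq_abs, abs_mul, abs_of_pos (by positivity)]

lemma e_sub_ge (n : ℕ) {s t : ℝ} (h1 : |s - t| * 4 ^ n ≤ 1) (h2 : 1 / 4 ≤ |s - t| * 4 ^ n) :
    1 / 2 ≤ ‖e n s - e n t‖ := by
  have hsym : ‖e n s - e n t‖ = ‖e n |s - t| - 1‖ := by
    rcases le_total 0 (s - t) with h | h
    · rw [abs_of_nonneg h, e_sub]
    · rw [abs_of_nonpos h, norm_sub_rev, e_sub, neg_sub]
  rw [hsym]
  unfold e
  rw [Complex.norm_exp_I_mul_ofReal_sub_one]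
  have hpi := Real.pi_pos
  set x := π * 4 ^ n * |s - t| / 2 with hx
  have hx0 : 0 ≤ x := by positivity
  have hx1 : x ≤ π / 2 := by rw [hx]; nlinarith
  have hx2 : π / 8 ≤ x := by rw [hx]; nlinarith
  have hj := Real.mul_le_sin hx0 hx1
  have h3 : 1 / 4 ≤ Real.sin x := by
    refine le_trans ?_ hj
    rw [div_mul_eq_mul_div, le_div_iff₀ hpi]
    linarith
  rw [Real.norm_eq_abs, abs_of_nonneg (by linarith)]
  linarith

/-- the terms of the series -/
noncomputable def term (j k : ℕ) (t : ℝ) : ℂ := (((1:ℝ) / 2) ^ (j + 5 * k) : ℝ) • e (j + 5 * k) t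

noncomputable def Z (j : ℕ) (t : ℝ) : ℂ := ∑' k, term j k t

lemma half_pow_split (j k : ℕ) : ((1:ℝ) / 2) ^ (j + 5 * k) = (1/2) ^ j * (1/32) ^ k := by
  rw [pow_add, pow_mul]; norm_num

lemma norm_term (j k : ℕ) (t : ℝ) : ‖term j k t‖ = (1/2) ^ j * (1/32) ^ k := by
  unfold term
  rw [norm_smul, norm_e, mul_one, Real.norm_of_nonneg (by positivity), half_pow_split]

lemma summable_bound (j : ℕ) : Summable (fun k : ℕ => ((1:ℝ)/2) ^ j * (1/32) ^ k) :=
  (summable_geometric_of_lt_one (by norm_num) (by norm_num)).mul_left _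

lemma summable_term (j : ℕ) (t : ℝ) : Summable (fun k => term j k t) :=
  Summable.of_norm_bounded (summable_bound j) (fun k => (norm_term j k t).le)

lemma continuous_Z (j : ℕ) : Continuous (Z j) := by
  unfold Z
  refine continuous_tsum (fun k => ?_) (summable_bound j) (fun k t => (norm_term j k t).le)
  unfold term e
  fun_prop

lemma Z_lower {n : ℕ} {s t : ℝ} (h1 : |s - t| * 4 ^ n ≤ 1) (h2 : 1 / 4 ≤ |s - t| * 4 ^ n) :
    (1/4) * (1/2) ^ n ≤ ‖Z (n % 5) s - Z (n % 5) t‖ := by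
  set j := n % 5 with hj
  set k₀ := n / 5 with hk₀
  have hn : j + 5 * k₀ = n := by omega
  set F : ℕ → ℂ := fun k => term j k s - term j k t with hF
  have hFs : Summable F := (summable_term j s).sub (summable_term j t)
  have hZ : Z j s - Z j t = ∑' k, F k := by
    unfold Z
    rw [← (summable_term j s).tsum_sub (summable_term j t)]
  have hFk : ∀ k, F k = (((1:ℝ) / 2) ^ (j + 5 * k) : ℝ) • (e (j + 5 * k) s - e (j + 5 * k) t) := by
    intro k
    simp only [hF, term]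
    rw [smul_sub]
  have hmain : (1/2) * (1/2) ^ n ≤ ‖F k₀‖ := by
    rw [hFk, hn, norm_smul, Real.norm_of_nonneg (by positivity)]
    have := e_sub_ge n h1 h2
    have hp : (0:ℝ) < (1/2) ^ n := by positivity
    nlinarith
  -- small frequencies
  have hpi := Real.pi_pos
  have h4 : |s - t| ≤ (1/4) ^ n := by
    have e4 : ((1:ℝ)/4) ^ n = 1 / 4 ^ n := by rw [div_pow, one_pow]
    rw [e4, le_div_iff₀ (by positivity)]
    exact h1
  have hlow : ‖∑ k ∈ Finset.range k₀, F k‖ ≤ π / 31 * (1/2) ^ n := by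
    have hterm : ∀ k ∈ Finset.range k₀, ‖F k‖ ≤ π * (1/4) ^ n * 2 ^ j * 32 ^ k := by
      intro k _
      rw [hFk, norm_smul, Real.norm_of_nonneg (by positivity)]
      have h3 := e_sub_le (j + 5 * k) s t
      have e5 : ((1:ℝ)/2) ^ (j + 5 * k) * (π * 4 ^ (j + 5 * k) * (1/4) ^ n) =
          π * (1/4) ^ n * 2 ^ j * 32 ^ k := by
        have a1 : ((1:ℝ)/2) ^ (j + 5 * k) * 4 ^ (j + 5 * k) = 2 ^ (j + 5 * k) := by
          rw [← mul_pow]; norm_num
        have a2 : (2:ℝ) ^ (j + 5 * k) = 2 ^ j * 32 ^ k := by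
          rw [pow_add, pow_mul]; norm_num
        calc ((1:ℝ)/2) ^ (j + 5 * k) * (π * 4 ^ (j + 5 * k) * (1/4) ^ n) =
            π * (1/4) ^ n * (((1:ℝ)/2) ^ (j + 5 * k) * 4 ^ (j + 5 * k)) := by ring
          _ = _ := by rw [a1, a2]; ring
      rw [← e5]
      have hp : (0:ℝ) < (1/2) ^ (j + 5 * k) := by positivity
      calc ((1:ℝ)/2) ^ (j + 5 * k) * ‖e (j + 5 * k) s - e (j + 5 * k) t‖
          ≤ (1/2) ^ (j + 5 * k) * (π * 4 ^ (j + 5 * k) * |s - t|) := by gcongr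
        _ ≤ _ := by gcongr
    have hgeo : ∑ k ∈ Finset.range k₀, (32:ℝ) ^ k ≤ 32 ^ k₀ / 31 := by
      rw [geom_sum_eq (by norm_num)]
      have : (0:ℝ) < 32 ^ k₀ := by positivity
      rw [div_le_div_iff₀ (by norm_num) (by norm_num)]
      linarith
    calc ‖∑ k ∈ Finset.range k₀, F k‖ ≤ ∑ k ∈ Finset.range k₀, ‖F k‖ := norm_sum_le _ _
      _ ≤ ∑ k ∈ Finset.range k₀, π * (1/4) ^ n * 2 ^ j * 32 ^ k := Finset.sum_le_sum hterm
      _ = π * (1/4) ^ n * 2 ^ j * ∑ k ∈ Finset.range k₀, (32:ℝ) ^ k := by rw [Finset.mul_sum]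
      _ ≤ π * (1/4) ^ n * 2 ^ j * (32 ^ k₀ / 31) := by gcongr
      _ = π / 31 * (1/2) ^ n := by
        have a2 : (2:ℝ) ^ n = 2 ^ j * 32 ^ k₀ := by
          rw [← hn, pow_add, pow_mul]; norm_num
        have a3 : ((1:ℝ)/4) ^ n * 2 ^ n = (1/2) ^ n := by rw [← mul_pow]; norm_num
        calc π * (1/4) ^ n * 2 ^ j * (32 ^ k₀ / 31) = π / 31 * ((1/4) ^ n * (2 ^ j * 32 ^ k₀)) := by ring
          _ = _ := by rw [← a2, a3]
  -- large frequencies
  have hnF : ∀ k, ‖F k‖ ≤ 2 * ((1/2) ^ j * (1/32) ^ k) := by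
    intro k
    rw [hFk, norm_smul, Real.norm_of_nonneg (by positivity), ← half_pow_split]
    have := e_sub_le_two (j + 5 * k) s t
    have hp : (0:ℝ) < (1/2) ^ (j + 5 * k) := by positivity
    nlinarith
  have hhigh : ‖∑' i, F (i + (k₀ + 1))‖ ≤ 2 / 31 * (1/2) ^ n := by
    have hs1 : HasSum (fun i : ℕ => 2 * ((1/2) ^ j * (1/32) ^ (k₀ + 1)) * ((1:ℝ)/32) ^ i)
        (2 * ((1/2) ^ j * (1/32) ^ (k₀ + 1)) * (1 - 1/32)⁻¹) :=
      (hasSum_geometric_of_lt_one (by norm_num) (by norm_num)).mul_left _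
    have h5 := tsum_of_norm_bounded hs1 (f := fun i => F (i + (k₀ + 1))) (fun i => by
      refine (hnF _).trans (le_of_eq ?_)
      rw [pow_add ((1:ℝ)/32) i (k₀ + 1)]
      ring)
    refine h5.trans (le_of_eq ?_)
    have a4 : ((1:ℝ)/2) ^ n = (1/2) ^ j * (1/32) ^ k₀ := by rw [← hn, half_pow_split]
    rw [a4, pow_succ]
    ring
  have hdecomp : ∑' k, F k = (∑ k ∈ Finset.range k₀, F k) + F k₀ + ∑' i, F (i + (k₀ + 1)) := by
    rw [← hFs.sum_add_tsum_nat_add (k₀ + 1), Finset.sum_range_succ]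
  rw [hZ, hdecomp]
  have htri : ‖F k₀‖ ≤ ‖(∑ k ∈ Finset.range k₀, F k) + F k₀ + ∑' i, F (i + (k₀ + 1))‖ +
      ‖∑ k ∈ Finset.range k₀, F k‖ + ‖∑' i, F (i + (k₀ + 1))‖ := by
    have e6 : F k₀ = ((∑ k ∈ Finset.range k₀, F k) + F k₀ + ∑' i, F (i + (k₀ + 1))) -
        (∑ k ∈ Finset.range k₀, F k) - (∑' i, F (i + (k₀ + 1))) := by ring
    conv_lhs => rw [e6]
    refine (norm_sub_le _ _).trans ?_
    gcongr
    exact norm_sub_le _ _
  have hp : (0:ℝ) < (1/2) ^ n := by positivity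
  have hpi2 := Real.pi_lt_d2
  nlinarith

/-- The snowflake curve in ten dimensions. -/
noncomputable def gam (t : ℝ) : EuclideanSpace ℝ (Fin 10) :=
  WithLp.toLp 2 (fun i => if (i : ℕ) < 5 then (Z i t).re else (Z ((i : ℕ) - 5) t).im)

lemma continuous_gam : Continuous gam := by
  have h1 : Continuous (fun z : Fin 10 → ℝ => (WithLp.toLp 2 z : EuclideanSpace ℝ (Fin 10))) :=
    (PiLp.continuousLinearEquiv 2 ℝ (fun _ : Fin 10 => ℝ)).symm.continuous
  apply h1.comp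
  apply continuous_pi
  intro i
  by_cases h : (i : ℕ) < 5
  · simp only [h, if_true]
    exact Complex.continuous_re.comp (continuous_Z i)
  · simp only [h, if_false]
    exact Complex.continuous_im.comp (continuous_Z _)

/-- `|s - t| ≤ 64 |γ(s) - γ(t)|^2` for `|s - t| ≤ 1`. -/
theorem gam_lower {s t : ℝ} (h : |s - t| ≤ 1) : |s - t| ≤ 64 * ‖gam s - gam t‖ ^ 2 := by
  rcases eq_or_lt_of_le (abs_nonneg (s - t)) with h0 | h0
  · rw [← h0]; positivity
  obtain ⟨n, hn1, hn2⟩ := exists_nat_pow_near_of_lt_one (x := |s - t|) (y := (1/4 : ℝ)) h0 h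
    (by norm_num) (by norm_num)
  have e4 : ((1:ℝ)/4) ^ n * 4 ^ n = 1 := by rw [← mul_pow]; norm_num
  have h4p : (0:ℝ) < 4 ^ n := by positivity
  have k1 : |s - t| * 4 ^ n ≤ 1 := by
    rw [← e4]; gcongr
  have k2 : 1 / 4 ≤ |s - t| * 4 ^ n := by
    rw [pow_succ] at hn1
    nlinarith
  have hZ := Z_lower k1 k2
  have hj : n % 5 < 5 := Nat.mod_lt _ (by norm_num)
  have hre : |(Z (n % 5) s - Z (n % 5) t).re| ≤ ‖gam s - gam t‖ := by
    have := PiLp.norm_apply_le (gam s - gam t) (⟨n % 5, by omega⟩ : Fin 10)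
    refine le_trans (le_of_eq ?_) this
    simp [gam, hj, Real.norm_eq_abs]
  have him : |(Z (n % 5) s - Z (n % 5) t).im| ≤ ‖gam s - gam t‖ := by
    have := PiLp.norm_apply_le (gam s - gam t) (⟨n % 5 + 5, by omega⟩ : Fin 10)
    refine le_trans (le_of_eq ?_) this
    have h5 : ¬ (n % 5 + 5 < 5) := by omega
    simp [gam, h5, Real.norm_eq_abs]
  have hle : (1/8) * (1/2) ^ n ≤ ‖gam s - gam t‖ := by
    have := Complex.norm_le_abs_re_add_abs_im (Z (n % 5) s - Z (n % 5) t)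
    linarith
  have hp : (0:ℝ) < (1/2) ^ n := by positivity
  calc |s - t| ≤ (1/4) ^ n := hn2
    _ = 64 * ((1/8) * (1/2) ^ n) ^ 2 := by
      rw [mul_pow, ← pow_mul, mul_comm n 2, pow_mul]; norm_num
      ring
    _ ≤ _ := by gcongr

end Pool.Agent.Q170.Snow
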