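import Pool.Agent.Q170.QGraph

/-!
# The triangle with three pendant edges
-/

open Set Real Pool.Agent.Q170.QGraph

namespace Pool.Agent.Q170.TriPend

/-- length of the edges of the triangle, `cos θ = -1/4` -/
noncomputable def θ : ℝ := arccos (-1 / 4)

/-- length of the pendant edges, `tan σ = 2 / √15` -/
noncomputable def σ : ℝ := arctan (2 / √15)

theorem cosθ : cos θ = -1 / 4 := Real.cos_arccos (by norm_num) (by norm_num)

theorem sinθ : sin θ = √15 / 4 := by
  unfold θ
  rw [Real.sin_arccos, show (1:ℝ) - (-1 / 4) ^ 2 = 15 / 16 by norm_num,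
    Real.sqrt_div (by norm_num), show (16:ℝ) = 4 ^ 2 by norm_num, Real.sqrt_sq (by norm_num)]

theorem s15 : 0 < √15 := Real.sqrt_pos.2 (by norm_num)

theorem s15sq : √15 ^ 2 = 15 := Real.sq_sqrt (by norm_num)

theorem sinθ_pos : 0 < sin θ := by rw [sinθ]; have := s15; positivity

theorem σ_pos : 0 < σ := by
  unfold σ
  rw [Real.arctan_pos]
  have := s15
  positivity

theorem σ_lt : σ < π / 2 := Real.arctan_lt_pi_div_two _

theorem cosσ_pos : 0 < cos σ := Real.cos_arctan_pos _

theorem sinσ_pos : 0 < sin σ := Real.sin_pos_of_pos_of_lt_pi σ_pos (by linarith [σ_lt, pi_pos])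

theorem tanσ : sin σ / cos σ = 2 / √15 := by
  rw [← Real.tan_eq_sin_div_cos]
  exact Real.tan_arctan _

theorem sin_sin : sin θ * sin σ = cos σ / 2 := by
  have h := tanσ
  rw [div_eq_iff cosσ_pos.ne'] at h
  rw [h, sinθ]
  have := s15.ne'
  field_simp
  norm_num

theorem θ_pos : 0 < θ := by
  have h := Real.arccos_nonneg (-1 / 4)
  rcases h.eq_or_lt with h | h
  · exfalso
    have h1 := cosθ
    unfold θ at h1
    rw [← h, Real.cos_zero] at h1
    norm_num at h1
  · exact h

theorem θ_lt : θ < π := by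
  have h := Real.arccos_le_pi (-1 / 4)
  rcases h.eq_or_lt with h | h
  · exfalso
    have h1 := cosθ
    unfold θ at h1
    rw [h, Real.cos_pi] at h1
    norm_num at h1
  · exact h

theorem cos_sub : cos (θ - σ) = cos σ / 4 := by
  rw [Real.cos_sub, cosθ, sin_sin]; ring

theorem θσ_lt : θ + σ < π := by
  by_contra hcon
  push Not at hcon
  have h1 : sin (θ + σ - π) ≥ 0 := Real.sin_nonneg_of_nonneg_of_le_pi (by linarith)
    (by linarith [θ_lt, σ_lt, pi_pos])
  have h2 : sin (θ + σ) > 0 := by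
    rw [Real.sin_add, cosθ]
    have h := tanσ
    rw [div_eq_iff cosσ_pos.ne'] at h
    rw [h, sinθ]
    have h3 := s15
    have h4 := s15sq
    have h5 : √15 / 4 * cos σ + -1 / 4 * (2 / √15 * cos σ) = cos σ * (13 / (4 * √15)) := by
      field_simp
      rw [h4]
      ring
    rw [h5]
    have := cosσ_pos
    positivity
  rw [Real.sin_sub_pi] at h1
  linarith

theorem two_σ_lt : σ < θ - σ := by
  by_contra hcon
  push Not at hcon
  have h1 : cos σ ≤ cos (θ - σ) := by
    rcases le_total 0 (θ - σ) with h | h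
    · exact Real.cos_le_cos_of_nonneg_of_le_pi h (by linarith [σ_lt, pi_pos]) hcon
    · have h2 : cos (θ - σ) = cos (σ - θ) := by rw [← Real.cos_neg]; ring_nf
      rw [h2]
      exact Real.cos_le_cos_of_nonneg_of_le_pi (by linarith) (by linarith [σ_lt, pi_pos])
        (by linarith [θ_pos])
  rw [cos_sub] at h1
  linarith [cosσ_pos]

/-- The secular function. -/
noncomputable def h (k : ℝ) : ℝ :=
  2 * cos (k * θ) * cos (k * σ) - sin (k * θ) * sin (k * σ) + cos (k * σ)

theorem h_eq (k : ℝ) :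
    h k = 3 / 2 * cos (k * (θ + σ)) + 1 / 2 * cos (k * (θ - σ)) + cos (k * σ) := by
  unfold h
  rw [mul_add, mul_sub, Real.cos_add, Real.cos_sub]
  ring

theorem h_one : h 1 = 0 := by
  unfold h
  rw [one_mul, one_mul, cosθ, sin_sin]
  ring

theorem h_pos {k : ℝ} (hk0 : 0 < k) (hk1 : k < 1) : 0 < h k := by
  have h1 : cos (1 * (θ + σ)) < cos (k * (θ + σ)) :=
    Real.cos_lt_cos_of_nonneg_of_le_pi (by have := θ_pos; have := σ_pos; positivity)
      (by linarith [θσ_lt]) (by nlinarith [θ_pos, σ_pos])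
  have h2 : cos (1 * (θ - σ)) < cos (k * (θ - σ)) :=
    Real.cos_lt_cos_of_nonneg_of_le_pi (by have := two_σ_lt; have := σ_pos; nlinarith)
      (by linarith [θ_lt, σ_pos]) (by nlinarith [two_σ_lt, σ_pos])
  have h3 : cos (1 * σ) < cos (k * σ) :=
    Real.cos_lt_cos_of_nonneg_of_le_pi (by have := σ_pos; positivity)
      (by linarith [σ_lt, pi_pos]) (by nlinarith [σ_pos])
  have h4 := h_one
  rw [h_eq] at h4
  rw [h_eq]
  linarith

/-- The triangle with sides `θ` (the edges `inl i`, from the vertex `inl i` to `inl (i+1)`) and with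
a pendant edge of length `σ` at each of its vertices (the edges `inr i`, from `inl i` to the vertex
`inr i` of degree one). -/
noncomputable abbrev T : MGraph where
  V := Fin 3 ⊕ Fin 3
  E := Fin 3 ⊕ Fin 3
  fV := inferInstance
  fE := inferInstance
  dV := inferInstance
  nE := ⟨Sum.inl 0⟩
  src := Sum.elim Sum.inl Sum.inl
  tgt := Sum.elim (fun i => Sum.inl (i + 1)) Sum.inr
  len := Sum.elim (fun _ => θ) (fun _ => σ)
  len_pos := by
    rintro (i | i)
    · exact θ_pos
    · exact σ_pos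
  conn := by
    set R := fun a b : Fin 3 ⊕ Fin 3 => ∃ e : Fin 3 ⊕ Fin 3,
      (Sum.elim Sum.inl Sum.inl : Fin 3 ⊕ Fin 3 → Fin 3 ⊕ Fin 3) e = a ∧
      (Sum.elim (fun i => Sum.inl (i + 1)) Sum.inr : Fin 3 ⊕ Fin 3 → Fin 3 ⊕ Fin 3) e = b
    have h1 : ∀ i : Fin 3, Relation.EqvGen R (Sum.inl i) (Sum.inl (i + 1)) :=
      fun i => Relation.EqvGen.rel _ _ ⟨Sum.inl i, rfl, rfl⟩
    have h2 : ∀ i : Fin 3, Relation.EqvGen R (Sum.inl i) (Sum.inr i) :=
      fun i => Relation.EqvGen.rel _ _ ⟨Sum.inr i, rfl, rfl⟩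
    have h3 : ∀ i : Fin 3, Relation.EqvGen R (Sum.inl 0) (Sum.inl i) := by
      intro i
      fin_cases i
      · exact Relation.EqvGen.refl _
      · exact h1 0
      · exact (h1 0).trans _ _ _ (h1 1)
    have h4 : ∀ v : Fin 3 ⊕ Fin 3, Relation.EqvGen R (Sum.inl 0) v := by
      rintro (i | i)
      · exact h3 i
      · exact (h3 i).trans _ _ _ (h2 i)
    intro u v
    exact (h4 u).symm.trans _ _ _ (h4 v)

/-- The relations satisfied by an eigenfunction with eigenvalue `k²`, `0 < k ≤ 1`. -/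
theorem rel {k : ℝ} (hk0 : 0 < k) (hk1 : k ≤ 1) {f : Pt T → ℝ} {g : T.E → ℝ → ℝ} {φ : T.V → ℝ}
    (hd : ∀ e, ∀ x ∈ Icc 0 (T.len e),
      HasDerivWithinAt (fun t => f (pt T e t)) (g e x) (Icc 0 (T.len e)) x ∧
      HasDerivWithinAt (g e) (-k ^ 2 * f (pt T e x)) (Icc 0 (T.len e)) x)
    (hv : ∀ e, f (pt T e 0) = φ (T.src e) ∧ f (pt T e (T.len e)) = φ (T.tgt e))
    (hK : ∀ v, (∑ e, if T.src e = v then g e 0 else 0) -
      (∑ e, if T.tgt e = v then g e (T.len e) else 0) = 0) :
    (∀ i : Fin 3, (φ (Sum.inl 0) + φ (Sum.inl 1) + φ (Sum.inl 2)) * cos (k * σ) =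
      φ (Sum.inl i) * h k) ∧
    (∀ i : Fin 3, g (Sum.inr i) 0 * cos (k * σ) = k * φ (Sum.inl i) * sin (k * σ)) ∧
    ∀ i : Fin 3, g (Sum.inl i) 0 = k * (φ (Sum.inl (i + 1)) - φ (Sum.inl i) * cos (k * θ)) /
      sin (k * θ) := by
  have hkθ : 0 < sin (k * θ) := Real.sin_pos_of_pos_of_lt_pi (mul_pos hk0 θ_pos)
    (by nlinarith [θ_lt, θ_pos])
  have hkσ : 0 < cos (k * σ) := Real.cos_pos_of_mem_Ioo
    ⟨by nlinarith [σ_pos, pi_pos], by nlinarith [σ_lt, σ_pos]⟩
  have hT : ∀ i : Fin 3, g (Sum.inl i) 0 = k * (φ (Sum.inl (i + 1)) - φ (Sum.inl i) *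
      cos (k * θ)) / sin (k * θ) ∧ g (Sum.inl i) θ = k * (φ (Sum.inl (i + 1)) * cos (k * θ) -
      φ (Sum.inl i)) / sin (k * θ) := by
    intro i
    exact edge_ends hk0.ne' hd hv (Sum.inl i) hkθ.ne'
  have hP : ∀ i : Fin 3, g (Sum.inr i) 0 * cos (k * σ) = k * φ (Sum.inl i) * sin (k * σ) := by
    intro i
    have h1 := hK (Sum.inr i)
    rw [Fintype.sum_sum_type, Fintype.sum_sum_type] at h1
    simp only [Fin.sum_univ_three] at h1
    have h2 : g (Sum.inr i) σ = 0 := by
      fin_cases i <;> simpa using h1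
    have h3 := (edge_sol hk0.ne' hd hv (Sum.inr i) (x := σ) ⟨σ_pos.le, le_refl _⟩).2
    rw [h2] at h3
    change 0 = -k * φ (Sum.inl i) * sin (k * σ) + g (Sum.inr i) 0 * cos (k * σ) at h3
    linarith
  refine ⟨?_, hP, fun i => (hT i).1⟩
  -- Kirchhoff at the vertices of the triangle
  have key : ∀ a b c gp : ℝ, gp * cos (k * σ) = k * a * sin (k * σ) →
      k * (b - a * cos (k * θ)) / sin (k * θ) + gp
        - k * (a * cos (k * θ) - c) / sin (k * θ) = 0 →
      (a + b + c) * cos (k * σ) = a * h k := by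
    intro a b c gp h1 h2
    have h3 : (k * (b - a * cos (k * θ)) + k * (c - a * cos (k * θ))) * cos (k * σ) +
        sin (k * θ) * (gp * cos (k * σ)) = 0 := by
      field_simp at h2
      linear_combination (cos (k * σ)) * h2
    rw [h1] at h3
    unfold h
    have h4 : k * ((a + b + c) * cos (k * σ) - a * (2 * cos (k * θ) * cos (k * σ) -
        sin (k * θ) * sin (k * σ) + cos (k * σ))) = 0 := by linear_combination h3
    rcases mul_eq_zero.1 h4 with h | h
    · exact absurd h hk0.ne'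
    · linarith
  have h0 := hK (Sum.inl 0)
  have h1 := hK (Sum.inl 1)
  have h2 := hK (Sum.inl 2)
  rw [Fintype.sum_sum_type, Fintype.sum_sum_type] at h0 h1 h2
  simp [Fin.sum_univ_three] at h0 h1 h2
  have a0 := hT 0
  have a1 := hT 1
  have a2 := hT 2
  simp only [zero_add, show (1 : Fin 3) + 1 = 2 from rfl, show (2 : Fin 3) + 1 = 0 from rfl]
    at a0 a1 a2
  rw [a0.1, a2.2] at h0
  rw [a1.1, a0.2] at h1
  rw [a2.1, a1.2] at h2
  have r0 := key _ _ _ _ (hP 0) h0
  have r1 := key _ _ _ _ (hP 1) h1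
  have r2 := key _ _ _ _ (hP 2) h2
  intro i
  fin_cases i
  · exact r0
  · change _ = φ (Sum.inl 1) * h k
    linear_combination r1
  · change _ = φ (Sum.inl 2) * h k
    linear_combination r2

/-- If the values at the triangle vertices vanish, the function vanishes. -/
theorem zero {k : ℝ} (hk0 : 0 < k) (hk1 : k ≤ 1) {f : Pt T → ℝ} {g : T.E → ℝ → ℝ} {φ : T.V → ℝ}
    (hd : ∀ e, ∀ x ∈ Icc 0 (T.len e),
      HasDerivWithinAt (fun t => f (pt T e t)) (g e x) (Icc 0 (T.len e)) x ∧
      HasDerivWithinAt (g e) (-k ^ 2 * f (pt T e x)) (Icc 0 (T.len e)) x)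
    (hv : ∀ e, f (pt T e 0) = φ (T.src e) ∧ f (pt T e (T.len e)) = φ (T.tgt e))
    (hK : ∀ v, (∑ e, if T.src e = v then g e 0 else 0) -
      (∑ e, if T.tgt e = v then g e (T.len e) else 0) = 0)
    (h0 : ∀ i : Fin 3, φ (Sum.inl i) = 0) : ∀ p, f p = 0 := by
  obtain ⟨-, h2, h3⟩ := rel hk0 hk1 hd hv hK
  have hkσ : 0 < cos (k * σ) := Real.cos_pos_of_mem_Ioo
    ⟨by nlinarith [σ_pos, pi_pos], by nlinarith [σ_lt, σ_pos]⟩
  intro p
  obtain ⟨e, x, hx, hx', rfl⟩ := pt_surj p
  rw [(edge_sol hk0.ne' hd hv e ⟨hx, hx'⟩).1]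
  rcases e with i | i
  · change φ (Sum.inl i) * _ + g (Sum.inl i) 0 / k * _ = 0
    rw [h3 i, h0, h0]
    simp
  · change φ (Sum.inl i) * _ + g (Sum.inr i) 0 / k * _ = 0
    have := h2 i
    rw [h0, mul_zero, zero_mul] at this
    rcases mul_eq_zero.1 this with h | h
    · rw [h, h0]; simp
    · exact absurd h hkσ.ne'

/-- The eigenfunctions for the eigenvalue one. -/
theorem family (a : Fin 3 → ℝ) (ha : a 0 + a 1 + a 2 = 0) (hne : ∃ i, a i ≠ 0) :
    ∃ f, IsEig T (fun _ => 0) 1 f ∧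
      (∀ i : Fin 3, ∀ x ∈ Icc 0 θ, f (pt T (Sum.inl i) x) =
        a i * cos x + (a (i + 1) + a i / 4) / sin θ * sin x) ∧
      ∀ i : Fin 3, ∀ x ∈ Icc 0 σ, f (pt T (Sum.inr i) x) =
        a i * (cos x + sin σ / cos σ * sin x) := by
  have hsθ := sinθ_pos.ne'
  have hcσ := cosσ_pos.ne'
  set F : T.E → ℝ → ℝ := Sum.elim
    (fun i x => a i * cos x + (a (i + 1) + a i / 4) / sin θ * sin x)
    (fun i x => a i * (cos x + sin σ / cos σ * sin x)) with hF
  set Fd : T.E → ℝ → ℝ := Sum.elim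
    (fun i x => -a i * sin x + (a (i + 1) + a i / 4) / sin θ * cos x)
    (fun i x => a i * (-sin x + sin σ / cos σ * cos x)) with hFd
  set φ : T.V → ℝ := Sum.elim a (fun i => a i / cos σ) with hφ
  have h0 : ∀ e, F e 0 = φ (T.src e) := by
    rintro (i | i) <;> simp [hF, hφ]
  have h1 : ∀ e, F e (T.len e) = φ (T.tgt e) := by
    rintro (i | i)
    · change a i * cos θ + (a (i + 1) + a i / 4) / sin θ * sin θ = a (i + 1)
      rw [div_mul_cancel₀ _ hsθ, cosθ]; ring
    · change a i * (cos σ + sin σ / cos σ * sin σ) = a i / cos σ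
      have := Real.sin_sq_add_cos_sq σ
      field_simp
      linear_combination (a i) * this
  refine ⟨mkFun T F φ h0 h1, isEig_mk (Fd := Fd) ?_ ?_ ?_ ?_, ?_, ?_⟩
  · rintro (i | i) x
    · refine (((Real.hasDerivAt_cos x).const_mul (a i)).add
        ((Real.hasDerivAt_sin x).const_mul ((a (i + 1) + a i / 4) / sin θ))).congr_deriv ?_
      simp only [hFd, Sum.elim_inl]; ring
    · refine (((Real.hasDerivAt_cos x).add
        ((Real.hasDerivAt_sin x).const_mul (sin σ / cos σ))).const_mul (a i)).congr_deriv ?_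
      simp only [hFd, Sum.elim_inr]
  · rintro (i | i) x
    · refine (((Real.hasDerivAt_sin x).const_mul (-a i)).add
        ((Real.hasDerivAt_cos x).const_mul ((a (i + 1) + a i / 4) / sin θ))).congr_deriv ?_
      simp only [hF, Sum.elim_inl]; ring
    · refine (((Real.hasDerivAt_sin x).neg.add
        ((Real.hasDerivAt_cos x).const_mul (sin σ / cos σ))).const_mul (a i)).congr_deriv ?_
      simp only [hF, Sum.elim_inr]; ring
  · have hsc : sin σ = 2 / √15 * cos σ := by
      have h := tanσ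
      rwa [div_eq_iff cosσ_pos.ne'] at h
    have ht := tanσ
    have hs := sinθ
    have h15 := s15.ne'
    have h15s := s15sq
    intro v
    rw [Fintype.sum_sum_type, Fintype.sum_sum_type]
    rcases v with i | i
    · have key : ∀ x y z : ℝ, x + y + z = 0 → (y + x / 4) / sin θ + x * (sin σ / cos σ) -
          (-z * sin θ + (x + z / 4) / sin θ * cos θ) = 0 := by
        intro x y z hxyz
        rw [ht, cosθ, hs]
        have hz : z = -x - y := by linarith
        subst hz
        field_simp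
        ring_nf
        rw [h15s]
        ring
      fin_cases i <;> simp [Fin.sum_univ_three, hFd]
      · have := key (a 0) (a 1) (a 2) ha
        linear_combination this
      · have := key (a 1) (a 2) (a 0) (by linarith)
        linear_combination this
      · have := key (a 2) (a 0) (a 1) (by linarith)
        linear_combination this
    · fin_cases i <;> simp [hFd] <;> right <;> field_simp <;> ring
  · obtain ⟨i, hi⟩ := hne
    exact ⟨Sum.inl i, 0, ⟨le_refl _, θ_pos.le⟩, by simpa [hF] using hi⟩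
  · intro i x hx
    exact mkFun_pt (G := T) (Sum.inl i) hx.1 hx.2
  · intro i x hx
    exact mkFun_pt (G := T) (Sum.inr i) hx.1 hx.2

theorem mu2 : IsMu2 T 1 := by
  refine ⟨one_pos, ?_, ?_⟩
  · obtain ⟨f, hf, -⟩ := family ![1, -1, 0] (by simp) ⟨0, by simp⟩
    exact ⟨f, hf⟩
  · rintro ν hν hν' ⟨f, ⟨p, hp⟩, g, φ, hd, hv, hK⟩
    set k := √ν with hk
    have hk0 : 0 < k := Real.sqrt_pos.2 hν
    have hk2 : k ^ 2 = ν := Real.sq_sqrt hν.le
    have hk1 : k < 1 := by nlinarith
    rw [← hk2] at hd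
    simp only [zero_mul] at hK
    obtain ⟨h1, -, -⟩ := rel hk0 hk1.le hd hv hK
    apply hp
    apply zero hk0 hk1.le hd hv hK
    have hh := h_pos hk0 hk1
    set S := φ (Sum.inl 0) + φ (Sum.inl 1) + φ (Sum.inl 2) with hS
    have hkσ : 0 < cos (k * σ) := Real.cos_pos_of_mem_Ioo
      ⟨by nlinarith [σ_pos, pi_pos], by nlinarith [σ_lt, σ_pos]⟩
    have hlt : h k < 3 * cos (k * σ) := by
      unfold h
      have c1 : cos (k * θ) ≤ 1 := Real.cos_le_one _
      have c2 : 0 < sin (k * θ) := Real.sin_pos_of_pos_of_lt_pi (mul_pos hk0 θ_pos)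
        (by nlinarith [θ_lt, θ_pos])
      have c3 : 0 < sin (k * σ) := Real.sin_pos_of_pos_of_lt_pi (mul_pos hk0 σ_pos)
        (by nlinarith [σ_lt, σ_pos, pi_pos])
      nlinarith [mul_pos c2 c3]
    have hS0 : S = 0 := by
      have : S * (3 * cos (k * σ) - h k) = 0 := by
        have := h1 0; have := h1 1; have := h1 2
        rw [hS] at *
        linarith
      rcases mul_eq_zero.1 this with h | h
      · exact h
      · exfalso; linarith
    intro i
    have := h1 i
    rw [hS0, zero_mul] at this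
    rcases mul_eq_zero.1 this.symm with h | h
    · exact h
    · exact absurd h hh.ne'

theorem hot_point {t : ℝ} (ht : σ ≤ t) (ht' : t ≤ θ - σ) : pt T (Sum.inl 0) t ∈ hotSet T := by
  rw [hotSet_eq mu2]
  have hσ := σ_pos
  have hθ := θ_lt
  have hs := sinθ_pos
  have hcσ := cosσ_pos
  have hc0 : 0 < cos (θ - σ) := by rw [cos_sub]; linarith
  have t0 : 0 < cos t := hc0.trans_le (Real.cos_le_cos_of_nonneg_of_le_pi (by linarith)
    (by linarith) ht')
  have t1 : 0 < cos (θ - t) := hc0.trans_le (Real.cos_le_cos_of_nonneg_of_le_pi (by linarith)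
    (by linarith) (by linarith))
  have u0 : cos t ≤ cos σ := Real.cos_le_cos_of_nonneg_of_le_pi hσ.le (by linarith) ht
  have u1 : cos (θ - t) ≤ cos σ := Real.cos_le_cos_of_nonneg_of_le_pi hσ.le (by linarith)
    (by linarith)
  have hcσ1 : cos σ ≤ 1 := Real.cos_le_one _
  set a : Fin 3 → ℝ := ![cos t, cos (θ - t), -(cos t + cos (θ - t))] with ha
  obtain ⟨f, hf, hfT, hfP⟩ := family a (by simp [ha]) ⟨0, by simp [ha, t0.ne']⟩
  have e0 : ∀ x ∈ Icc 0 θ, f (pt T (Sum.inl 0) x) = cos (x - t) := by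
    intro x hx
    rw [hfT 0 x hx]
    have : (a (0 + 1) + a 0 / 4) / sin θ = sin t := by
      simp only [ha, zero_add, Matrix.cons_val_zero, Matrix.cons_val_one]
      rw [Real.cos_sub, cosθ, div_eq_iff hs.ne']
      ring
    rw [this, Real.cos_sub]
    simp only [ha, Matrix.cons_val_zero]
    ring
  refine ⟨f, hf, Or.inl fun q => ?_⟩
  rw [e0 t ⟨by linarith, by linarith⟩, sub_self, Real.cos_zero]
  obtain ⟨e, x, hx, hx', rfl⟩ := pt_surj q
  rcases e with i | i
  · change x ≤ θ at hx'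
    have sx : 0 ≤ sin x := Real.sin_nonneg_of_nonneg_of_le_pi hx (by linarith)
    have sx' : 0 ≤ sin (θ - x) := Real.sin_nonneg_of_nonneg_of_le_pi (by linarith) (by linarith)
    fin_cases i
    · change f (pt T (Sum.inl 0) x) ≤ 1
      rw [e0 x ⟨hx, hx'⟩]
      exact Real.cos_le_one _
    · change f (pt T (Sum.inl 1) x) ≤ 1
      rw [hfT 1 x ⟨hx, hx'⟩]
      have h1 : a 1 = cos (θ - t) := rfl
      have h2 : a (1 + 1) = -(cos t + cos (θ - t)) := rfl
      rw [h1, h2]
      have h3 : (-(cos t + cos (θ - t)) + cos (θ - t) / 4) / sin θ ≤ 0 :=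
        div_nonpos_of_nonpos_of_nonneg (by linarith) hs.le
      have h4 := Real.cos_le_one x
      have h5 : cos (θ - t) * cos x ≤ cos (θ - t) * 1 := mul_le_mul_of_nonneg_left h4 t1.le
      have h6 := mul_nonpos_of_nonpos_of_nonneg h3 sx
      linarith
    · change f (pt T (Sum.inl 2) x) ≤ 1
      rw [hfT 2 x ⟨hx, hx'⟩]
      have h1 : a 2 = -(cos t + cos (θ - t)) := rfl
      have h2 : a (2 + 1) = cos t := rfl
      rw [h1, h2]
      have h3 : -(cos t + cos (θ - t)) * cos x + (cos t + -(cos t + cos (θ - t)) / 4) / sin θ *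
          sin x = cos t * cos (θ - x) + (-(cos t + cos (θ - t)) + cos t / 4) / sin θ *
          sin (θ - x) := by
        rw [Real.cos_sub θ x, Real.sin_sub θ x, cosθ]
        have hs2 : sin θ ^ 2 = 15 / 16 := by rw [sinθ, div_pow, s15sq]; norm_num
        field_simp
        linear_combination (-16 * cos t * sin x) * hs2
      rw [h3]
      have h3 : (-(cos t + cos (θ - t)) + cos t / 4) / sin θ ≤ 0 :=
        div_nonpos_of_nonpos_of_nonneg (by linarith) hs.le
      have h4 := Real.cos_le_one (θ - x)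
      have h5 : cos t * cos (θ - x) ≤ cos t * 1 := mul_le_mul_of_nonneg_left h4 t0.le
      have h6 := mul_nonpos_of_nonpos_of_nonneg h3 sx'
      linarith
  · change x ≤ σ at hx'
    rw [hfP i x ⟨hx, hx'⟩]
    have h1 : cos x + sin σ / cos σ * sin x = cos (σ - x) / cos σ := by
      rw [Real.cos_sub]; field_simp
    rw [h1]
    have h2 : 0 ≤ cos (σ - x) := Real.cos_nonneg_of_mem_Icc
      ⟨by linarith [pi_pos], by linarith [σ_lt]⟩
    have h3 : cos (σ - x) ≤ 1 := Real.cos_le_one _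
    have key : ∀ y : ℝ, y ≤ cos σ → y * (cos (σ - x) / cos σ) ≤ 1 := by
      intro y hy
      rw [← mul_div_assoc, div_le_one hcσ]
      nlinarith
    apply key
    fin_cases i
    · exact u0
    · exact u1
    · change -(cos t + cos (θ - t)) ≤ cos σ
      linarith

theorem hot_infinite : (hotSet T).Infinite := by
  apply Set.infinite_of_injOn_mapsTo (f := fun t => pt T (Sum.inl 0) t) (s := Icc σ (θ - σ))
  · intro t ht t' ht' h
    have hσ := σ_pos
    have h : pt T (Sum.inl 0) t = pt T (Sum.inl 0) t' := h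
    rw [pt_eq_iff ⟨by linarith [ht.1], by change t ≤ θ; linarith [ht.2]⟩
      ⟨by linarith [ht'.1], by change t' ≤ θ; linarith [ht'.2]⟩] at h
    rcases h with ⟨-, h⟩ | ⟨v, h, -⟩
    · exact h
    · rcases h with ⟨h, -⟩ | ⟨h, -⟩
      · exfalso; linarith [ht.1]
      · change t = θ at h
        exfalso; linarith [ht.2]
  · intro t ht
    exact hot_point ht.1 ht.2
  · exact Set.Icc_infinite two_σ_lt

theorem not_hot : pt T (Sum.inr 0) (σ / 2) ∉ hotSet T := by
  rw [hotSet_eq mu2]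
  rintro ⟨f, ⟨⟨p, hp⟩, g, φ, hd, hv, hK⟩, hext⟩
  have hσ := σ_pos
  have hcσ := cosσ_pos
  simp only [zero_mul] at hK
  have hd' : ∀ e, ∀ x ∈ Icc 0 (T.len e),
      HasDerivWithinAt (fun t => f (pt T e t)) (g e x) (Icc 0 (T.len e)) x ∧
      HasDerivWithinAt (g e) (-(1:ℝ) ^ 2 * f (pt T e x)) (Icc 0 (T.len e)) x := by
    intro e x hx
    have := hd e x hx
    rw [one_pow]
    exact this
  obtain ⟨h1, h2, -⟩ := rel one_pos le_rfl hd' hv hK
  have hmem : σ / 2 ∈ Icc 0 (T.len (Sum.inr 0)) := ⟨by linarith, by change σ / 2 ≤ σ; linarith⟩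
  -- the derivative vanishes
  have hder : HasDerivAt (fun t => f (pt T (Sum.inr 0) t)) (g (Sum.inr 0) (σ / 2)) (σ / 2) :=
    (hd (Sum.inr 0) (σ / 2) hmem).1.hasDerivAt (Icc_mem_nhds (by linarith)
      (by change σ / 2 < σ; linarith))
  have hg0 : g (Sum.inr 0) (σ / 2) = 0 := by
    rcases hext with hmax | hmin
    · exact IsLocalMax.hasDerivAt_eq_zero (Filter.Eventually.of_forall fun t => hmax _) hder
    · exact IsLocalMin.hasDerivAt_eq_zero (Filter.Eventually.of_forall fun t => hmin _) hder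
  obtain ⟨s1, s2⟩ := edge_sol one_ne_zero hd' hv (Sum.inr 0) hmem
  rw [hg0] at s2
  have h20 := h2 0
  simp only [one_mul] at s1 s2 h20
  change f (pt T (Sum.inr 0) (σ / 2)) = φ (Sum.inl 0) * cos (σ / 2) +
    g (Sum.inr 0) 0 / 1 * sin (σ / 2) at s1
  change 0 = -1 * φ (Sum.inl 0) * sin (σ / 2) + g (Sum.inr 0) 0 * cos (σ / 2) at s2
  have hT0 : φ (Sum.inl 0) = 0 := by
    have h3 : φ (Sum.inl 0) * sin (σ - σ / 2) = 0 := by
      rw [Real.sin_sub]
      linear_combination (-cos (σ / 2)) * h20 - (cos σ) * s2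
    have h4 : 0 < sin (σ - σ / 2) := Real.sin_pos_of_pos_of_lt_pi (by linarith)
      (by linarith [σ_lt, pi_pos])
    rcases mul_eq_zero.1 h3 with h | h
    · exact h
    · exact absurd h h4.ne'
  have hf0 : f (pt T (Sum.inr 0) (σ / 2)) = 0 := by
    rw [hT0, zero_mul] at h20
    have hg : g (Sum.inr 0) 0 = 0 := by
      rcases mul_eq_zero.1 h20 with h | h
      · exact h
      · exact absurd h hcσ.ne'
    rw [s1, hT0, hg]; simp
  have hS : φ (Sum.inl 0) + φ (Sum.inl 1) + φ (Sum.inl 2) = 0 := by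
    have := h1 0
    rw [h_one, mul_zero, one_mul] at this
    rcases mul_eq_zero.1 this with h | h
    · exact h
    · exact absurd h hcσ.ne'
  have hval : ∀ i : Fin 3, f (pt T (Sum.inl i) 0) = φ (Sum.inl i) := fun i => (hv (Sum.inl i)).1
  apply hp
  apply zero one_pos le_rfl hd' hv hK
  rcases hext with hmax | hmin
  · rw [hf0] at hmax
    have k0 := hmax (pt T (Sum.inl 0) 0)
    have k1 := hmax (pt T (Sum.inl 1) 0)
    have k2 := hmax (pt T (Sum.inl 2) 0)
    rw [hval] at k0 k1 k2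
    intro i
    fin_cases i
    · exact hT0
    · change φ (Sum.inl 1) = 0; linarith
    · change φ (Sum.inl 2) = 0; linarith
  · rw [hf0] at hmin
    have k0 := hmin (pt T (Sum.inl 0) 0)
    have k1 := hmin (pt T (Sum.inl 1) 0)
    have k2 := hmin (pt T (Sum.inl 2) 0)
    rw [hval] at k0 k1 k2
    intro i
    fin_cases i
    · exact hT0
    · change φ (Sum.inl 1) = 0; linarith
    · change φ (Sum.inl 2) = 0; linarith

end Pool.Agent.Q170.TriPend
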